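import Mathlib

namespace Pool.Agent.Work.MP_df328f_co

/-- Every colouring of the edges of `K_n` with `t` colours contains a cycle of length `l` whose edges
carry at most `t - 1` distinct colours. -/
def Arrows (t l n : ℕ) : Prop :=
  ∀ c : Sym2 (Fin n) → Fin t, ∃ (v : Fin n) (p : (⊤ : SimpleGraph (Fin n)).Walk v v),
    p.IsCycle ∧ p.length = l ∧ (p.edges.map c).toFinset.card ≤ t - 1

/-- The value of `f (t, l)`. -/
def value (t l : ℕ) : ℕ :=
  if t = 2 then
    (if l ≤ 4 then 6 else if l % 2 = 1 then 2 * l - 1 else 3 * l / 2 - 1)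
  else if t = 3 ∧ l = 3 then 5
  else if l ≤ 3 * 2 ^ (t - 3) then l
  else if l ≤ 5 * 2 ^ (t - 2) - 2 then l + 1
  else if l ≤ 5 * 2 ^ (t - 1) - 4 then l + 2
  else l + (l + 2 ^ (t - 1) - 3) / (2 ^ t - 2)

end Pool.Agent.Work.MP_df328f_co
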