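import Mathlib
import Pool.Agent.Work.MP_df328f_co.Defs

-- merged part: Pool.Agent.Work.MP_df328f_co.Step
section
-- merged part: Pool.Agent.Work.MP_df328f_co.Path
section
/-! Paths described by their two ends and their vertex set. -/

namespace Pool.Agent.Work.MP_df328f_co

open Finset

variable {V : Type} [DecidableEq V]

/-- `HP H a b s`: there is a path of `H` from `a` to `b` whose vertex set is `s`. -/
inductive HP (H : SimpleGraph V) : V → V → Finset V → Prop
  | single (a : V) : HP H a a {a}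
  | cons {a b c : V} {s : Finset V} : H.Adj a b → a ∉ s → HP H b c s → HP H a c (insert a s)

/-- `H` has a cycle with exactly `r` vertices (meaningful for `3 ≤ r`). -/
def HasCyc (H : SimpleGraph V) (r : ℕ) : Prop :=
  ∃ a b s, HP H a b s ∧ H.Adj b a ∧ s.card = r

/-- `H` has no cycle with at least `l` vertices. -/
def NoLong (H : SimpleGraph V) (l : ℕ) : Prop :=
  ∀ a b s, HP H a b s → H.Adj b a → s.card < l

variable {H : SimpleGraph V}

theorem HP.left_mem {a b : V} {s : Finset V} (h : HP H a b s) : a ∈ s := by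
  cases h <;> simp

theorem HP.right_mem {a b : V} {s : Finset V} (h : HP H a b s) : b ∈ s := by
  induction h with
  | single a => simp
  | cons _ _ _ ih => exact mem_insert_of_mem ih

theorem HP.congr {a b a' b' : V} {s s' : Finset V} (h : HP H a b s) (ha : a = a') (hb : b = b')
    (hs : s = s') : HP H a' b' s' := by
  subst ha hb hs
  exact h

theorem HP.mono {H' : SimpleGraph V} (hH : H ≤ H') {a b : V} {s : Finset V} (h : HP H a b s) :
    HP H' a b s := by
  induction h with
  | single a => exact HP.single a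
  | cons h1 h2 _ ih => exact HP.cons (hH h1) h2 ih

theorem HP.append {a b c d : V} {s t : Finset V} (h : HP H a b s) (h' : HP H c d t)
    (hbc : H.Adj b c) (hd : Disjoint s t) : HP H a d (s ∪ t) := by
  induction h with
  | single a =>
    have : a ∉ t := by simpa using hd
    simpa using HP.cons hbc this h'
  | @cons a b' c' s h1 h2 _ ih =>
    rw [disjoint_insert_left] at hd
    rw [insert_union]
    refine HP.cons h1 ?_ (ih hbc hd.2)
    simp [h2, hd.1]

theorem HP.snoc {a b c : V} {s : Finset V} (h : HP H a b s) (hbc : H.Adj b c) (hc : c ∉ s) :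
    HP H a c (insert c s) := by
  have := h.append (HP.single c) hbc (by simpa using hc)
  refine this.congr rfl rfl ?_
  ext x
  simp

theorem HP.symm {a b : V} {s : Finset V} (h : HP H a b s) : HP H b a s := by
  induction h with
  | single a => exact HP.single a
  | cons h1 h2 _ ih => exact ih.snoc h1.symm h2

theorem HP.eq_singleton {a b : V} {s : Finset V} (h : HP H a b s) (hab : a = b) : s = {a} := by
  cases h with
  | single a => rfl
  | cons h1 h2 h3 => exact absurd (hab ▸ h3.right_mem) h2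

theorem HP.ne_of_card {a b : V} {s : Finset V} (h : HP H a b s) (hc : 2 ≤ s.card) : a ≠ b := by
  intro hab
  rw [h.eq_singleton hab] at hc
  simp at hc

theorem HP.uncons {a b : V} {s : Finset V} (h : HP H a b s) (hab : a ≠ b) :
    ∃ c, H.Adj a c ∧ HP H c b (s.erase a) := by
  cases h with
  | single a => exact absurd rfl hab
  | cons h1 h2 h3 => exact ⟨_, h1, by rwa [erase_insert h2]⟩

theorem HP.glue {a b c : V} {s t : Finset V} (h : HP H a b s) (h' : HP H b c t)
    (hd : ∀ x ∈ s, x ∈ t → x = b) : HP H a c (s ∪ t) := by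
  by_cases hbc : b = c
  · subst hbc
    rw [h'.eq_singleton rfl]
    refine h.congr rfl rfl ?_
    ext x
    simp only [mem_union, mem_singleton]
    exact ⟨Or.inl, fun hx => hx.elim id (fun hx => hx ▸ h.right_mem)⟩
  · obtain ⟨d, hd1, hd2⟩ := h'.uncons hbc
    have := h.append hd2 hd1 (by
      rw [disjoint_left]
      intro x hx hx'
      rw [mem_erase] at hx'
      exact hx'.1 (hd x hx hx'.2))
    refine this.congr rfl rfl ?_
    ext x
    simp only [mem_union, mem_erase]
    constructor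
    · rintro (hx | hx)
      · exact Or.inl hx
      · exact Or.inr hx.2
    · rintro (hx | hx)
      · exact Or.inl hx
      · by_cases hxb : x = b
        · exact Or.inl (hxb ▸ h.right_mem)
        · exact Or.inr ⟨hxb, hx⟩

theorem HP.split {a b c : V} {s : Finset V} (h : HP H a b s) (hc : c ∈ s) :
    ∃ s1 s2, HP H a c s1 ∧ HP H c b s2 ∧ s1 ∪ s2 = s ∧ ∀ x ∈ s1, x ∈ s2 → x = c := by
  induction h with
  | single a =>
    rw [mem_singleton] at hc
    subst hc
    exact ⟨{c}, {c}, HP.single c, HP.single c, by simp, by simp⟩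
  | @cons a b' c' s h1 h2 h3 ih =>
    by_cases hca : c = a
    · subst hca
      exact ⟨{c}, insert c s, HP.single c, HP.cons h1 h2 h3, by simp, by simp⟩
    · have hc' : c ∈ s := by simpa [hca] using hc
      obtain ⟨s1, s2, p1, p2, hu, hi⟩ := ih hc'
      have ha1 : a ∉ s1 := fun h => h2 (hu ▸ mem_union_left _ h)
      have ha2 : a ∉ s2 := fun h => h2 (hu ▸ mem_union_right _ h)
      refine ⟨insert a s1, s2, HP.cons h1 ha1 p1, p2, by rw [insert_union, hu], ?_⟩
      intro x hx hx2
      rcases mem_insert.1 hx with rfl | hx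
      · exact absurd hx2 ha2
      · exact hi x hx hx2

/-- Rotate a cycle so that it starts at a given vertex. -/
theorem HP.rotate {a b c : V} {s : Finset V} (h : HP H a b s) (hba : H.Adj b a) (hc : c ∈ s) :
    ∃ d, HP H c d s ∧ H.Adj d c := by
  by_cases hca : c = a
  · subst hca
    exact ⟨b, h, hba⟩
  · obtain ⟨s1, s2, p1, p2, hu, hi⟩ := h.split hc
    obtain ⟨d, hd1, hd2⟩ := p1.symm.uncons hca
    refine ⟨d, ?_, hd1.symm⟩
    have := p2.append hd2.symm hba (by
      rw [disjoint_left]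
      intro x hx hx'
      rw [mem_erase] at hx'
      exact hx'.1 (hi x hx'.2 hx))
    refine this.congr rfl rfl ?_
    rw [← hu]
    ext x
    simp only [mem_union, mem_erase]
    constructor
    · rintro (hx | hx)
      · exact Or.inr hx
      · exact Or.inl hx.2
    · rintro (hx | hx)
      · by_cases hxc : x = c
        · exact Or.inl (hxc ▸ p2.left_mem)
        · exact Or.inr ⟨hxc, hx⟩
      · exact Or.inl hx

/-- The initial part of a path up to its first vertex in `Y`. -/
theorem HP.first {a b : V} {s : Finset V} (h : HP H a b s) (Y : Finset V) (hb : b ∈ Y) :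
    ∃ b' ∈ Y, ∃ s', s' ⊆ s ∧ HP H a b' s' ∧ ∀ x ∈ s', x ∈ Y → x = b' := by
  induction h with
  | single a => exact ⟨a, hb, {a}, subset_rfl, HP.single a, by simp⟩
  | @cons a b' c' s h1 h2 h3 ih =>
    by_cases ha : a ∈ Y
    · exact ⟨a, ha, {a}, by simp, HP.single a, by simp⟩
    · obtain ⟨b'', hb'', s', hs', p, hp⟩ := ih hb
      refine ⟨b'', hb'', insert a s', insert_subset_insert _ hs',
        HP.cons h1 (fun h => h2 (hs' h)) p, ?_⟩
      intro x hx hxY
      rcases mem_insert.1 hx with rfl | hx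
      · exact absurd hxY ha
      · exact hp x hx hxY

/-- A subpath from `X` to `Y` meeting each of them only in its end. -/
theorem HP.trim {a b : V} {s : Finset V} (h : HP H a b s) (X Y : Finset V) (ha : a ∈ X)
    (hb : b ∈ Y) :
    ∃ a' ∈ X, ∃ b' ∈ Y, ∃ s', s' ⊆ s ∧ HP H a' b' s' ∧ (∀ x ∈ s', x ∈ X → x = a') ∧
      ∀ x ∈ s', x ∈ Y → x = b' := by
  obtain ⟨b', hb', s1, hs1, p1, hp1⟩ := h.first Y hb
  obtain ⟨a', ha', s2, hs2, p2, hp2⟩ := p1.symm.first X ha
  exact ⟨a', ha', b', hb', s2, hs2.trans hs1, p2.symm, hp2, fun x hx => hp1 x (hs2 hx)⟩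

/-- A Hamiltonian path of a clique between two given vertices. -/
theorem HP.of_clique (S : Finset V) (hS : ∀ x ∈ S, ∀ y ∈ S, x ≠ y → H.Adj x y) {a b : V}
    (ha : a ∈ S) (hb : b ∈ S) (hab : a ≠ b) : HP H a b S := by
  induction hn : S.card using Nat.strong_induction_on generalizing S a with
  | _ n ih =>
    by_cases hc : ∃ c ∈ S, c ≠ a ∧ c ≠ b
    · obtain ⟨c, hc, hca, hcb⟩ := hc
      have h1 : HP H c b (S.erase a) := by
        refine ih (S.erase a).card (hn ▸ card_erase_lt_of_mem ha) (S.erase a) ?_ ?_ ?_ hcb rfl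
        · intro x hx y hy
          exact hS x (mem_of_mem_erase hx) y (mem_of_mem_erase hy)
        · exact mem_erase.2 ⟨hca, hc⟩
        · exact mem_erase.2 ⟨hab.symm, hb⟩
      have := HP.cons (hS a ha c hc hca.symm) (notMem_erase a S) h1
      rwa [insert_erase ha] at this
    · push Not at hc
      have := HP.cons (hS a ha b hb hab) (by simpa using hab) (HP.single b)
      refine this.congr rfl rfl ?_
      ext x
      simp only [mem_insert, mem_singleton]
      constructor
      · rintro (rfl | rfl) <;> assumption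
      · intro hx
        by_cases hxa : x = a
        · exact Or.inl hxa
        · exact Or.inr (hc x hx hxa)

/-- A Hamiltonian path of a balanced complete bipartite graph. -/
theorem HP.of_bip (X Y : Finset V) (hd : Disjoint X Y) (hXY : ∀ x ∈ X, ∀ y ∈ Y, H.Adj x y)
    (hc : X.card = Y.card) {a b : V} (ha : a ∈ X) (hb : b ∈ Y) : HP H a b (X ∪ Y) := by
  induction hn : X.card using Nat.strong_induction_on generalizing X Y a with
  | _ n ih =>
    by_cases hx : ∃ a' ∈ X, a' ≠ a
    · obtain ⟨a', ha', haa⟩ := hx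
      have h2 : 1 < Y.card := hc ▸ one_lt_card.2 ⟨a', ha', a, ha, haa⟩
      obtain ⟨b', hb', hbb⟩ := exists_mem_ne h2 b
      have h1 : HP H a' b (X.erase a ∪ Y.erase b') := by
        refine ih (X.erase a).card (hn ▸ card_erase_lt_of_mem ha) (X.erase a) (Y.erase b') ?_ ?_ ?_
          (mem_erase.2 ⟨haa, ha'⟩) (mem_erase.2 ⟨hbb.symm, hb⟩) rfl
        · exact hd.mono (erase_subset _ _) (erase_subset _ _)
        · intro x hx y hy
          exact hXY x (mem_of_mem_erase hx) y (mem_of_mem_erase hy)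
        · rw [card_erase_of_mem ha, card_erase_of_mem hb', hc]
      have hb'X : b' ∉ X := fun h => disjoint_left.1 hd h hb'
      have haY : a ∉ Y := fun h => disjoint_left.1 hd ha h
      have h3 := HP.cons (hXY a' ha' b' hb').symm (by simp [hb'X]) h1
      have h4 := HP.cons (hXY a ha b' hb') (by
        simp only [mem_insert, mem_union, mem_erase, not_or, not_and]
        exact ⟨fun h => hb'X (h ▸ ha), fun h => absurd rfl h, fun _ => haY⟩) h3
      refine h4.congr rfl rfl ?_
      ext x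
      simp only [mem_insert, mem_union, mem_erase]
      constructor
      · rintro (rfl | rfl | h | h)
        · exact Or.inl ha
        · exact Or.inr hb'
        · exact Or.inl h.2
        · exact Or.inr h.2
      · rintro (h | h)
        · by_cases hxa : x = a
          · exact Or.inl hxa
          · exact Or.inr (Or.inr (Or.inl ⟨hxa, h⟩))
        · by_cases hxb : x = b'
          · exact Or.inr (Or.inl hxb)
          · exact Or.inr (Or.inr (Or.inr ⟨hxb, h⟩))
    · push Not at hx
      have hX : X = {a} := eq_singleton_iff_unique_mem.2 ⟨ha, hx⟩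
      have hY : Y = {b} := by
        rw [hX, card_singleton] at hc
        obtain ⟨y, hy⟩ := card_eq_one.1 hc.symm
        rw [hy] at hb ⊢
        rw [mem_singleton.1 hb]
      have hab : a ≠ b := fun h => disjoint_left.1 hd ha (h ▸ hb)
      have := HP.cons (hXY a ha b hb) (by simpa using hab) (HP.single b)
      rw [hX, hY]
      simpa using this

omit [DecidableEq V] in
/-- A maximal element, for the number of vertices, of a family of paths. -/
theorem exists_max_card [Fintype V] (P : V → V → Finset V → Prop) (h : ∃ a b s, P a b s) :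
    ∃ a b s, P a b s ∧ ∀ a' b' s', P a' b' s' → s'.card ≤ s.card := by
  classical
  obtain ⟨a, b, s, hP⟩ := h
  obtain ⟨s0, hs0, hmax⟩ := exists_max_image (univ.filter fun s : Finset V => ∃ a b, P a b s)
    card ⟨s, by simpa using ⟨a, b, hP⟩⟩
  obtain ⟨a0, b0, h0⟩ := (mem_filter.1 hs0).2
  exact ⟨a0, b0, s0, h0, fun a' b' s' h' => hmax s' (by simpa using ⟨a', b', h'⟩)⟩

/-- The vertices `x i, ..., x j`. -/
def seg (x : ℕ → V) (i j : ℕ) : Finset V := (Icc i j).image x

/-- `x 0, ..., x (m - 1)` is a path. -/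
structure IPath (H : SimpleGraph V) (x : ℕ → V) (m : ℕ) : Prop where
  inj : ∀ i j, i < m → j < m → x i = x j → i = j
  adj : ∀ i, i + 1 < m → H.Adj (x i) (x (i + 1))

theorem mem_seg_iff {x : ℕ → V} {i j : ℕ} {v : V} : v ∈ seg x i j ↔ ∃ k, i ≤ k ∧ k ≤ j ∧ x k = v := by
  simp [seg, and_assoc]

theorem mem_seg_self {x : ℕ → V} {i j k : ℕ} (h1 : i ≤ k) (h2 : k ≤ j) : x k ∈ seg x i j :=
  mem_seg_iff.2 ⟨k, h1, h2, rfl⟩

theorem IPath.mem_seg {x : ℕ → V} {m : ℕ} (h : IPath H x m) {i j k : ℕ} (hj : j < m) (hk : k < m) :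
    x k ∈ seg x i j ↔ i ≤ k ∧ k ≤ j := by
  rw [mem_seg_iff]
  constructor
  · rintro ⟨k', h1, h2, h3⟩
    have := h.inj k' k (by omega) hk h3
    omega
  · rintro ⟨h1, h2⟩
    exact ⟨k, h1, h2, rfl⟩

theorem IPath.card_seg {x : ℕ → V} {m : ℕ} (h : IPath H x m) {i j : ℕ} (hj : j < m) :
    (seg x i j).card = j + 1 - i := by
  unfold seg
  rw [card_image_of_injOn, Nat.card_Icc]
  intro a ha b hb hab
  simp only [coe_Icc, Set.mem_Icc] at ha hb
  exact h.inj a b (by omega) (by omega) hab

theorem IPath.disj_seg {x : ℕ → V} {m : ℕ} (h : IPath H x m) {i j i' j' : ℕ} (hj' : j' < m)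
    (hlt : j < i') : Disjoint (seg x i j) (seg x i' j') := by
  rw [disjoint_left]
  intro v hv hv'
  obtain ⟨k', h1', h2', rfl⟩ := mem_seg_iff.1 hv'
  obtain ⟨k, h1, h2, h3⟩ := mem_seg_iff.1 hv
  have := h.inj k k' (by omega) (by omega) h3
  omega

theorem IPath.hp_seg {x : ℕ → V} {m : ℕ} (h : IPath H x m) {i j : ℕ} (hij : i ≤ j) (hj : j < m) :
    HP H (x i) (x j) (seg x i j) := by
  induction j, hij using Nat.le_induction with
  | base => simpa [seg] using HP.single (x i)
  | succ j hij ih =>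
    have := (ih (by omega)).snoc (h.adj j hj) (by rw [h.mem_seg (by omega) hj]; omega)
    refine this.congr rfl rfl ?_
    unfold seg
    rw [← image_insert]
    congr 1
    ext k
    simp only [mem_insert, mem_Icc]
    omega

theorem HP.exists_ipath {a b : V} {s : Finset V} (h : HP H a b s) :
    ∃ x : ℕ → V, IPath H x s.card ∧ x 0 = a ∧ x (s.card - 1) = b ∧ seg x 0 (s.card - 1) = s := by
  induction h with
  | single a => exact ⟨fun _ => a, ⟨by simp, by simp⟩, rfl, rfl, by simp [seg]⟩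
  | @cons a b c s h1 h2 h3 ih =>
    obtain ⟨x, hx, hx0, hx1, hs⟩ := ih
    have hpos : 0 < s.card := card_pos.2 ⟨_, h3.left_mem⟩
    have hmem : ∀ k, k < s.card → x k ∈ s := fun k hk => hs ▸ mem_seg_self (by omega) (by omega)
    rw [card_insert_of_notMem h2]
    refine ⟨fun k => Nat.casesOn k a x, ⟨?_, ?_⟩, rfl, ?_, ?_⟩
    · intro i j hi hj hij
      rcases i with _ | i <;> rcases j with _ | j
      · rfl
      · exact absurd (hmem j (by omega)) (by simp only at hij; rw [← hij]; exact h2)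
      · exact absurd (hmem i (by omega)) (by simp only at hij; rw [hij]; exact h2)
      · have := hx.inj i j (by omega) (by omega) hij
        omega
    · intro i hi
      rcases i with _ | i
      · simpa [hx0] using h1
      · exact hx.adj i (by omega)
    · obtain ⟨k, hk⟩ : ∃ k, s.card = k + 1 := ⟨s.card - 1, by omega⟩
      rw [hk] at hx1 ⊢
      simpa using hx1
    · ext v
      rw [mem_insert, mem_seg_iff]
      constructor
      · rintro ⟨k, -, h5, rfl⟩
        rcases k with _ | k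
        · exact Or.inl rfl
        · exact Or.inr (hmem k (by omega))
      · rintro (rfl | hv)
        · exact ⟨0, le_rfl, by omega, rfl⟩
        · rw [← hs] at hv
          obtain ⟨k, -, h5, rfl⟩ := mem_seg_iff.1 hv
          exact ⟨k + 1, by omega, by omega, rfl⟩

omit [DecidableEq V] in
theorem IPath.rev {x : ℕ → V} {m : ℕ} (h : IPath H x m) : IPath H (fun k => x (m - 1 - k)) m := by
  refine ⟨fun i j hi hj hij => ?_, fun i hi => ?_⟩
  · have := h.inj _ _ (by omega) (by omega) hij
    omega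
  · have := h.adj (m - 1 - (i + 1)) (by omega)
    rw [show m - 1 - (i + 1) + 1 = m - 1 - i by omega] at this
    exact this.symm

theorem seg_rev (x : ℕ → V) (m i j : ℕ) (hj : j < m) :
    seg (fun k => x (m - 1 - k)) i j = seg x (m - 1 - j) (m - 1 - i) ∨ j < i := by
  by_cases hij : j < i
  · exact Or.inr hij
  · left
    ext v
    simp only [mem_seg_iff]
    constructor
    · rintro ⟨k, h1, h2, rfl⟩
      exact ⟨m - 1 - k, by omega, by omega, rfl⟩
    · rintro ⟨k, h1, h2, rfl⟩
      exact ⟨m - 1 - k, by omega, by omega, by congr 1; omega⟩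

end Pool.Agent.Work.MP_df328f_co
end

-- merged part: Pool.Agent.Work.MP_df328f_co.Long
section
/-! Degree conditions at the ends of a long path in a graph without long cycles. -/

namespace Pool.Agent.Work.MP_df328f_co

open Finset

variable {V : Type} [DecidableEq V]

open Classical in
/-- The neighbours of `v` in `F`. -/
noncomputable def nb (H : SimpleGraph V) (F : Finset V) (v : V) : Finset V := F.filter (H.Adj v)

/-- The number of neighbours of `v` in `F`. -/
noncomputable def dg (H : SimpleGraph V) (F : Finset V) (v : V) : ℕ := (nb H F v).card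

variable {H : SimpleGraph V}

omit [DecidableEq V] in
@[simp] theorem mem_nb {F : Finset V} {v y : V} : y ∈ nb H F v ↔ y ∈ F ∧ H.Adj v y := by
  simp [nb]

omit [DecidableEq V] in
theorem dg_mono {F F' : Finset V} (h : F ⊆ F') (v : V) : dg H F v ≤ dg H F' v :=
  card_le_card fun y hy => by
    rw [mem_nb] at hy ⊢
    exact ⟨h hy.1, hy.2⟩

omit [DecidableEq V] in
theorem dg_le_of {H' : SimpleGraph V} {F F' : Finset V} {v v' : V}
    (h : ∀ y ∈ F, H.Adj v y → y ∈ F' ∧ H'.Adj v' y) : dg H F v ≤ dg H' F' v' :=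
  card_le_card fun y hy => by
    rw [mem_nb] at hy ⊢
    exact h y hy.1 hy.2

omit [DecidableEq V] in
theorem dg_le_card {F T : Finset V} {v : V} (h : ∀ y ∈ F, H.Adj v y → y ∈ T) : dg H F v ≤ T.card :=
  card_le_card fun y hy => by
    rw [mem_nb] at hy
    exact h y hy.1 hy.2

omit [DecidableEq V] in
theorem card_le_dg {F T : Finset V} {v : V} (h : ∀ y ∈ T, y ∈ F ∧ H.Adj v y) : T.card ≤ dg H F v :=
  card_le_card fun y hy => by
    rw [mem_nb]
    exact h y hy

theorem dg_split [Fintype V] (s : Finset V) (v : V) : dg H univ v = dg H s v + dg H sᶜ v := by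
  unfold dg
  rw [← card_union_of_disjoint]
  · congr 1
    ext y
    simp only [mem_nb, mem_univ, true_and, mem_union, mem_compl]
    tauto
  · rw [disjoint_left]
    intro y hy hy'
    rw [mem_nb] at hy hy'
    exact mem_compl.1 hy'.1 hy.1

variable {l m : ℕ} {x : ℕ → V}

open Classical in
theorem IPath.dg_left (h : IPath H x m) (hm : 0 < m) :
    dg H (seg x 0 (m - 1)) (x 0) = ((range (m - 1)).filter fun k => H.Adj (x 0) (x (k + 1))).card := by
  unfold dg
  symm
  refine card_bij (fun k _ => x (k + 1)) ?_ ?_ ?_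
  · intro k hk
    simp only [mem_filter, mem_range] at hk
    exact mem_nb.2 ⟨mem_seg_self (by omega) (by omega), hk.2⟩
  · intro a ha b hb hab
    simp only [mem_filter, mem_range] at ha hb
    have := h.inj _ _ (by omega) (by omega) hab
    omega
  · intro y hy
    obtain ⟨hy1, hy2⟩ := mem_nb.1 hy
    obtain ⟨k, -, hk, rfl⟩ := mem_seg_iff.1 hy1
    rcases k with _ | k
    · exact absurd hy2 (H.irrefl)
    · exact ⟨k, by simp only [mem_filter, mem_range]; exact ⟨by omega, hy2⟩, rfl⟩

open Classical in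
theorem IPath.dg_right (h : IPath H x m) (hm : 0 < m) :
    dg H (seg x 0 (m - 1)) (x (m - 1)) =
      ((range (m - 1)).filter fun k => H.Adj (x (m - 1)) (x k)).card := by
  unfold dg
  symm
  refine card_bij (fun k _ => x k) ?_ ?_ ?_
  · intro k hk
    simp only [mem_filter, mem_range] at hk
    exact mem_nb.2 ⟨mem_seg_self (by omega) (by omega), hk.2⟩
  · intro a ha b hb hab
    simp only [mem_filter, mem_range] at ha hb
    exact h.inj _ _ (by omega) (by omega) hab
  · intro y hy
    obtain ⟨hy1, hy2⟩ := mem_nb.1 hy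
    obtain ⟨k, -, hk, rfl⟩ := mem_seg_iff.1 hy1
    have : k ≠ m - 1 := by
      rintro rfl
      exact absurd hy2 (H.irrefl)
    exact ⟨k, by simp only [mem_filter, mem_range]; exact ⟨by omega, hy2⟩, rfl⟩

/-- The cycle given by two crossing chords at the ends of a path. -/
theorem IPath.hp_cross (h : IPath H x m) {i j : ℕ} (hij : i < j) (hj : j < m)
    (hv : H.Adj (x (m - 1)) (x i)) :
    HP H (x 0) (x j) (seg x 0 i ∪ seg x j (m - 1)) ∧
      (seg x 0 i ∪ seg x j (m - 1)).card = i + 1 + (m - j) := by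
  have hd := h.disj_seg (i := 0) (j := i) (i' := j) (j' := m - 1) (by omega) hij
  refine ⟨(h.hp_seg (Nat.zero_le i) (by omega)).append
    (h.hp_seg (i := j) (j := m - 1) (by omega) (by omega)).symm hv.symm hd, ?_⟩
  rw [card_union_of_disjoint hd, h.card_seg (by omega), h.card_seg (by omega)]
  omega

theorem IPath.cyc_cross (hN : NoLong H l) (h : IPath H x m) {i j : ℕ} (hij : i < j) (hj : j < m)
    (hv : H.Adj (x (m - 1)) (x i)) (hu : H.Adj (x 0) (x j)) : i + 1 + (m - j) < l := by
  obtain ⟨h1, h2⟩ := h.hp_cross hij hj hv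
  rw [← h2]
  exact hN _ _ _ h1 hu.symm

open Classical in
theorem IPath.disj_ends (hN : NoLong H l) (h : IPath H x m) (hl : l ≤ m) :
    Disjoint ((range (m - 1)).filter fun k => H.Adj (x 0) (x (k + 1)))
      ((range (m - 1)).filter fun k => H.Adj (x (m - 1)) (x k)) := by
  rw [disjoint_left]
  intro k hk hk'
  simp only [mem_filter, mem_range] at hk hk'
  have := h.cyc_cross hN (Nat.lt_succ_self k) (by omega) hk'.2 hk.2
  omega

theorem IPath.ore_on (hN : NoLong H l) (h : IPath H x m) (hl : l ≤ m) (hm : 0 < m) :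
    dg H (seg x 0 (m - 1)) (x 0) + dg H (seg x 0 (m - 1)) (x (m - 1)) + 1 ≤ m ∧
    (dg H (seg x 0 (m - 1)) (x 0) + dg H (seg x 0 (m - 1)) (x (m - 1)) + 1 = m →
      ∀ k, k + 1 < m → H.Adj (x (m - 1)) (x k) ∨ H.Adj (x 0) (x (k + 1))) := by
  classical
  rw [h.dg_left hm, h.dg_right hm, ← card_union_of_disjoint (h.disj_ends hN hl)]
  have hsub : ((range (m - 1)).filter fun k => H.Adj (x 0) (x (k + 1))) ∪
      ((range (m - 1)).filter fun k => H.Adj (x (m - 1)) (x k)) ⊆ range (m - 1) :=
    union_subset (filter_subset _ _) (filter_subset _ _)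
  have h1 := card_le_card hsub
  rw [card_range] at h1
  refine ⟨by omega, fun heq k hk => ?_⟩
  have h2 := eq_of_subset_of_card_le hsub (by rw [card_range]; omega)
  have h3 : k ∈ range (m - 1) := mem_range.2 (by omega)
  rw [← h2] at h3
  simp only [mem_union, mem_filter] at h3
  tauto

theorem HP.not_both (hN : NoLong H l) {u v y : V} {s : Finset V} (h : HP H u v s) (hl : l ≤ s.card)
    (hy : y ∉ s) (hu : H.Adj u y) (hv : H.Adj v y) : False := by
  have := hN _ _ _ (h.snoc hv hy) hu.symm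
  rw [card_insert_of_notMem hy] at this
  omega

theorem HP.ore_off [Fintype V] (hN : NoLong H l) {u v : V} {s : Finset V} (h : HP H u v s)
    (hl : l ≤ s.card) :
    dg H sᶜ u + dg H sᶜ v ≤ sᶜ.card ∧
    (dg H sᶜ u + dg H sᶜ v = sᶜ.card → ∀ y, y ∉ s → H.Adj u y ∨ H.Adj v y) := by
  have hd : Disjoint (nb H sᶜ u) (nb H sᶜ v) := by
    rw [disjoint_left]
    intro y hy hy'
    rw [mem_nb] at hy hy'
    exact h.not_both hN hl (mem_compl.1 hy.1) hy.2 hy'.2
  have hsub : nb H sᶜ u ∪ nb H sᶜ v ⊆ sᶜ := by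
    intro y hy
    simp only [mem_union, mem_nb] at hy
    tauto
  unfold dg
  rw [← card_union_of_disjoint hd]
  refine ⟨card_le_card hsub, fun heq y hy => ?_⟩
  have h2 := eq_of_subset_of_card_le hsub heq.ge
  have h3 : y ∈ sᶜ := mem_compl.2 hy
  rw [← h2] at h3
  simp only [mem_union, mem_nb] at h3
  tauto

/-- Ore's inequality for the ends of a long path. -/
theorem HP.ore [Fintype V] (hN : NoLong H l) {u v : V} {s : Finset V} (h : HP H u v s)
    (hl : l ≤ s.card) :
    dg H univ u + dg H univ v + 1 ≤ Fintype.card V ∧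
    (dg H univ u + dg H univ v + 1 = Fintype.card V → ∀ y, y ∉ s → H.Adj u y ∨ H.Adj v y) := by
  obtain ⟨x, hx, hx0, hx1, hs⟩ := h.exists_ipath
  have hpos : 0 < s.card := card_pos.2 ⟨_, h.left_mem⟩
  have h1 := (hx.ore_on hN hl hpos).1
  rw [hx0, hx1, hs] at h1
  obtain ⟨h2, h3⟩ := h.ore_off hN hl
  have h4 := card_add_card_compl s
  rw [dg_split s u, dg_split s v]
  exact ⟨by omega, fun heq => h3 (by omega)⟩

theorem IPath.ore_eq [Fintype V] (hN : NoLong H l) (h : IPath H x m) (hl : l ≤ m) (hm : 0 < m)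
    (heq : dg H univ (x 0) + dg H univ (x (m - 1)) + 1 = Fintype.card V) :
    ∀ k, k + 1 < m → H.Adj (x (m - 1)) (x k) ∨ H.Adj (x 0) (x (k + 1)) := by
  obtain ⟨h1, h1'⟩ := h.ore_on hN hl hm
  have hc : (seg x 0 (m - 1)).card = m := by rw [h.card_seg (by omega)]; omega
  have h2 := ((h.hp_seg (Nat.zero_le (m - 1)) (by omega)).ore_off hN (by omega)).1
  have h4 := card_add_card_compl (seg x 0 (m - 1))
  rw [dg_split (seg x 0 (m - 1)) (x 0), dg_split (seg x 0 (m - 1)) (x (m - 1))] at heq
  exact h1' (by omega)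

/-- Crossing chords at the two ends bound the sum of the two degrees. -/
theorem IPath.cross (hN : NoLong H l) (h : IPath H x m) (hl : l ≤ m) {i j : ℕ} (hij : i < j)
    (hj : j < m) (hv : H.Adj (x (m - 1)) (x i)) (hu : H.Adj (x 0) (x j)) :
    dg H (seg x 0 (m - 1)) (x 0) + dg H (seg x 0 (m - 1)) (x (m - 1)) < l := by
  classical
  induction hd : j - i using Nat.strong_induction_on generalizing i j with
  | _ d ih =>
    by_cases hA : ∃ k, i < k ∧ k < j ∧ H.Adj (x (m - 1)) (x k)
    · obtain ⟨k, h1, h2, h3⟩ := hA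
      exact ih (j - k) (by omega) h2 hj h3 hu rfl
    by_cases hB : ∃ k, i < k ∧ k < j ∧ H.Adj (x 0) (x k)
    · obtain ⟨k, h1, h2, h3⟩ := hB
      exact ih (k - i) (by omega) h1 (by omega) hv h3 rfl
    push Not at hA hB
    have hc := h.cyc_cross hN hij hj hv hu
    rw [h.dg_left (by omega), h.dg_right (by omega), ← card_union_of_disjoint (h.disj_ends hN hl)]
    have hsub : ((range (m - 1)).filter fun k => H.Adj (x 0) (x (k + 1))) ∪
        ((range (m - 1)).filter fun k => H.Adj (x (m - 1)) (x k)) ⊆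
        range (i + 1) ∪ Ico (j - 1) (m - 1) := by
      intro k hk
      simp only [mem_union, mem_filter, mem_range, mem_Ico] at hk ⊢
      by_contra hcon
      rcases hk with hk | hk
      · exact hB (k + 1) (by omega) (by omega) hk.2
      · exact hA k (by omega) (by omega) hk.2
    have h1 := (card_le_card hsub).trans (card_union_le _ _)
    rw [card_range, Nat.card_Ico] at h1
    omega

/-- If the two end degrees are large, all neighbours of the first end precede those of the last. -/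
theorem IPath.noncross (hN : NoLong H l) (h : IPath H x m) (hl : l ≤ m) (h2 : 2 ≤ m)
    (hd : l ≤ dg H (seg x 0 (m - 1)) (x 0) + dg H (seg x 0 (m - 1)) (x (m - 1))) :
    ∃ p q, 1 ≤ p ∧ p ≤ q ∧ q + 2 ≤ m ∧ H.Adj (x 0) (x p) ∧
      (∀ k, p < k → k < m → ¬ H.Adj (x 0) (x k)) ∧ H.Adj (x (m - 1)) (x q) ∧
      (∀ k, k < q → ¬ H.Adj (x (m - 1)) (x k)) := by
  classical
  have hq : ∃ q, H.Adj (x (m - 1)) (x q) ∧ q + 2 ≤ m := by
    refine ⟨m - 2, ?_, by omega⟩
    have := h.adj (m - 2) (by omega)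
    rw [show m - 2 + 1 = m - 1 by omega] at this
    exact this.symm
  have h1 : H.Adj (x 0) (x 1) := h.adj 0 (by omega)
  have hp1 : 1 ≤ Nat.findGreatest (fun k => H.Adj (x 0) (x k)) (m - 1) :=
    Nat.le_findGreatest (P := fun k => H.Adj (x 0) (x k)) (by omega) h1
  have hp2 : H.Adj (x 0) (x (Nat.findGreatest (fun k => H.Adj (x 0) (x k)) (m - 1))) :=
    Nat.findGreatest_spec (P := fun k => H.Adj (x 0) (x k)) (m := 1) (by omega) h1
  have hp3 := Nat.findGreatest_le (P := fun k => H.Adj (x 0) (x k)) (m - 1)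
  have hq1 := Nat.find_spec hq
  refine ⟨_, Nat.find hq, hp1, ?_, hq1.2, hp2, ?_, hq1.1, ?_⟩
  · by_contra hcon
    have := h.cross hN hl (not_le.1 hcon) (by omega) hq1.1 hp2
    omega
  · intro k hk1 hk2
    exact Nat.findGreatest_is_greatest (P := fun k => H.Adj (x 0) (x k)) hk1 (by omega)
  · intro k hk hadj
    exact Nat.find_min hq hk ⟨hadj, by omega⟩

/-- A path from `x a` to `x p` inside the initial segment through all neighbours of `x 0`. -/
theorem IPath.cover (h : IPath H x m) {a p : ℕ} (hap : a < p) (hp : p < m)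
    (hadj : H.Adj (x 0) (x p)) (hmax : ∀ k, p < k → k < m → ¬ H.Adj (x 0) (x k)) :
    ∃ R, R ⊆ seg x 0 p ∧ HP H (x a) (x p) R ∧ dg H (seg x 0 (m - 1)) (x 0) + 1 ≤ R.card := by
  classical
  have hj : ∃ j, a < j ∧ H.Adj (x 0) (x j) := ⟨p, hap, hadj⟩
  have hj1 := Nat.find_spec hj
  have hj2 : Nat.find hj ≤ p := Nat.find_min' hj ⟨hap, hadj⟩
  refine ⟨seg x 0 a ∪ seg x (Nat.find hj) p, ?_, ?_, ?_⟩
  · intro v hv
    rcases mem_union.1 hv with hv | hv <;> obtain ⟨k, h1, h2, rfl⟩ := mem_seg_iff.1 hv <;>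
      exact mem_seg_self (by omega) (by omega)
  · exact (h.hp_seg (Nat.zero_le a) (by omega)).symm.append (h.hp_seg hj2 hp) hj1.2
      (h.disj_seg hp hj1.1)
  · unfold dg
    rw [← card_insert_of_notMem (a := x 0) (by simp)]
    refine card_le_card fun v hv => ?_
    rcases mem_insert.1 hv with rfl | hv
    · exact mem_union_left _ (mem_seg_self le_rfl (Nat.zero_le _))
    · obtain ⟨hv1, hv2⟩ := mem_nb.1 hv
      obtain ⟨k, -, hk, rfl⟩ := mem_seg_iff.1 hv1
      by_cases hka : k ≤ a
      · exact mem_union_left _ (mem_seg_self (Nat.zero_le _) hka)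
      · refine mem_union_right _ (mem_seg_self (Nat.find_min' hj ⟨by omega, hv2⟩) ?_)
        by_contra hcon
        exact hmax k (by omega) (by omega) hv2

/-- Large degrees at both ends give a large complete bipartite graph in the complement. -/
theorem IPath.bip_of_degrees (hN : NoLong H l) (h : IPath H x m) (hl : l ≤ m) (h2 : 2 ≤ m)
    (hd : l ≤ dg H (seg x 0 (m - 1)) (x 0) + dg H (seg x 0 (m - 1)) (x (m - 1))) :
    ∃ X Y : Finset V, Disjoint X Y ∧ (∀ a ∈ X, ∀ b ∈ Y, ¬ H.Adj a b) ∧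
      dg H (seg x 0 (m - 1)) (x 0) ≤ X.card ∧ dg H (seg x 0 (m - 1)) (x (m - 1)) ≤ Y.card := by
  obtain ⟨p, q, hp1, hpq, hq, hu, hmax, hv, hmin⟩ := h.noncross hN hl h2 hd
  refine ⟨seg x 0 (p - 1), seg x (q + 1) (m - 1), h.disj_seg (by omega) (by omega), ?_, ?_, ?_⟩
  · intro a ha b hb hab
    obtain ⟨a, -, ha, rfl⟩ := mem_seg_iff.1 ha
    obtain ⟨b, hb1, hb2, rfl⟩ := mem_seg_iff.1 hb
    obtain ⟨R, hR, pR, cR⟩ := h.cover (a := a) (by omega) (by omega) hu hmax
    obtain ⟨R', hR', pR', cR'⟩ := h.rev.cover (a := m - 1 - b) (p := m - 1 - q) (by omega) (by omega)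
      (by simpa [show m - 1 - (m - 1 - q) = q by omega] using hv)
      (fun k hk1 hk2 => by simpa using hmin (m - 1 - k) (by omega))
    rcases seg_rev x m 0 (m - 1 - q) (by omega) with e1 | e1
    swap
    · omega
    rcases seg_rev x m 0 (m - 1) (by omega) with e2 | e2
    swap
    · omega
    rw [e1, show m - 1 - (m - 1 - q) = q by omega, Nat.sub_zero] at hR'
    rw [e2, Nat.sub_self, Nat.sub_zero] at cR'
    simp only [show m - 1 - (m - 1 - q) = q by omega, show m - 1 - (m - 1 - b) = b by omega] at pR'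
    have P1 := pR.glue (h.hp_seg hpq (by omega)) (by
      intro v hv1 hv2
      obtain ⟨k, h3, h4, rfl⟩ := mem_seg_iff.1 hv2
      have := (h.mem_seg (by omega) (by omega)).1 (hR hv1)
      congr 1
      omega)
    have P2 := P1.glue pR'.symm (by
      intro v hv1 hv2
      obtain ⟨k, h3, h4, rfl⟩ := mem_seg_iff.1 (hR' hv2)
      rcases mem_union.1 hv1 with hv1 | hv1
      · have := (h.mem_seg (by omega) (by omega)).1 (hR hv1)
        congr 1
        omega
      · have := (h.mem_seg (by omega) (by omega)).1 hv1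
        congr 1
        omega)
    have h3 := hN _ _ _ P2 hab.symm
    have h4 : (R ∪ R').card ≤ (R ∪ seg x p q ∪ R').card :=
      card_le_card (union_subset_union subset_union_left subset_rfl)
    have h5 := card_union_add_card_inter R R'
    have h6 : (R ∩ R').card ≤ 1 := by
      rw [← card_singleton (x p)]
      refine card_le_card fun v hv => ?_
      rw [mem_inter] at hv
      obtain ⟨k, h7, h8, rfl⟩ := mem_seg_iff.1 (hR' hv.2)
      have := (h.mem_seg (by omega) (by omega)).1 (hR hv.1)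
      rw [mem_singleton]
      congr 1
      omega
    omega
  · rw [h.card_seg (by omega)]
    refine (dg_le_card (T := seg x 1 p) ?_).trans (by rw [h.card_seg (by omega)]; omega)
    intro y hy hadj
    obtain ⟨k, -, hk, rfl⟩ := mem_seg_iff.1 hy
    refine mem_seg_self ?_ ?_
    · rcases k with _ | k
      · exact absurd hadj H.irrefl
      · omega
    · by_contra hcon
      exact hmax k (by omega) (by omega) hadj
  · rw [h.card_seg (by omega)]
    refine (dg_le_card (T := seg x q (m - 2)) ?_).trans (by rw [h.card_seg (by omega)]; omega)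
    intro y hy hadj
    obtain ⟨k, -, hk, rfl⟩ := mem_seg_iff.1 hy
    refine mem_seg_self ?_ ?_
    · by_contra hcon
      exact hmin k (by omega) hadj
    · have : k ≠ m - 1 := by
        rintro rfl
        exact absurd hadj H.irrefl
      omega

end Pool.Agent.Work.MP_df328f_co
end

-- merged part: Pool.Agent.Work.MP_df328f_co.Struct
section
/-! The structure of a saturated graph without long cycles. -/

namespace Pool.Agent.Work.MP_df328f_co

open Finset

variable {V : Type} [DecidableEq V] {H : SimpleGraph V} {l m : ℕ} {x : ℕ → V}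

/-- Any two non-adjacent vertices are the ends of a long path. -/
def Sat (H : SimpleGraph V) (l : ℕ) : Prop :=
  ∀ u v, u ≠ v → ¬ H.Adj u v → ∃ s, HP H u v s ∧ l ≤ s.card

/-- The complement contains no large complete bipartite graph. -/
def NoBip (H : SimpleGraph V) (l : ℕ) : Prop :=
  ∀ X Y : Finset V, Disjoint X Y → (∀ a ∈ X, ∀ b ∈ Y, ¬ H.Adj a b) → l ≤ 2 * X.card →
    l ≤ 2 * Y.card → False

def Clq (H : SimpleGraph V) (Q : Finset V) : Prop := ∀ x ∈ Q, ∀ y ∈ Q, x ≠ y → H.Adj x y

theorem HP.down {u v a b : V} {s : Finset V} (h : HP (H ⊔ SimpleGraph.edge u v) a b s)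
    (hu : u ∉ s) : HP H a b s := by
  induction h with
  | single a => exact HP.single a
  | @cons a b c s h1 h2 h3 ih =>
    rw [mem_insert, not_or] at hu
    refine HP.cons ?_ h2 (ih hu.2)
    rcases h1 with h1 | h1
    · exact h1
    · rw [SimpleGraph.edge_adj] at h1
      rcases h1.1 with ⟨rfl, -⟩ | ⟨-, rfl⟩
      · exact absurd rfl hu.1
      · exact absurd h3.left_mem hu.2

theorem exists_sat [Fintype V] (hN : NoLong H l) (hl : 3 ≤ l) :
    ∃ H', H ≤ H' ∧ NoLong H' l ∧ Sat H' l := by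
  classical
  obtain ⟨H', hH', hmax⟩ := Finite.exists_le_maximal (p := fun G : SimpleGraph V => NoLong G l) hN
  refine ⟨H', hH', hmax.prop, fun u v huv hadj => ?_⟩
  have hnot : ¬ NoLong (H' ⊔ SimpleGraph.edge u v) l := by
    intro h
    have := hmax.le_of_ge h le_sup_left
    exact hadj (this (Or.inr (by rw [SimpleGraph.edge_adj]; exact ⟨Or.inl ⟨rfl, rfl⟩, huv⟩)))
  unfold NoLong at hnot
  push Not at hnot
  obtain ⟨a, b, s, hP, hba, hs⟩ := hnot
  have key : ∀ y, (H' ⊔ SimpleGraph.edge u v).Adj u y → y ≠ v → H'.Adj u y := by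
    intro y hy hyv
    rcases hy with hy | hy
    · exact hy
    · rw [SimpleGraph.edge_adj] at hy
      rcases hy.1 with ⟨-, rfl⟩ | ⟨rfl, -⟩
      · exact absurd rfl hyv
      · exact absurd rfl huv
  by_cases hu : u ∈ s
  · obtain ⟨w, hw, hwu⟩ := hP.rotate hba hu
    obtain ⟨y, hy, hP'⟩ := hw.uncons hwu.ne.symm
    have hP2 := hP'.down (notMem_erase u s)
    have hc : (s.erase u).card + 1 = s.card := card_erase_add_one hu
    by_cases hyv : y = v
    · have hwv : w ≠ v := hyv ▸ (hP2.ne_of_card (by omega)).symm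
      have := hP2.snoc (key w hwu.symm hwv).symm (notMem_erase u s)
      rw [insert_erase hu, hyv] at this
      exact ⟨s, this.symm, hs⟩
    · have h1 := HP.cons (key y hy hyv) (notMem_erase u s) hP2
      rw [insert_erase hu] at h1
      by_cases hwv : w = v
      · exact ⟨s, hwv ▸ h1, hs⟩
      · have := hmax.prop _ _ _ h1 (key w hwu.symm hwv).symm
        omega
  · have hP2 := hP.down hu
    have hba' : H'.Adj b a := by
      rcases hba with h1 | h1
      · exact h1
      · rw [SimpleGraph.edge_adj] at h1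
        rcases h1.1 with ⟨rfl, -⟩ | ⟨-, rfl⟩
        · exact absurd hP.right_mem hu
        · exact absurd hP.left_mem hu
    have := hmax.prop _ _ _ hP2 hba'
    omega

theorem hasCyc_bip (X Y : Finset V) (hd : Disjoint X Y) (hXY : ∀ x ∈ X, ∀ y ∈ Y, H.Adj x y) {k : ℕ}
    (hk : 1 ≤ k) (hX : k ≤ X.card) (hY : k ≤ Y.card) : HasCyc H (2 * k) := by
  obtain ⟨X', hX', cX⟩ := exists_subset_card_eq hX
  obtain ⟨Y', hY', cY⟩ := exists_subset_card_eq hY
  obtain ⟨a, ha⟩ : X'.Nonempty := card_pos.1 (by omega)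
  obtain ⟨b, hb⟩ : Y'.Nonempty := card_pos.1 (by omega)
  have hd' : Disjoint X' Y' := hd.mono hX' hY'
  refine ⟨a, b, X' ∪ Y', HP.of_bip X' Y' hd' (fun x hx y hy => hXY x (hX' hx) y (hY' hy))
    (by omega) ha hb, (hXY a (hX' ha) b (hY' hb)).symm, ?_⟩
  rw [card_union_of_disjoint hd']
  omega

theorem NoLong.lt_of_hasCyc (hN : NoLong H l) {r : ℕ} (h : HasCyc H r) : r < l := by
  obtain ⟨a, b, s, h1, h2, rfl⟩ := h
  exact hN a b s h1 h2

theorem noBip_of {H2 : SimpleGraph V} (hc : ∀ u v, u ≠ v → ¬ H.Adj u v → H2.Adj u v)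
    (hN : NoLong H2 l) (hl : 1 ≤ l) : NoBip H l := by
  intro X Y hd hXY hX hY
  have := hN.lt_of_hasCyc (hasCyc_bip X Y hd (fun a ha b hb => hc a b
    (fun h => disjoint_left.1 hd ha (h ▸ hb)) (hXY a ha b hb)) (k := min X.card Y.card)
    (by omega) (min_le_left _ _) (min_le_right _ _))
  omega

theorem IPath.exit (h : IPath H x m) (S Y : Finset V) (hSY : S ⊆ Y)
    (hT : ∀ z, z ≠ x 0 → ∃ s ∈ S, ∃ Q, HP H (x 0) s Q ∧ z ∉ Q) {p : ℕ} (hp1 : 1 ≤ p) (hp : p < m) :
    ∃ a < p, ∃ b ∈ Y, ∃ T, HP H (x a) b T ∧ x p ∉ T ∧ (∀ v ∈ T, v ∈ seg x 0 p → v = x a) ∧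
      ∀ v ∈ T, v ∈ Y → v = b := by
  obtain ⟨s, hs, Q, hQ, hz⟩ := hT (x p) (fun e => by have := h.inj _ _ hp (by omega) e; omega)
  obtain ⟨a', ha', b, hb, T, hTQ, pT, h1, h2⟩ := hQ.trim (seg x 0 (p - 1)) Y
    (mem_seg_self le_rfl (Nat.zero_le _)) (hSY hs)
  obtain ⟨a, -, ha, rfl⟩ := mem_seg_iff.1 ha'
  refine ⟨a, by omega, b, hb, T, pT, fun e => hz (hTQ e), fun v hv hv' => h1 v hv ?_, h2⟩
  obtain ⟨k, -, hk, rfl⟩ := mem_seg_iff.1 hv'
  have : k ≠ p := by
    rintro rfl
    exact hz (hTQ hv)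
  exact mem_seg_self (Nat.zero_le _) (by omega)

/-- Two disjoint paths from an initial segment to `S`, one of them from its last vertex. -/
theorem IPath.two_paths (h : IPath H x m) (S : Finset V) {q : ℕ} (hq : q < m) (hqS : x q ∈ S)
    (hT : ∀ z, z ≠ x 0 → ∃ s ∈ S, ∃ Q, HP H (x 0) s Q ∧ z ∉ Q) {p : ℕ} (hp1 : 1 ≤ p) (hpq : p ≤ q) :
    ∃ a < p, ∃ s1 ∈ S, ∃ s2 ∈ S, ∃ Q1 Q2, HP H (x p) s1 Q1 ∧ HP H (x a) s2 Q2 ∧ Disjoint Q1 Q2 ∧
      (∀ v ∈ Q1, v ∈ seg x 0 p → v = x p) ∧ ∀ v ∈ Q2, v ∈ seg x 0 p → v = x a := by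
  induction hd : q - p generalizing p with
  | zero =>
    have : p = q := by omega
    subst this
    obtain ⟨a, ha, b, hb, T, pT, h1, h2, -⟩ := h.exit S S subset_rfl hT hp1 hq
    exact ⟨a, ha, x p, hqS, b, hb, {x p}, T, HP.single _, pT, by simpa using h1, by simp, h2⟩
  | succ d ih =>
    obtain ⟨a', ha', s1, hs1, s2, hs2, Q1, Q2, p1, p2, hdis, c1, c2⟩ :=
      ih (p := p + 1) (by omega) (by omega) (by omega)
    have hsub : ∀ v, v ∈ seg x 0 p → v ∈ seg x 0 (p + 1) := by
      intro v hv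
      obtain ⟨k, -, hk, rfl⟩ := mem_seg_iff.1 hv
      exact mem_seg_self (Nat.zero_le _) (by omega)
    have hQ1 : ∀ v ∈ Q1, v ∉ seg x 0 p := by
      intro v hv hv'
      have := c1 v hv (hsub v hv')
      rw [this, h.mem_seg (by omega) (by omega)] at hv'
      omega
    have hpp : x p ∈ seg x 0 p := mem_seg_self (Nat.zero_le _) le_rfl
    have hp1' : HP H (x p) s1 (insert (x p) Q1) :=
      HP.cons (h.adj p (by omega)) (fun e => hQ1 _ e hpp) p1
    have c1' : ∀ v ∈ insert (x p) Q1, v ∈ seg x 0 p → v = x p := by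
      intro v hv hv'
      rcases mem_insert.1 hv with rfl | hv
      · rfl
      · exact absurd hv' (hQ1 v hv)
    by_cases hap : a' < p
    · refine ⟨a', hap, s1, hs1, s2, hs2, insert (x p) Q1, Q2, hp1', p2, ?_, c1',
        fun v hv hv' => c2 v hv (hsub v hv')⟩
      rw [disjoint_insert_left]
      refine ⟨fun e => ?_, hdis⟩
      have := h.inj _ _ (by omega) (by omega) (c2 _ e (hsub _ hpp))
      omega
    have hap' : a' = p := by omega
    subst hap'
    obtain ⟨a, ha, b, hb, T, pT, t1, t2, t3⟩ := h.exit S (Q1 ∪ Q2 ∪ S) subset_union_right hT hp1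
      (by omega)
    have t4 : ∀ v ∈ T, v ∈ Q1 → v = b := fun v hv hv' =>
      t3 v hv (mem_union_left _ (mem_union_left _ hv'))
    have t5 : ∀ v ∈ T, v ∈ Q2 → v = b := fun v hv hv' =>
      t3 v hv (mem_union_left _ (mem_union_right _ hv'))
    by_cases hb1 : b ∈ Q1
    · obtain ⟨u1, u2, -, pu, hu, -⟩ := p1.split hb1
      have hu2 : u2 ⊆ Q1 := hu ▸ subset_union_right
      refine ⟨a, ha, s2, hs2, s1, hs1, Q2, T ∪ u2, p2, pT.glue pu (fun v hv hv' => t4 v hv (hu2 hv')),
        ?_, fun v hv hv' => c2 v hv (hsub v hv'), ?_⟩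
      · rw [disjoint_left]
        intro v hv hv'
        rcases mem_union.1 hv' with hv' | hv'
        · exact disjoint_left.1 hdis hb1 (t5 v hv' hv ▸ hv)
        · exact disjoint_left.1 hdis (hu2 hv') hv
      · intro v hv hv'
        rcases mem_union.1 hv with hv | hv
        · exact t2 v hv hv'
        · exact absurd hv' (hQ1 v (hu2 hv))
    by_cases hb2 : b ∈ Q2
    · obtain ⟨u1, u2, pu1, pu, hu, hi⟩ := p2.split hb2
      have hu2 : u2 ⊆ Q2 := hu ▸ subset_union_right
      have hxp : x a' ∉ u2 := fun e => t1 (hi _ pu1.left_mem e ▸ pT.right_mem)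
      refine ⟨a, ha, s1, hs1, s2, hs2, insert (x a') Q1, T ∪ u2, hp1',
        pT.glue pu (fun v hv hv' => t5 v hv (hu2 hv')), ?_, c1', ?_⟩
      · rw [disjoint_insert_left]
        refine ⟨by simp [t1, hxp], ?_⟩
        rw [disjoint_left]
        intro v hv hv'
        rcases mem_union.1 hv' with hv' | hv'
        · exact hb1 (t4 v hv' hv ▸ hv)
        · exact disjoint_left.1 hdis hv (hu2 hv')
      · intro v hv hv'
        rcases mem_union.1 hv with hv | hv
        · exact t2 v hv hv'
        · exact absurd (c2 v (hu2 hv) (hsub v hv') ▸ hv) hxp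
    · have hbS : b ∈ S := by
        simp only [mem_union] at hb
        tauto
      refine ⟨a, ha, s2, hs2, b, hbS, Q2, T, p2, pT, ?_, fun v hv hv' => c2 v hv (hsub v hv'), t2⟩
      rw [disjoint_left]
      intro v hv hv'
      exact hb2 (t5 v hv' hv ▸ hv)

theorem Clq.card_le_succ {S F : Finset V} (hS : Clq H S) (hF : S ⊆ F) {v : V} (hv : v ∈ S) :
    S.card ≤ dg H F v + 1 := by
  rw [← card_erase_add_one hv]
  refine Nat.succ_le_succ (card_le_dg fun y hy => ?_)
  rw [mem_erase] at hy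
  exact ⟨hF hy.2, hS v hv y hy.2 hy.1.symm⟩

theorem IPath.clique_claim (hN : NoLong H l) (h : IPath H x m) (hl : l ≤ m) (h2 : 2 ≤ m)
    (S : Finset V) (hS : Clq H S) (hv : x (m - 1) ∈ S) (hSP : S ⊆ seg x 0 (m - 1))
    (hT : ∀ z, z ≠ x 0 → ∃ s ∈ S, ∃ Q, HP H (x 0) s Q ∧ z ∉ Q)
    (hd : l + 1 ≤ dg H (seg x 0 (m - 1)) (x 0) + S.card) : False := by
  classical
  have h1 := hS.card_le_succ hSP hv
  obtain ⟨p, q', hp1, hpq, hq, hu, hmax, -, hmin⟩ := h.noncross hN hl h2 (by omega)
  have hge : ∀ k, k < m → x k ∈ S → p ≤ k := by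
    intro k hk hkS
    by_cases hkm : k = m - 1
    · omega
    · by_contra hcon
      refine hmin k (by omega) (hS _ hv _ hkS fun e => ?_)
      have := h.inj _ _ (by omega) hk e
      omega
  obtain ⟨a, ha, s1, hs1, s2, hs2, Q1, Q2, p1, p2, hdis, c1, c2⟩ :=
    h.two_paths S (q := m - 1) (by omega) hv hT hp1 (by omega)
  obtain ⟨t1, ht1, T1, hT1, pT1, d1⟩ := p1.first S hs1
  obtain ⟨t2, ht2, T2, hT2, pT2, d2⟩ := p2.first S hs2
  have ht : t2 ≠ t1 := fun e =>
    disjoint_left.1 hdis (hT1 pT1.right_mem) (e ▸ hT2 pT2.right_mem)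
  obtain ⟨R, hR, pR, cR⟩ := h.cover ha (by omega) hu hmax
  have hRS : ∀ v ∈ R, v ∈ S → v = x p := by
    intro v hv hvS
    obtain ⟨k, -, hk, rfl⟩ := mem_seg_iff.1 (hR hv)
    have := hge k (by omega) hvS
    congr 1
    omega
  have P1 := pT2.symm.glue pR (fun v hv hv' => c2 v (hT2 hv) (hR hv'))
  have P2 := P1.glue pT1 (by
    intro v hv hv'
    rcases mem_union.1 hv with hv | hv
    · exact absurd (hT2 hv) (disjoint_left.1 hdis (hT1 hv'))
    · exact c1 v (hT1 hv') (hR hv))
  obtain ⟨c, hc1, hc2⟩ := (HP.of_clique S hS ht2 ht1 ht).uncons ht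
  have P3 := P2.glue hc2.symm (by
    intro v hv hv'
    rw [mem_erase] at hv'
    rcases mem_union.1 hv with hv | hv
    · rcases mem_union.1 hv with hv | hv
      · exact absurd (d2 v hv hv'.2) hv'.1
      · have := hRS v hv hv'.2
        exact d1 v (this ▸ pT1.left_mem) hv'.2
    · exact d1 v hv hv'.2)
  have h3 := hN _ _ _ P3 hc1.symm
  have h4 : (R ∪ S).card ≤ (T2 ∪ R ∪ T1 ∪ S.erase t2).card := by
    refine card_le_card fun v hv => ?_
    simp only [mem_union, mem_erase] at hv ⊢
    rcases hv with hv | hv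
    · (clear * - hv; tauto)
    · by_cases e : v = t2
      · exact Or.inl (Or.inl (Or.inl (e ▸ pT2.right_mem)))
      · tauto
  have h5 := card_union_add_card_inter R S
  have h6 : (R ∩ S).card ≤ 1 := by
    rw [← card_singleton (x p)]
    refine card_le_card fun v hv => ?_
    rw [mem_inter] at hv
    exact mem_singleton.2 (hRS v hv.1 hv.2)
  omega

variable [Fintype V]

/-- A vertex of degree at most `n / 2 - 1`. -/
def Heavy (H : SimpleGraph V) (v : V) : Prop := 2 * dg H univ v + 2 ≤ Fintype.card V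

/-- `H` without the edges between heavy vertices. -/
def lite (H : SimpleGraph V) : SimpleGraph V where
  Adj u v := H.Adj u v ∧ ¬ (Heavy H u ∧ Heavy H v)
  symm := ⟨fun _ _ h => ⟨h.1.symm, fun h' => h.2 h'.symm⟩⟩
  loopless := ⟨fun _ h => H.irrefl h.1⟩

omit [DecidableEq V] in
theorem dg_lite_le (F : Finset V) (v : V) : dg (lite H) F v ≤ dg H F v :=
  dg_le_of fun _ hy h => ⟨hy, h.1⟩

open Classical in
/-- The union of all vertex sets of minimum degree above `(l - 1) / 2`. -/
noncomputable def core (H : SimpleGraph V) (l : ℕ) : Finset V :=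
  univ.filter fun v => ∃ F : Finset V, v ∈ F ∧ ∀ u ∈ F, (l - 1) / 2 + 1 ≤ dg H F u

theorem subset_core {F : Finset V} (hF : ∀ u ∈ F, (l - 1) / 2 + 1 ≤ dg H F u) : F ⊆ core H l := by
  intro v hv
  simp only [core, mem_filter, mem_univ, true_and]
  exact ⟨F, hv, hF⟩

theorem core_dg {u : V} (hu : u ∈ core H l) : (l - 1) / 2 + 1 ≤ dg H (core H l) u := by
  simp only [core, mem_filter, mem_univ, true_and] at hu
  obtain ⟨F, hu, hF⟩ := hu
  exact (hF u hu).trans (dg_mono (subset_core hF) u)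

theorem core_clq (hN : NoLong H l) (hS : Sat H l) (hB : NoBip H l) (hl : 3 ≤ l) :
    Clq H (core H l) := by
  intro u hu v hv huv
  by_contra hadj
  obtain ⟨s0, p0, hs0⟩ := hS u v huv hadj
  obtain ⟨a, b, s, ⟨p, ha, hb⟩, hmax⟩ := exists_max_card
    (fun a b s => HP H a b s ∧ a ∈ core H l ∧ b ∈ core H l) ⟨u, v, s0, p0, hu, hv⟩
  have hls : l ≤ s.card := hs0.trans (hmax u v s0 ⟨p0, hu, hv⟩)
  have h1 : (l - 1) / 2 + 1 ≤ dg H s a := by
    refine (core_dg ha).trans (dg_le_of fun y hy hay => ⟨?_, hay⟩)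
    by_contra hys
    have := hmax y b _ ⟨HP.cons hay.symm hys p, hy, hb⟩
    rw [card_insert_of_notMem hys] at this
    omega
  have h2 : (l - 1) / 2 + 1 ≤ dg H s b := by
    refine (core_dg hb).trans (dg_le_of fun y hy hby => ⟨?_, hby⟩)
    by_contra hys
    have := hmax a y _ ⟨p.snoc hby hys, ha, hy⟩
    rw [card_insert_of_notMem hys] at this
    omega
  obtain ⟨x, hx, hx0, hx1, hs⟩ := p.exists_ipath
  obtain ⟨X, Y, hd, hXY, hX, hY⟩ := hx.bip_of_degrees hN hls (by omega)
    (by rw [hs, hx0, hx1]; omega)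
  rw [hs, hx0] at hX
  rw [hs, hx1] at hY
  exact hB X Y hd hXY (by omega) (by omega)

/-- A vertex cut off from a large set by a single vertex has at most one edge in `lite H`. -/
theorem dg_lite_of_cut (hB : NoBip H l) (S : Finset V) (hS : (l - 1) / 2 + 2 ≤ S.card) {v z : V}
    (hz : z ≠ v) (hcut : ∀ s ∈ S, ∀ Q, HP H v s Q → z ∈ Q) : dg (lite H) univ v ≤ 1 := by
  classical
  set D : Finset V := univ.filter fun y => ∃ Q, HP H v y Q ∧ z ∉ Q with hD
  have memD : ∀ y, y ∈ D ↔ ∃ Q, HP H v y Q ∧ z ∉ Q := by simp [hD]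
  have hvD : v ∈ D := (memD v).2 ⟨{v}, HP.single v, by simpa using hz⟩
  have hzD : z ∉ D := fun h => by
    obtain ⟨Q, pQ, hQ⟩ := (memD z).1 h
    exact hQ pQ.right_mem
  have hcl : ∀ y ∈ D, ∀ y', H.Adj y y' → y' ≠ z → y' ∈ D := by
    intro y hy y' hyy hy'
    obtain ⟨Q, pQ, hQ⟩ := (memD y).1 hy
    by_cases hy'Q : y' ∈ Q
    · obtain ⟨s1, s2, p1, -, hu, -⟩ := pQ.split hy'Q
      exact (memD y').2 ⟨s1, p1, fun h => hQ (hu ▸ mem_union_left _ h)⟩
    · exact (memD y').2 ⟨_, pQ.snoc hyy hy'Q, by simp [hQ, hy'.symm]⟩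
  set Y : Finset V := (insert z D)ᶜ with hY
  have hYc : Y.card + D.card + 1 = Fintype.card V := by
    have := card_add_card_compl (insert z D)
    rw [card_insert_of_notMem hzD, ← hY] at this
    omega
  have hYS : S.card ≤ Y.card + 1 := by
    have : S ⊆ insert z Y := by
      intro s hs
      by_cases hsz : s = z
      · simp [hsz]
      · refine mem_insert_of_mem (mem_compl.2 fun h => ?_)
        rcases mem_insert.1 h with h | h
        · exact hsz h
        · obtain ⟨Q, pQ, hQ⟩ := (memD s).1 h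
          exact hQ (hcut s hs Q pQ)
    exact (card_le_card this).trans (card_insert_le _ _)
  have hDc : D.card ≤ (l - 1) / 2 := by
    by_contra hcon
    refine hB D Y ?_ ?_ (by omega) (by omega)
    · rw [disjoint_left]
      intro y hy hy'
      exact mem_compl.1 hy' (mem_insert_of_mem hy)
    · intro a ha b hb hab
      rw [hY, mem_compl, mem_insert, not_or] at hb
      exact hb.2 (hcl a ha b hab hb.1)
  have hheavy : ∀ y ∈ D, Heavy H y := by
    intro y hy
    have : dg H univ y ≤ (insert z (D.erase y)).card := by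
      refine dg_le_card fun w _ hw => ?_
      by_cases hwz : w = z
      · simp [hwz]
      · exact mem_insert_of_mem (mem_erase.2 ⟨hw.ne.symm, hcl y hy w hw hwz⟩)
    have h2 := card_insert_le z (D.erase y)
    have h3 := card_erase_add_one hy
    unfold Heavy
    omega
  rw [← card_singleton z]
  refine dg_le_card fun w _ hw => ?_
  by_contra hwz
  exact hw.2 ⟨hheavy v hvD, hheavy w (hcl v hvD w hw.1 (by simpa using hwz))⟩

/-- The data extracted from a saturated graph. -/
structure Str (H : SimpleGraph V) (l j : ℕ) (S : Finset V) : Prop where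
  j_pos : 1 ≤ j
  j_le : 2 * j + 1 ≤ l
  card_le : S.card + j ≤ l
  dis : ∀ F, S ⊂ F → ∃ v ∈ F, v ∉ S ∧ dg (lite H) F v ≤ j
  clq : ∀ Q, Clq H Q → (l - 1) / 2 + 2 ≤ Q.card → Q ⊆ S

theorem clq_subset_core {Q : Finset V} (hQ : Clq H Q) (hc : (l - 1) / 2 + 2 ≤ Q.card) :
    Q ⊆ core H l :=
  subset_core fun u hu => by
    have := hQ.card_le_succ subset_rfl hu
    omega

theorem exists_str (hN : NoLong H l) (hS : Sat H l) (hB : NoBip H l) (hl : 3 ≤ l) :
    ∃ j S, Str H l j S := by
  by_cases hc : core H l = ∅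
  · refine ⟨(l - 1) / 2, ∅, by omega, by omega, by simp; omega, fun F hF => ?_, fun Q hQ hQc => ?_⟩
    · by_contra hcon
      push Not at hcon
      have : F ⊆ core H l := subset_core fun u hu =>
        (hcon u hu (by simp)).trans_le (dg_lite_le F u)
      rw [hc] at this
      exact hF.not_ge this
    · exact hc ▸ clq_subset_core hQ hQc
  have hclq := core_clq hN hS hB hl
  set S := core H l with hSdef
  obtain ⟨u, hu⟩ := nonempty_iff_ne_empty.2 hc
  have hcard : (l - 1) / 2 + 2 ≤ S.card := by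
    have h1 := core_dg (H := H) (l := l) hu
    have h2 : dg H S u ≤ (S.erase u).card :=
      dg_le_card fun y hy h => mem_erase.2 ⟨h.ne.symm, hy⟩
    have h3 := card_erase_add_one hu
    rw [← hSdef] at h1
    omega
  have hlt : S.card < l := by
    obtain ⟨b, hb, hbu⟩ := exists_mem_ne (s := S) (by omega) u
    exact hN _ _ _ (HP.of_clique S hclq hu hb hbu.symm) (hclq b hb u hu hbu)
  refine ⟨l - S.card, S, by omega, by omega, by omega, fun F hF => ?_,
    fun Q hQ hQc => clq_subset_core hQ hQc⟩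
  by_contra hcon
  push Not at hcon
  obtain ⟨x0, hx0F, hx0S⟩ := exists_of_ssubset hF
  obtain ⟨y0, hy0, hxy⟩ : ∃ y ∈ S, ¬ H.Adj x0 y := by
    by_contra hall
    push Not at hall
    refine hx0S (clq_subset_core (Q := insert x0 S) ?_ ?_ (mem_insert_self _ _))
    · intro a ha b hb hab
      rcases mem_insert.1 ha with ha' | ha' <;> rcases mem_insert.1 hb with hb' | hb'
      · exact absurd (ha'.trans hb'.symm) hab
      · exact ha' ▸ hall b hb'
      · exact hb' ▸ (hall a ha').symm
      · exact hclq a ha' b hb' hab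
    · rw [card_insert_of_notMem hx0S]
      omega
  obtain ⟨s0, p0, hs0⟩ := hS x0 y0 (fun e => hx0S (e ▸ hy0)) hxy
  obtain ⟨a, b, s, ⟨p, ha, hb⟩, hmax⟩ := exists_max_card
    (fun a b s => HP H a b s ∧ a ∈ F ∧ b ∈ S) ⟨x0, y0, s0, p0, hx0F, hy0⟩
  have hls : l ≤ s.card := hs0.trans (hmax x0 y0 s0 ⟨p0, hx0F, hy0⟩)
  have haS : a ∉ S := fun h => by
    have := hN _ _ _ p (hclq b hb a h (p.ne_of_card (by omega)).symm)
    omega
  have h1 : dg H F a ≤ dg H s a := by
    refine dg_le_of fun y hy hay => ⟨?_, hay⟩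
    by_contra hys
    have := hmax y b _ ⟨HP.cons hay.symm hys p, hy, hb⟩
    rw [card_insert_of_notMem hys] at this
    omega
  have h2 : S ⊆ s := by
    intro y hy
    by_contra hys
    have := hmax a y _ ⟨p.snoc (hclq b hb y hy fun e => hys (e ▸ p.right_mem)) hys, ha, hy⟩
    rw [card_insert_of_notMem hys] at this
    omega
  have h3 := hcon a ha haS
  have h4 := dg_lite_le (H := H) F a
  have h5 : dg (lite H) F a ≤ dg (lite H) univ a := dg_mono (subset_univ F) a
  obtain ⟨x, hx, hx0, hx1, hs⟩ := p.exists_ipath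
  refine hx.clique_claim hN hls (by omega) S hclq (hx1 ▸ hb) (hs.symm ▸ h2) ?_
    (by rw [hs, hx0]; omega)
  intro z hz
  rw [hx0] at hz ⊢
  by_contra hcut
  push Not at hcut
  have := dg_lite_of_cut hB S hcard hz hcut
  omega

end Pool.Agent.Work.MP_df328f_co
end

-- merged part: Pool.Agent.Work.MP_df328f_co.Single
section
/-! Consequences of the structure theorem for one graph. -/

namespace Pool.Agent.Work.MP_df328f_co

open Finset

variable {V : Type} [DecidableEq V] [Fintype V] {H : SimpleGraph V} {l j : ℕ} {S : Finset V}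

open Classical in
/-- Ordered adjacent pairs that are not inside `F`. -/
noncomputable def out (G : SimpleGraph V) (F : Finset V) : Finset (V × V) :=
  univ.filter fun p => G.Adj p.1 p.2 ∧ ¬ (p.1 ∈ F ∧ p.2 ∈ F)

theorem mem_out {G : SimpleGraph V} {F : Finset V} {p : V × V} :
    p ∈ out G F ↔ G.Adj p.1 p.2 ∧ ¬ (p.1 ∈ F ∧ p.2 ∈ F) := by
  simp [out]

theorem out_erase (G : SimpleGraph V) (F : Finset V) (v : V) :
    (out G (F.erase v)).card ≤ (out G F).card + 2 * dg G F v := by
  have : out G (F.erase v) ⊆ out G F ∪ ((nb G F v).image (fun y => (v, y)) ∪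
      (nb G F v).image (fun y => (y, v))) := by
    rintro ⟨a, b⟩ hp
    simp only [mem_out, mem_erase, mem_union, mem_image, mem_nb, Prod.mk.injEq] at hp ⊢
    by_cases hab : a ∈ F ∧ b ∈ F
    · right
      by_cases ha : a = v
      · subst ha
        exact Or.inl ⟨b, ⟨hab.2, hp.1⟩, rfl, rfl⟩
      · have hb : b = v := by tauto
        subst hb
        exact Or.inr ⟨a, ⟨hab.1, hp.1.symm⟩, rfl, rfl⟩
    · exact Or.inl ⟨hp.1, hab⟩
  have h1 := (card_le_card this).trans (card_union_le _ _)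
  have h2 := card_union_le ((nb G F v).image (fun y => (v, y))) ((nb G F v).image (fun y => (y, v)))
  have h3 : ((nb G F v).image (fun y => (v, y))).card ≤ dg G F v := card_image_le
  have h4 : ((nb G F v).image (fun y => (y, v))).card ≤ dg G F v := card_image_le
  omega

theorem out_top (F : Finset V) :
    ((out ⊤ F).card : ℤ) = (Fintype.card V : ℤ) * Fintype.card V - Fintype.card V -
      ((F.card : ℤ) * F.card - F.card) := by
  have h1 : out ⊤ F = (univ : Finset V).offDiag \ F.offDiag := by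
    ext ⟨a, b⟩
    simp only [mem_out, SimpleGraph.top_adj, mem_sdiff, mem_offDiag, mem_univ, true_and]
    tauto
  have h2 := card_sdiff_add_card_eq_card (offDiag_mono (subset_univ F))
  rw [← h1, offDiag_card, offDiag_card, card_univ] at h2
  have h3 := Nat.le_mul_self F.card
  have h4 := Nat.le_mul_self (Fintype.card V)
  zify [h3, h4] at h2
  linarith only [h2]

theorem out_top_le (G : SimpleGraph V) (F : Finset V) :
    (out ⊤ F).card ≤ (out G F).card + (out Gᶜ F).card := by
  refine le_trans (card_le_card ?_) (card_union_le _ _)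
  rintro ⟨a, b⟩ hp
  simp only [mem_out, SimpleGraph.top_adj, mem_union, SimpleGraph.compl_adj] at hp ⊢
  tauto

theorem Str.exists_set (h : Str H l j S) (r : ℕ) (hr : r + S.card ≤ Fintype.card V) :
    ∃ F, S ⊆ F ∧ F.card + r = Fintype.card V ∧ (out (lite H) F).card ≤ 2 * j * r := by
  induction r with
  | zero =>
    refine ⟨univ, subset_univ _, by simp, ?_⟩
    have : out (lite H) (univ : Finset V) = ∅ := by
      ext p
      simp [mem_out]
    simp [this]
  | succ r ih =>
    obtain ⟨F, h1, h2, h3⟩ := ih (by omega)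
    obtain ⟨v, hv, hvS, hd⟩ := h.dis F (ssubset_of_subset_of_ne h1 (by rintro rfl; omega))
    refine ⟨F.erase v, fun y hy => mem_erase.2 ⟨fun e => hvS (e ▸ hy), h1 hy⟩, ?_, ?_⟩
    · have := card_erase_add_one hv
      omega
    · have := out_erase (lite H) F v
      linarith only [h3, hd, this]

theorem adj_of_dg (hN : NoLong H l) (hS : Sat H l) {u v : V} (huv : u ≠ v)
    (hd : Fintype.card V ≤ dg H univ u + dg H univ v) : H.Adj u v := by
  by_contra hadj
  obtain ⟨s, p, hs⟩ := hS u v huv hadj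
  have := (p.ore hN hs).1
  omega

open Classical in
/-- Vertices of degree less than `n / 2`. -/
noncomputable def low (H : SimpleGraph V) : Finset V :=
  univ.filter fun v => 2 * dg H univ v + 1 ≤ Fintype.card V

open Classical in
noncomputable def hvy (H : SimpleGraph V) : Finset V := univ.filter fun v => Heavy H v

omit [DecidableEq V] in
theorem mem_low {v : V} : v ∈ low H ↔ 2 * dg H univ v + 1 ≤ Fintype.card V := by simp [low]

omit [DecidableEq V] in
theorem mem_hvy {v : V} : v ∈ hvy H ↔ 2 * dg H univ v + 2 ≤ Fintype.card V := by simp [hvy, Heavy]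

theorem clq_high (hN : NoLong H l) (hS : Sat H l) : Clq H (low H)ᶜ := by
  intro u hu v hv huv
  rw [mem_compl, mem_low] at hu hv
  exact adj_of_dg hN hS huv (by omega)

theorem adj_high (hN : NoLong H l) (hS : Sat H l) {z y : V}
    (hz : 2 * dg H univ z + 1 = Fintype.card V) (hy : y ∈ (low H)ᶜ) : H.Adj z y := by
  rw [mem_compl, mem_low] at hy
  exact adj_of_dg hN hS (by rintro rfl; omega) (by omega)

omit [DecidableEq V] in
theorem Str.clq_card (h : Str H l j S) {Q : Finset V} (hQ : Clq H Q) : Q.card + j ≤ l := by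
  have h1 := h.j_le
  have h2 := h.card_le
  by_cases hc : (l - 1) / 2 + 2 ≤ Q.card
  · have := card_le_card (h.clq Q hQ hc)
    omega
  · omega

theorem Str.low_card (h : Str H l j S) (hN : NoLong H l) (hS : Sat H l) :
    Fintype.card V + j ≤ (low H).card + l := by
  have h1 := h.clq_card (clq_high hN hS)
  have h2 := card_add_card_compl (low H)
  omega

theorem Str.hvy_or_wide (h : Str H l j S) (hN : NoLong H l) (hS : Sat H l) :
    Fintype.card V + j ≤ (hvy H).card + l ∨ Fintype.card V ≤ (low H).card + (l - 1) / 2 := by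
  have h2 := card_add_card_compl (low H)
  by_cases hc : (low H)ᶜ.card ≤ (l - 1) / 2
  · right
    omega
  left
  by_cases hE : ∃ z, 2 * dg H univ z + 1 = Fintype.card V
  · have key : ∀ z, 2 * dg H univ z + 1 = Fintype.card V → insert z (low H)ᶜ ⊆ S := by
      intro z hz
      refine h.clq _ ?_ ?_
      · intro a ha b hb hab
        rcases mem_insert.1 ha with ha' | ha' <;> rcases mem_insert.1 hb with hb' | hb'
        · exact absurd (ha'.trans hb'.symm) hab
        · exact ha' ▸ adj_high hN hS hz hb'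
        · exact hb' ▸ (adj_high hN hS hz ha').symm
        · exact clq_high hN hS a ha' b hb' hab
      · rw [card_insert_of_notMem (by rw [mem_compl, mem_low]; omega)]
        omega
    obtain ⟨z0, hz0⟩ := hE
    have hsub : (hvy H)ᶜ ⊆ S := by
      intro v hv
      rw [mem_compl, mem_hvy] at hv
      by_cases e : 2 * dg H univ v + 1 = Fintype.card V
      · exact key v e (mem_insert_self _ _)
      · exact key z0 hz0 (mem_insert_of_mem (by rw [mem_compl, mem_low]; omega))
    have h3 := card_le_card hsub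
    have h4 := card_add_card_compl (hvy H)
    have h5 := h.card_le
    omega
  · push Not at hE
    have : low H ⊆ hvy H := by
      intro v hv
      rw [mem_low] at hv
      rw [mem_hvy]
      have := hE v
      omega
    have h3 := card_le_card this
    have h4 := h.low_card hN hS
    omega

theorem Str.univ_card (h : Str H l j S) (hl : l ≤ Fintype.card V) (U : Finset V)
    (hU : ∀ u ∈ U, ∀ y, y ≠ u → H.Adj u y) : U.card ≤ j := by
  have h1 := h.j_le
  have h2 := h.card_le
  have h3 := h.j_pos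
  obtain ⟨v, -, -, hd⟩ := h.dis univ (ssubset_of_subset_of_ne (subset_univ _) (by
    rintro rfl
    rw [card_univ] at h2
    omega))
  have hdeg : ∀ u ∈ U, ¬ Heavy H u := by
    intro u hu
    have : (univ.erase u).card ≤ dg H univ u :=
      card_le_dg fun y hy => ⟨mem_univ _, hU u hu y (mem_erase.1 hy).1⟩
    have h4 := card_erase_add_one (mem_univ u)
    rw [card_univ] at h4
    unfold Heavy
    omega
  by_cases hv : v ∈ U
  · have : (univ.erase v).card ≤ dg (lite H) univ v :=
      card_le_dg fun y hy => ⟨mem_univ _, hU v hv y (mem_erase.1 hy).1, fun e => hdeg v hv e.1⟩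
    have h4 := card_erase_add_one (mem_univ v)
    rw [card_univ] at h4
    omega
  · have : U.card ≤ dg (lite H) univ v :=
      card_le_dg fun y hy => ⟨mem_univ _, (hU y hy v (by rintro rfl; exact hv hy)).symm,
        fun e => hdeg y hy e.2⟩
    omega

/-- No three pairwise non-adjacent vertices have degree exactly `(n - 1) / 2`. -/
theorem no_three (hN : NoLong H l) (hS : Sat H l) (hl : l < Fintype.card V) {u v w : V}
    (hu : 2 * dg H univ u + 1 = Fintype.card V) (hv : 2 * dg H univ v + 1 = Fintype.card V)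
    (hw : 2 * dg H univ w + 1 = Fintype.card V) (huv : u ≠ v) (huw : u ≠ w) (hvw : v ≠ w)
    (nuv : ¬ H.Adj u v) (nuw : ¬ H.Adj u w) (nvw : ¬ H.Adj v w) : False := by
  obtain ⟨s, p, hs⟩ := hS u v huv nuv
  have e1 := (p.ore hN hs).2 (by omega)
  have hws : w ∈ s := by
    by_contra hws
    exact (e1 w hws).elim nuw nvw
  obtain ⟨x, hx, hx0, hx1, hseg⟩ := p.exists_ipath
  have hpos : 0 < s.card := card_pos.2 ⟨_, hws⟩
  have e2 := hx.ore_eq hN hs hpos (by rw [hx0, hx1]; omega)
  rw [hx0, hx1] at e2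
  obtain ⟨i, -, hi, hiw⟩ := mem_seg_iff.1 (by rw [hseg]; exact hws : w ∈ seg x 0 (s.card - 1))
  have hi0 : i ≠ 0 := by
    rintro rfl
    exact huw (hx0.symm.trans hiw)
  have hi1 : i ≠ s.card - 1 := by
    rintro rfl
    exact hvw (hx1.symm.trans hiw)
  have a1 : H.Adj v (x (i - 1)) := by
    rcases e2 (i - 1) (by omega) with h | h
    · exact h
    · rw [show i - 1 + 1 = i by omega, hiw] at h
      exact absurd h nuw
  have a2 : H.Adj u (x (i + 1)) := by
    rcases e2 i (by omega) with h | h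
    · rw [hiw] at h
      exact absurd h nvw
    · exact h
  have hc := hx.cyc_cross hN (i := i - 1) (j := i + 1) (by omega) (by omega) (hx1 ▸ a1) (hx0 ▸ a2)
  obtain ⟨y, hy⟩ : ∃ y, y ∉ s := by
    by_contra hall
    push Not at hall
    have : s = univ := eq_univ_of_forall hall
    rw [this, card_univ] at hc hi hi1
    omega
  have split : ∀ k, k + 1 < s.card → seg x 0 k ∪ seg x (k + 1) (s.card - 1) = s := by
    intro k hk
    rw [← hseg]
    rw [hx.card_seg (by omega)]
    ext t
    simp only [mem_union, mem_seg_iff]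
    constructor
    · rintro (⟨k', h1, h2, rfl⟩ | ⟨k', h1, h2, rfl⟩) <;> exact ⟨k', by omega, by omega, rfl⟩
    · rintro ⟨k', h1, h2, rfl⟩
      by_cases h3 : k' ≤ k
      · exact Or.inl ⟨k', h1, h3, rfl⟩
      · exact Or.inr ⟨k', by omega, by omega, rfl⟩
  have p2 : HP H u w s := by
    have := (hx.hp_cross (i := i - 1) (j := i) (by omega) (by omega) (hx1 ▸ a1)).1
    refine this.congr hx0 hiw ?_
    have h3 := split (i - 1) (by omega)
    rwa [show i - 1 + 1 = i by omega] at h3
  have p3 : HP H w v s := by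
    have := (hx.hp_seg (Nat.zero_le i) (by omega)).symm.append
      (hx.hp_seg (i := i + 1) (j := s.card - 1) (by omega) (by omega)) (hx0 ▸ a2)
      (hx.disj_seg (by omega) (by omega))
    exact this.congr hiw hx1 (split i (by omega))
  have f1 := e1 y hy
  have f2 := (p2.ore hN hs).2 (by omega) y hy
  have f3 := (p3.ore hN hs).2 (by omega) y hy
  have g1 := p.not_both hN hs hy
  have g2 := p2.not_both hN hs hy
  have g3 := p3.not_both hN hs hy
  (clear * - f1 f2 f3 g1 g2 g3; tauto)

end Pool.Agent.Work.MP_df328f_co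
end

-- merged part: Pool.Agent.Work.MP_df328f_co.Step
section
/-! From a long cycle to a cycle that is one vertex shorter. -/

namespace Pool.Agent.Work.MP_df328f_co

open Finset

variable {V : Type} [DecidableEq V] {H : SimpleGraph V} {y : ℕ → V} {m : ℕ}

/-- A cycle of length `m`, as a periodic sequence. -/
structure ICyc (H : SimpleGraph V) (y : ℕ → V) (m : ℕ) : Prop where
  adj : ∀ k, H.Adj (y k) (y (k + 1))
  per : ∀ k, y (k + m) = y k
  ne : ∀ a b, a < b → b < a + m → y a ≠ y b

theorem HasCyc.exists_icyc (h : HasCyc H m) : ∃ y, ICyc H y m := by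
  obtain ⟨a, b, s, p, hba, rfl⟩ := h
  obtain ⟨x, hx, hx0, hx1, -⟩ := p.exists_ipath
  have hpos : 0 < s.card := card_pos.2 ⟨_, p.left_mem⟩
  generalize s.card = m at *
  refine ⟨fun k => x (k % m), fun k => ?_, fun k => by simp, fun a b hab hb e => ?_⟩
  · have h1 := Nat.mod_lt k hpos
    by_cases h2 : k % m + 1 < m
    · have : (k + 1) % m = k % m + 1 := by
        rw [Nat.add_mod, Nat.mod_eq_of_lt (a := 1) (by omega), Nat.mod_eq_of_lt h2]
      rw [this]
      exact hx.adj _ h2
    · have h3 : k % m = m - 1 := by omega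
      have : (k + 1) % m = 0 := by
        rw [← Nat.mod_add_mod, h3, show m - 1 + 1 = m by omega, Nat.mod_self]
      rw [this, h3, hx0, hx1]
      exact hba
  · have h1 := hx.inj _ _ (Nat.mod_lt a hpos) (Nat.mod_lt b hpos) e
    have h2 : m ∣ b - a := (Nat.modEq_iff_dvd' hab.le).1 h1
    have := Nat.le_of_dvd (by omega) h2
    omega

omit [DecidableEq V] in
theorem ICyc.ipath (h : ICyc H y m) (i : ℕ) : IPath H (fun k => y (i + k)) m := by
  refine ⟨fun a b ha hb e => ?_, fun k _ => h.adj (i + k)⟩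
  rcases lt_trichotomy a b with h1 | h1 | h1
  · exact absurd e (h.ne _ _ (by omega) (by omega))
  · exact h1
  · exact absurd e.symm (h.ne _ _ (by omega) (by omega))

theorem ICyc.hp (h : ICyc H y m) (i : ℕ) {r : ℕ} (hr : r < m) :
    ∃ s, HP H (y i) (y (i + r)) s ∧ s.card = r + 1 ∧ ∀ v ∈ s, ∃ k, i ≤ k ∧ k ≤ i + r ∧ y k = v := by
  refine ⟨_, (h.ipath i).hp_seg (Nat.zero_le r) hr, (h.ipath i).card_seg hr, fun v hv => ?_⟩
  obtain ⟨k, -, hk, rfl⟩ := mem_seg_iff.1 hv
  exact ⟨i + k, by omega, by omega, rfl⟩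

theorem hasCyc_join {a b c d : V} {s t : Finset V} (p : HP H a b s) (p' : HP H c d t)
    (hd : Disjoint s t) (h1 : H.Adj b c) (h2 : H.Adj d a) : HasCyc H (s.card + t.card) :=
  ⟨a, d, s ∪ t, p.append p' h1 hd, h2, card_union_of_disjoint hd⟩

theorem ICyc.skip (h : ICyc H y m) {k d : ℕ} (hd1 : 1 ≤ d) (hd : d ≤ m) (ha : H.Adj (y k) (y (k + d))) :
    HasCyc H (m - d + 1) := by
  obtain ⟨s, p, hc, -⟩ := h.hp (k + d) (r := m - d) (by omega)
  rw [show k + d + (m - d) = k + m by omega, h.per] at p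
  exact ⟨_, _, s, p, ha, hc⟩

theorem ICyc.rule (h : ICyc H y m) {i d : ℕ} (hd1 : 1 ≤ d) (hd : d + 2 ≤ m)
    (h1 : H.Adj (y i) (y (i + d))) (h2 : H.Adj (y (i + 1)) (y (i + d + 2))) : HasCyc H (m - 1) := by
  obtain ⟨s, p, hc, hs⟩ := h.hp (i + 1) (r := d - 1) (by omega)
  obtain ⟨t, p', hc', ht⟩ := h.hp (i + d + 2) (r := m - d - 2) (by omega)
  rw [show i + 1 + (d - 1) = i + d by omega] at p
  rw [show i + d + 2 + (m - d - 2) = i + m by omega, h.per] at p'
  have := hasCyc_join p p'.symm (by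
    rw [disjoint_left]
    intro v hv hv'
    obtain ⟨k, k1, k2, rfl⟩ := hs v hv
    obtain ⟨k', k3, k4, e⟩ := ht _ hv'
    exact h.ne k k' (by omega) (by omega) e.symm) h1.symm h2.symm
  rwa [hc, hc', show d - 1 + 1 + (m - d - 2 + 1) = m - 1 by omega] at this

omit [DecidableEq V] in
theorem ICyc.double_odd {G : SimpleGraph V} (h : ICyc H y m) (hm : m % 2 = 1)
    (hG : ∀ k, G.Adj (y k) (y (k + 2))) (c : ℕ) : ICyc G (fun k => y (2 * k + c)) m := by
  refine ⟨fun k => ?_, fun k => ?_, fun a b hab hb e => ?_⟩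
  · have := hG (2 * k + c)
    rwa [show 2 * k + c + 2 = 2 * (k + 1) + c by omega] at this
  · show y (2 * (k + m) + c) = y (2 * k + c)
    rw [show 2 * (k + m) + c = 2 * k + c + m + m by omega, h.per, h.per]
  · by_cases h1 : 2 * b < 2 * a + m
    · exact h.ne _ _ (by omega) (by omega) e
    · have e' : y (2 * a + c) = y (2 * b + c) := e
      rw [show 2 * b + c = 2 * b + c - m + m by omega, h.per] at e'
      exact h.ne _ _ (by omega) (by omega) e'

omit [DecidableEq V] in
theorem ICyc.double_even {G : SimpleGraph V} {q : ℕ} (h : ICyc H y (2 * q))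
    (hG : ∀ k, G.Adj (y k) (y (k + 2))) (c : ℕ) : ICyc G (fun k => y (2 * k + c)) q := by
  refine ⟨fun k => ?_, fun k => ?_, fun a b hab hb e => h.ne _ _ (by omega) (by omega) e⟩
  · have := hG (2 * k + c)
    rwa [show 2 * k + c + 2 = 2 * (k + 1) + c by omega] at this
  · show y (2 * (k + q) + c) = y (2 * k + c)
    rw [show 2 * (k + q) + c = 2 * k + c + 2 * q by omega, h.per]

omit [DecidableEq V] in
theorem ICyc.ne_of_parity {q : ℕ} (h : ICyc H y (2 * q)) (hq : 0 < q) {a b : ℕ}
    (hab : (a + b) % 2 = 1) : y a ≠ y b := by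
  have key : ∀ d a b, (a + b) % 2 = 1 → b = a + d → y a ≠ y b := by
    intro d
    induction d using Nat.strong_induction_on with
    | _ d ih =>
      intro a b hab hb
      by_cases h1 : d < 2 * q
      · exact h.ne _ _ (by omega) (by omega)
      · rw [show b = b - 2 * q + 2 * q by omega, h.per]
        exact ih (d - 2 * q) (by omega) a _ (by omega) (by omega)
  rcases le_total a b with h1 | h1
  · exact key (b - a) a b hab (by omega)
  · exact (key (a - b) b a (by omega) (by omega)).symm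

/-- Two disjoint cycles of length `q` joined by two suitable edges. -/
theorem ICyc.two {e o : ℕ → V} {q : ℕ} (he : ICyc H e q) (ho : ICyc H o q) (hq : 2 ≤ q)
    (hne : ∀ a b, e a ≠ o b) (h1 : H.Adj (e 0) (o 0)) (h2 : H.Adj (e 1) (o 2)) :
    HasCyc H (2 * q - 1) := by
  obtain ⟨s, p, hc, hs⟩ := he.hp 1 (r := q - 1) (by omega)
  obtain ⟨t, p', hc', ht⟩ := ho.hp 2 (r := q - 2) (by omega)
  rw [show 1 + (q - 1) = 0 + q by omega, he.per] at p
  rw [show 2 + (q - 2) = 0 + q by omega, ho.per] at p'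
  have := hasCyc_join p p'.symm (by
    rw [disjoint_left]
    intro v hv hv'
    obtain ⟨k, -, -, rfl⟩ := hs v hv
    obtain ⟨k', -, -, e⟩ := ht _ hv'
    exact hne k k' e.symm) h1 h2.symm
  rwa [hc, hc', show q - 1 + 1 + (q - 2 + 1) = 2 * q - 1 by omega] at this

theorem hasCyc_bip_plus (X Y : Finset V) (hd : Disjoint X Y) (hXY : ∀ x ∈ X, ∀ y ∈ Y, H.Adj x y)
    {k : ℕ} (hk : 1 ≤ k) (hX : X.card = k + 1) (hY : k ≤ Y.card) {u v : V} (hu : u ∈ X) (hv : v ∈ X)
    (huv : H.Adj u v) : HasCyc H (2 * k + 1) := by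
  obtain ⟨Y', hY', cY⟩ := exists_subset_card_eq hY
  obtain ⟨b, hb⟩ : Y'.Nonempty := card_pos.1 (by omega)
  have hd' : Disjoint (X.erase u) Y' := hd.mono (erase_subset _ _) hY'
  have c1 := card_erase_add_one hu
  have p := HP.of_bip (X.erase u) Y' hd' (fun x hx y hy => hXY x (mem_of_mem_erase hx) y (hY' hy))
    (by omega) (mem_erase.2 ⟨huv.ne.symm, hv⟩) hb
  have hu' : u ∉ X.erase u ∪ Y' := by
    simp only [mem_union, notMem_erase, false_or]
    exact fun e => disjoint_left.1 hd hu (hY' e)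
  refine ⟨v, u, _, p.snoc (hXY u hu b (hY' hb)).symm hu', huv, ?_⟩
  rw [card_insert_of_notMem hu', card_union_of_disjoint hd']
  omega

theorem Clq.exists_hp {X : Finset V} (hX : Clq H X) {a a' : V} (ha : a ∈ X) (ha' : a' ∈ X)
    (hne : a ≠ a') {r : ℕ} (h2 : 2 ≤ r) (hr : r ≤ X.card) :
    ∃ s, s ⊆ X ∧ s.card = r ∧ HP H a a' s := by
  obtain ⟨s, h1, h3, h4⟩ := exists_subsuperset_card_eq (s := {a, a'}) (t := X) (n := r)
    (by intro v hv; simp only [mem_insert, mem_singleton] at hv; rcases hv with rfl | rfl <;> assumption)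
    (by rw [card_pair hne]; exact h2) hr
  exact ⟨s, h3, h4, HP.of_clique s (fun x hx y hy => hX x (h3 hx) y (h3 hy)) (h1 (by simp))
    (h1 (by simp)) hne⟩

theorem hasCyc_cliques {X Y : Finset V} (hd : Disjoint X Y) (hX : Clq H X) (hY : Clq H Y)
    {a a' b b' : V} (ha : a ∈ X) (ha' : a' ∈ X) (hb : b ∈ Y) (hb' : b' ∈ Y) (haa : a ≠ a')
    (hbb : b ≠ b') (h1 : H.Adj a b) (h2 : H.Adj a' b') {r r' : ℕ} (hr2 : 2 ≤ r) (hr : r ≤ X.card)
    (hr2' : 2 ≤ r') (hr' : r' ≤ Y.card) : HasCyc H (r + r') := by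
  obtain ⟨s, hs, cs, p⟩ := hX.exists_hp ha' ha haa.symm hr2 hr
  obtain ⟨t, ht, ct, p'⟩ := hY.exists_hp hb hb' hbb hr2' hr'
  rw [← cs, ← ct]
  exact hasCyc_join p p' (hd.mono hs ht) h1 h2.symm

/-- The vertices of one parity class of an even cycle. -/
def cls (y : ℕ → V) (q c : ℕ) : Finset V := seg (fun k => y (2 * k + c)) 0 (q - 1)

theorem mem_cls {q c : ℕ} {v : V} (hq : 0 < q) : v ∈ cls y q c ↔ ∃ k, k < q ∧ y (2 * k + c) = v := by
  unfold cls
  rw [mem_seg_iff]
  constructor
  · rintro ⟨k, -, h, e⟩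
    exact ⟨k, by omega, e⟩
  · rintro ⟨k, h, e⟩
    exact ⟨k, by omega, by omega, e⟩

theorem ICyc.card_cls {q : ℕ} (h : ICyc H y (2 * q)) (hq : 2 ≤ q) (c : ℕ) : (cls y q c).card = q := by
  have h1 : ICyc ⊤ (fun k => y (2 * k + c)) q :=
    h.double_even (G := ⊤) (fun k => h.ne _ _ (by omega) (by omega)) c
  have := (h1.ipath 0).card_seg (i := 0) (j := q - 1) (by omega)
  simp only [Nat.zero_add] at this
  unfold cls
  omega

theorem ICyc.disj_cls {q : ℕ} (h : ICyc H y (2 * q)) (hq : 0 < q) (c : ℕ) :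
    Disjoint (cls y q c) (cls y q (c + 1)) := by
  rw [disjoint_left]
  intro v hv hv'
  obtain ⟨k, -, rfl⟩ := (mem_cls hq).1 hv
  obtain ⟨k', -, e⟩ := (mem_cls hq).1 hv'
  exact h.ne_of_parity hq (by omega) e

/-- With at least three colours, a cycle avoiding a colour can be shortened by one. -/
theorem step_three {ι : Type} [Fintype ι] {H : ι → SimpleGraph V}
    (hc : ∀ i i', i ≠ i' → ∀ u v, u ≠ v → (H i).Adj u v ∨ (H i').Adj u v)
    (ht : 3 ≤ Fintype.card ι) (hm : 5 ≤ m) {i : ι} (h : HasCyc (H i) m) :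
    ∃ i', HasCyc (H i') (m - 1) := by
  classical
  by_contra hno
  push Not at hno
  obtain ⟨y, hy⟩ := h.exists_icyc
  obtain ⟨i1, hi1, i2, hi2, h12⟩ : ∃ i1 ∈ univ.erase i, ∃ i2 ∈ univ.erase i, i1 ≠ i2 :=
    one_lt_card.1 (by rw [card_erase_of_mem (mem_univ i), card_univ]; omega)
  replace hi1 : i ≠ i1 := (mem_erase.1 hi1).1.symm
  replace hi2 : i ≠ i2 := (mem_erase.1 hi2).1.symm
  have skip2 : ∀ i' (z : ℕ → V), ICyc (H i') z m → ∀ k, ¬ (H i').Adj (z k) (z (k + 2)) := by
    intro i' z hz k e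
    have := hz.skip (by omega) (by omega) e
    rw [show m - 2 + 1 = m - 1 by omega] at this
    exact hno i' this
  have ch : ∀ i', i ≠ i' → ∀ k, (H i').Adj (y k) (y (k + 2)) := fun i' hi k =>
    (hc i i' hi _ _ (hy.ne _ _ (by omega) (by omega))).resolve_left (skip2 i y hy k)
  rcases Nat.mod_two_eq_zero_or_one m with hm2 | hm2
  swap
  · have z1 := hy.double_odd hm2 (ch i1 hi1) 0
    have z2 := hy.double_odd hm2 (ch i2 hi2) 0
    exact (hc i1 i2 h12 _ _ (z1.ne 0 2 (by omega) (by omega))).elim (skip2 i1 _ z1 0) (skip2 i2 _ z2 0)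
  obtain ⟨q, rfl⟩ : ∃ q, m = 2 * q := ⟨m / 2, by omega⟩
  have hq : 0 < q := by omega
  have hA : ∀ a b, (a + b) % 2 = 1 → (H i).Adj (y a) (y b) := by
    intro a b hab
    by_contra hn
    have hne := hy.ne_of_parity hq hab
    have key : ∀ i', i ≠ i' → ¬ (H i').Adj (y (2 * 1 + a)) (y (2 * 2 + b)) := by
      intro i' hi e
      refine hno i' ((hy.double_even (ch i' hi) a).two (hy.double_even (ch i' hi) b) (by omega)
        (fun a' b' => hy.ne_of_parity hq (by omega)) ?_ e)
      simpa using (hc i i' hi _ _ hne).resolve_left hn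
    exact (hc i1 i2 h12 _ _ (hy.ne_of_parity hq (by omega))).elim (key i1 hi1) (key i2 hi2)
  have hB : ∀ c i', i ≠ i' → Clq (H i') (cls y q c) := by
    intro c i' hi u hu v hv huv
    refine (hc i i' hi u v huv).resolve_left fun e => hno i ?_
    have := hasCyc_bip_plus (H := H i) _ _ (hy.disj_cls hq c) (by
      intro a ha b hb
      obtain ⟨k, -, rfl⟩ := (mem_cls hq).1 ha
      obtain ⟨k', -, rfl⟩ := (mem_cls hq).1 hb
      exact hA _ _ (by omega)) (k := q - 1) (by omega) (by rw [hy.card_cls (by omega)]; omega)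
      (by rw [hy.card_cls (by omega)]; omega) hu hv e
    rwa [show 2 * (q - 1) + 1 = 2 * q - 1 by omega] at this
  have key : ∀ i', i ≠ i' → ∀ a b, a < b → b < 3 → (H i').Adj (y (2 * a + 0)) (y (2 * a + 1)) →
      (H i').Adj (y (2 * b + 0)) (y (2 * b + 1)) → False := by
    intro i' hi a b hab hb e1 e2
    have := hasCyc_cliques (hy.disj_cls hq 0) (hB 0 i' hi) (hB 1 i' hi)
      ((mem_cls hq).2 ⟨a, by omega, rfl⟩) ((mem_cls hq).2 ⟨b, by omega, rfl⟩)
      ((mem_cls hq).2 ⟨a, by omega, rfl⟩) ((mem_cls hq).2 ⟨b, by omega, rfl⟩)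
      (hy.ne _ _ (by omega) (by omega)) (hy.ne _ _ (by omega) (by omega)) e1 e2
      (r := q) (r' := q - 1) (by omega) (by rw [hy.card_cls (by omega)]) (by omega)
      (by rw [hy.card_cls (by omega)]; omega)
    rw [show q + (q - 1) = 2 * q - 1 by omega] at this
    exact hno i' this
  have c0 := hc i1 i2 h12 _ _ (hy.adj (2 * 0 + 0)).ne
  have c1 := hc i1 i2 h12 _ _ (hy.adj (2 * 1 + 0)).ne
  have c2 := hc i1 i2 h12 _ _ (hy.adj (2 * 2 + 0)).ne
  have k1 := key i1 hi1 0 1 (by omega) (by omega)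
  have k2 := key i1 hi1 0 2 (by omega) (by omega)
  have k3 := key i1 hi1 1 2 (by omega) (by omega)
  have k4 := key i2 hi2 0 1 (by omega) (by omega)
  have k5 := key i2 hi2 0 2 (by omega) (by omega)
  have k6 := key i2 hi2 1 2 (by omega) (by omega)
  (clear * - c0 c1 c2 k1 k2 k3 k4 k5 k6; grind)

end Pool.Agent.Work.MP_df328f_co
end
end

-- merged part: Pool.Agent.Work.MP_df328f_co.Bridge
section
-- merged part: Pool.Agent.Work.MP_df328f_co.Arith
section
/-! The arithmetic of the doubling argument. -/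

namespace Pool.Agent.Work.MP_df328f_co

open Finset

variable {ι : Type} [DecidableEq ι]

def sg (a : ι → ℤ) (k : ℤ) (T : Finset ι) : ℤ := k + ∑ i ∈ T, a i

def rr (a : ι → ℤ) (k : ℤ) (T : Finset ι) : ℤ := 3 * ∑ i ∈ T, a i ^ 2 - sg a k T ^ 2 + k ^ 2

theorem grow (a : ι → ℤ) (k ρ c : ℤ) (b : ℕ) (hR : ∀ T, 0 ≤ rr a k T) (ha : ∀ i, 1 ≤ a i)
    (hρ : ρ + 1 < c) (hρ0 : 0 ≤ ρ)
    (base : ∀ T : Finset ι, T.card = b → ∀ x, (∀ i ∈ T, a i ≤ x) →
      rr a k T - 2 * x * sg a k T ≤ 2 * ρ - 2 * x * c) (r : ℕ) :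
    ∀ T : Finset ι, T.card = b + r →
      (∀ x, (∀ i ∈ T, a i ≤ x) → rr a k T - 2 * x * sg a k T ≤ 2 * ρ - 2 * x * (c * 2 ^ r)) ∧
      (1 ≤ r → ∃ i ∈ T, c * 2 ^ (r - 1) ≤ a i) := by
  induction r with
  | zero =>
    intro T hT
    exact ⟨by simpa using base T hT, fun h => absurd h (by omega)⟩
  | succ r ih =>
    intro T hT
    obtain ⟨i, hi, hmax⟩ := exists_max_image T a (card_pos.1 (by omega))
    have hc := card_erase_add_one hi
    obtain ⟨h1, -⟩ := ih (T.erase i) (by omega)
    have e1 : sg a k T = sg a k (T.erase i) + a i := by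
      unfold sg
      rw [← sum_erase_add T a hi]
      ring
    have e2 : rr a k T = rr a k (T.erase i) + 2 * a i ^ 2 - 2 * a i * sg a k (T.erase i) := by
      unfold rr
      rw [← sum_erase_add T (fun i => a i ^ 2) hi, e1]
      ring
    have hai := ha i
    have hτ : c ≤ c * 2 ^ r := le_mul_of_one_le_right (by omega) (one_le_pow₀ (by norm_num))
    have hge : c * 2 ^ r ≤ a i := by
      by_contra hcon
      have h2 := h1 (a i) fun i' hi' => hmax i' (mem_of_mem_erase hi')
      have h3 := hR T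
      have h4 : 0 ≤ (a i - 1) * (c * 2 ^ r - 1 - a i) := mul_nonneg (by omega) (by omega)
      (clear * - e2 h2 h3 h4 hρ hτ; linarith only [hρ, e2, hτ, h2, h3, h4])
    refine ⟨fun x hx => ?_, fun _ => ⟨i, hi, by simpa using hge⟩⟩
    have h2 := h1 (a i + x) fun i' hi' => by
      have := hx i' (mem_of_mem_erase hi')
      omega
    have h3 : 0 ≤ (a i - c * 2 ^ r) * (x - a i) := mul_nonneg (by omega) (by have := hx i hi; omega)
    rw [e1, e2, pow_succ (2 : ℤ) r]
    (clear * - h2 h3; linarith only [h2, h3])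

theorem base_big (a b k x : ℤ) (hk : 2 ≤ k) (ha : k + 1 ≤ a) (hab : a ≤ b) (hx : b ≤ x)
    (hR : 0 ≤ 3 * (a ^ 2 + b ^ 2) - (k + (a + b)) ^ 2 + k ^ 2) :
    3 * (a ^ 2 + b ^ 2) - (k + (a + b)) ^ 2 + k ^ 2 - 2 * x * (k + (a + b)) ≤
      2 * (k + 1) - 2 * x * (4 * k + 2) := by
  have step : ∀ y, (a = k + 1 ∨ a + 1 ≤ y) →
      a * (a - k) - y * (k + a) ≤ k + 1 - y * (2 * k + 1) := by
    rintro y (rfl | hy)
    · linarith only []
    · linarith only [ha, hy, mul_nonneg (sub_nonneg.2 ha) (sub_nonneg.2 hy)]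
  by_cases hb : 2 * k + 1 ≤ b
  · have h1 := step (b + x) (Or.inr (by omega))
    linarith only [h1, hb, hx, mul_nonneg (sub_nonneg.2 hb) (sub_nonneg.2 hx)]
  · by_cases hc : a = k + 1 ∨ a + 1 ≤ b
    · have h1 := step b hc
      exfalso
      linarith only [hk, hR, hb, h1, ha, hab, mul_nonneg (show 0 ≤ b - (k + 1) by omega) (show 0 ≤ 2 * k - b by omega), mul_nonneg_of_nonpos_of_nonpos (Mathlib.Tactic.Linarith.sub_nonpos_of_le hk) (Mathlib.Tactic.Linarith.sub_nonpos_of_le (Int.add_one_le_iff.mpr (lt_of_not_ge hb)))]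
    · have hab' : a = b := by omega
      subst hab'
      have h2 : a = 2 * k := by nlinarith
      subst h2
      linarith only [hk, hx, mul_nonneg (show 0 ≤ k - 2 by omega) (show 0 ≤ x by omega)]

theorem base_one (a b x : ℤ) (ha : 2 ≤ a) (hab : a ≤ b) (hx : b ≤ x) :
    3 * (a ^ 2 + b ^ 2) - (1 + (a + b)) ^ 2 + 1 ^ 2 - 2 * x * (1 + (a + b)) ≤
      2 * 0 - 2 * x * 5 := by
  have h1 : 0 ≤ (x - b) * (a + b - 4) := mul_nonneg (by omega) (by omega)
  rcases ha.eq_or_lt with rfl | h
  · linarith only [hab, h1]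
  · linarith only [h1, h, hab, ha, mul_nonneg (show 0 ≤ b - a by omega) (show 0 ≤ 2 * a - 3 by omega), mul_nonneg_of_nonpos_of_nonpos (Mathlib.Tactic.Linarith.sub_nonpos_of_le ha) (Mathlib.Tactic.Linarith.sub_nonpos_of_le ha)]

theorem base_zero (a b c x : ℤ) (ha : 1 ≤ a) (hab : a ≤ b) (hbc : b ≤ c) (hx : c ≤ x) :
    3 * (a ^ 2 + b ^ 2 + c ^ 2) - (0 + (a + b + c)) ^ 2 + 0 ^ 2 - 2 * x * (0 + (a + b + c)) ≤
      2 * 0 - 2 * x * 3 := by
  have h1 : 0 ≤ (x - c) * (a + b + c - 3) := mul_nonneg (by omega) (by omega)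
  have h2 : 0 ≤ (c - b) * (2 * a + 2 * b - 3) := mul_nonneg (by omega) (by omega)
  have h3 : 0 ≤ a * (b - a) := mul_nonneg (by omega) (by omega)
  have h4 : 0 ≤ b * (2 * a + b - 3) := mul_nonneg (by omega) (by omega)
  linarith only [h1, h2, h3, h4]

/-- The least length `l` that admits a bad colouring with `t` colours on `l + k` vertices. -/
def Thr (t k l : ℕ) : Prop :=
  (k = 0 → 3 * 2 ^ (t - 3) + 1 ≤ l) ∧ (k = 1 → 5 * 2 ^ (t - 2) ≤ l + 1) ∧
    (2 ≤ k → (2 * k + 1) * 2 ^ (t - 1) + 1 ≤ l + 2 * k)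

theorem arith [Fintype ι] (j : ι → ℕ) (k l : ℕ) (hj1 : ∀ i, 1 ≤ j i) (hj2 : ∀ i, 2 * j i + 1 ≤ l)
    (hR : ∀ T, 0 ≤ rr (fun i => ((j i + k : ℕ) : ℤ)) k T) (ht : 3 ≤ Fintype.card ι)
    (h0 : Fintype.card ι = 3 → 4 ≤ l) : Thr (Fintype.card ι) k l := by
  set a : ι → ℤ := fun i => ((j i + k : ℕ) : ℤ) with hadef
  have ha : ∀ i, (k : ℤ) + 1 ≤ a i := fun i => by
    have := hj1 i
    simp only [hadef]
    omega
  have ha1 : ∀ i, 1 ≤ a i := fun i => by
    have := ha i
    omega
  have hl : ∀ i, 2 * a i + 1 ≤ l + 2 * k := fun i => by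
    have := hj2 i
    simp only [hadef]
    omega
  refine ⟨fun hk => ?_, fun hk => ?_, fun hk => ?_⟩
  · subst hk
    rcases ht.eq_or_lt with h3 | h3
    · have := h0 h3.symm
      rw [← h3]
      omega
    obtain ⟨r, hr⟩ : ∃ r, Fintype.card ι = 3 + (r + 1) := ⟨Fintype.card ι - 4, by omega⟩
    obtain ⟨i, -, hi⟩ := (grow a _ 0 3 3 hR ha1 (by norm_num) le_rfl (by
      intro T hT x hx
      obtain ⟨p, q, r, hpq, hpr, hqr, rfl⟩ := card_eq_three.1 hT
      have hp := hx p (by simp)
      have hq := hx q (by simp)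
      have hr := hx r (by simp)
      have e1 : ∀ f : ι → ℤ, ∑ i ∈ ({p, q, r} : Finset ι), f i = f p + f q + f r := by
        intro f
        rw [sum_insert (by simp [hpq, hpr]), sum_pair hqr, add_assoc]
      simp only [rr, sg, e1, Nat.cast_zero]
      rcases le_total (a p) (a q) with h1 | h1 <;> rcases le_total (a q) (a r) with h2 | h2 <;>
        rcases le_total (a p) (a r) with h3 | h3
      · exact base_zero _ _ _ x (ha1 p) h1 h2 hr
      · exact base_zero _ _ _ x (ha1 p) h1 h2 hr
      · have := base_zero _ _ _ x (ha1 p) h3 h2 hq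
        linarith only [this]
      · have := base_zero _ _ _ x (ha1 r) h3 h1 hq
        linarith only [this]
      · have := base_zero _ _ _ x (ha1 q) h1 h3 hr
        linarith only [this]
      · have := base_zero _ _ _ x (ha1 q) h2 h3 hp
        linarith only [this]
      · have := base_zero _ _ _ x (ha1 r) h2 h1 hp
        linarith only [this]
      · have := base_zero _ _ _ x (ha1 r) h2 h1 hp
        linarith only [this]) (r + 1) univ (by rw [card_univ, hr])).2 (by omega)
    have h1 := hl i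
    rw [hr, show 3 + (r + 1) - 3 = r + 1 by omega, pow_succ]
    rw [Nat.add_sub_cancel] at hi
    zify
    push_cast at h1
    linarith only [hi, h1]
  · subst hk
    obtain ⟨r, hr⟩ : ∃ r, Fintype.card ι = 2 + (r + 1) := ⟨Fintype.card ι - 3, by omega⟩
    obtain ⟨i, -, hi⟩ := (grow a _ 0 5 2 hR ha1 (by norm_num) le_rfl (by
      intro T hT x hx
      obtain ⟨p, q, hpq, rfl⟩ := card_eq_two.1 hT
      have hp := hx p (by simp)
      have hq := hx q (by simp)
      simp only [rr, sg, sum_pair hpq, Nat.cast_one]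
      rcases le_total (a p) (a q) with h1 | h1
      · exact base_one _ _ x (by simpa using ha p) h1 hq
      · have := base_one _ _ x (by simpa using ha q) h1 hp
        linarith only [this]) (r + 1) univ (by rw [card_univ, hr])).2 (by omega)
    have h1 := hl i
    rw [hr, show 2 + (r + 1) - 2 = r + 1 by omega, pow_succ]
    rw [Nat.add_sub_cancel] at hi
    zify
    push_cast at h1
    linarith only [hi, h1]
  · obtain ⟨r, hr⟩ : ∃ r, Fintype.card ι = 2 + (r + 1) := ⟨Fintype.card ι - 3, by omega⟩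
    have hk' : (2 : ℤ) ≤ k := by exact_mod_cast hk
    obtain ⟨i, -, hi⟩ := (grow a _ (k + 1) (4 * k + 2) 2 hR ha1 (by omega) (by omega) (by
      intro T hT x hx
      obtain ⟨p, q, hpq, rfl⟩ := card_eq_two.1 hT
      have hp := hx p (by simp)
      have hq := hx q (by simp)
      have h2 := hR {p, q}
      simp only [rr, sg, sum_pair hpq] at h2 ⊢
      rcases le_total (a p) (a q) with h1 | h1
      · exact base_big _ _ _ x hk' (ha p) h1 hq h2
      · have := base_big _ _ _ x hk' (ha q) h1 hp (by linarith only [h2])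
        linarith only [this]) (r + 1) univ (by rw [card_univ, hr])).2 (by omega)
    have h1 := hl i
    rw [hr, show 2 + (r + 1) - 1 = r + 1 + 1 by omega, pow_succ, pow_succ]
    rw [Nat.add_sub_cancel] at hi
    zify
    linarith only [hi, h1]

end Pool.Agent.Work.MP_df328f_co
end

-- merged part: Pool.Agent.Work.MP_df328f_co.Multi
section
/-! Several saturated graphs whose complements are pairwise edge-disjoint. -/

namespace Pool.Agent.Work.MP_df328f_co

open Finset

variable {V : Type} [DecidableEq V] [Fintype V] {ι : Type} [DecidableEq ι]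
  {H : ι → SimpleGraph V} {l : ℕ}

structure Bad (H : ι → SimpleGraph V) (l : ℕ) : Prop where
  cover : ∀ i i', i ≠ i' → ∀ u v, u ≠ v → (H i).Adj u v ∨ (H i').Adj u v
  nolong : ∀ i, NoLong (H i) l
  sat : ∀ i, Sat (H i) l

omit [DecidableEq ι] in
theorem exists_bad (hc : ∀ i i', i ≠ i' → ∀ u v, u ≠ v → (H i).Adj u v ∨ (H i').Adj u v)
    (hN : ∀ i, NoLong (H i) l) (hl : 3 ≤ l) : ∃ H' : ι → SimpleGraph V, Bad H' l := by
  choose H' h1 h2 h3 using fun i => exists_sat (hN i) hl
  exact ⟨H', fun i i' hi u v huv => (hc i i' hi u v huv).imp (fun h => h1 i h) (fun h => h1 i' h),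
    h2, h3⟩

omit [DecidableEq ι] in
theorem Bad.exists_str [Nontrivial ι] (h : Bad H l) (hl : 3 ≤ l) (i : ι) :
    ∃ j S, Str (H i) l j S := by
  obtain ⟨i', hi⟩ := exists_ne i
  exact Pool.Agent.Work.MP_df328f_co.exists_str (h.nolong i) (h.sat i)
    (noBip_of (fun u v huv hn => (h.cover i i' hi.symm u v huv).resolve_left hn) (h.nolong i')
      (by omega)) hl

omit [DecidableEq ι] in
theorem Bad.dg_add (h : Bad H l) {i i' : ι} (hi : i ≠ i') (v : V) :
    Fintype.card V + (nb (H i) univ v ∩ nb (H i') univ v).card ≤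
      dg (H i) univ v + dg (H i') univ v + 1 := by
  have h1 := card_union_add_card_inter (nb (H i) univ v) (nb (H i') univ v)
  have h2 : univ.erase v ⊆ nb (H i) univ v ∪ nb (H i') univ v := by
    intro y hy
    simp only [mem_union, mem_nb, mem_univ, true_and]
    exact h.cover i i' hi v y (mem_erase.1 hy).1.symm
  have h3 := card_le_card h2
  have h4 := card_erase_add_one (mem_univ v)
  rw [card_univ] at h4
  unfold dg
  omega

omit [DecidableEq ι] in
theorem Bad.lite_cover (h : Bad H l) {i i' : ι} (hi : i ≠ i') {u v : V} (huv : u ≠ v) :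
    (lite (H i)).Adj u v ∨ (lite (H i')).Adj u v := by
  have hu := h.dg_add hi u
  have hv := h.dg_add hi v
  by_cases h1 : Heavy (H i) u ∧ Heavy (H i) v
  · right
    unfold Heavy at h1
    refine ⟨adj_of_dg (h.nolong i') (h.sat i') huv (by omega), fun h2 => ?_⟩
    unfold Heavy at h2
    omega
  by_cases h2 : Heavy (H i') u ∧ Heavy (H i') v
  · left
    unfold Heavy at h2
    exact ⟨adj_of_dg (h.nolong i) (h.sat i) huv (by omega), h1⟩
  exact (h.cover i i' hi u v huv).imp (fun e => ⟨e, h1⟩) (fun e => ⟨e, h2⟩)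

omit [DecidableEq ι] in
/-- The basic counting inequality. -/
theorem Bad.count (h : Bad H l) {k : ℕ} (hn : Fintype.card V = l + k) (j : ι → ℕ) (S : ι → Finset V)
    (hS : ∀ i, Str (H i) l (j i) (S i)) (T : Finset ι)
    (hs : ∑ i ∈ T, (j i + k) ≤ Fintype.card V) : 0 ≤ rr (fun i => ((j i + k : ℕ) : ℤ)) k T := by
  choose F hF1 hF2 hF3 using fun i => (hS i).exists_set (j i + k) (by
    have := (hS i).card_le
    omega)
  set U : Finset V := T.biUnion fun i => (F i)ᶜ with hU
  have hu : U.card ≤ ∑ i ∈ T, (j i + k) := by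
    refine card_biUnion_le.trans (le_of_eq (sum_congr rfl fun i _ => ?_))
    have h1 := card_add_card_compl (F i)
    have h2 := hF2 i
    omega
  have hdisj : ∀ i ∈ T, ∀ i' ∈ T, i ≠ i' →
      Disjoint (out (lite (H i))ᶜ (F i)) (out (lite (H i'))ᶜ (F i')) := by
    intro i _ i' _ hi
    rw [disjoint_left]
    intro p hp hp'
    rw [mem_out, SimpleGraph.compl_adj] at hp hp'
    exact (h.lite_cover hi hp.1.1).elim hp.1.2 hp'.1.2
  have hsub : (T.biUnion fun i => out (lite (H i))ᶜ (F i)) ⊆ out ⊤ Uᶜ := by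
    intro p hp
    obtain ⟨i, hi, hp⟩ := mem_biUnion.1 hp
    rw [mem_out, SimpleGraph.compl_adj] at hp
    rw [mem_out, SimpleGraph.top_adj]
    refine ⟨hp.1.1, fun hc => hp.2 ⟨?_, ?_⟩⟩
    · by_contra e
      exact mem_compl.1 hc.1 (mem_biUnion.2 ⟨i, hi, mem_compl.2 e⟩)
    · by_contra e
      exact mem_compl.1 hc.2 (mem_biUnion.2 ⟨i, hi, mem_compl.2 e⟩)
  have h1 := card_le_card hsub
  rw [card_biUnion hdisj] at h1
  have h2 := out_top (V := V) Uᶜ
  have h3 : ∀ i, ((j i + k : ℕ) : ℤ) * (2 * Fintype.card V - 1 + 2 * k) - 3 * ((j i + k : ℕ) : ℤ) ^ 2 ≤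
      (out (lite (H i))ᶜ (F i)).card := by
    intro i
    have a1 := out_top (V := V) (F i)
    have a2 := out_top_le (lite (H i)) (F i)
    have a3 := hF2 i
    have a4 := hF3 i
    zify at a2 a3 a4
    have a5 : ((F i).card : ℤ) = Fintype.card V - (j i + k) := by linarith only [a3]
    rw [a5] at a1
    push_cast
    (clear * - a1 a2 a4; linarith only [a1, a2, a4])
  have h4 := sum_le_sum fun i (_ : i ∈ T) => h3 i
  rw [sum_sub_distrib, ← sum_mul, ← mul_sum] at h4
  have h5 := card_add_card_compl U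
  zify at h1 h5 hu hs
  have h6 : (Uᶜ.card : ℤ) = Fintype.card V - U.card := by linarith only [h5]
  rw [h6] at h2
  unfold rr sg
  push_cast at h4 ⊢
  generalize (∑ i ∈ T, ((j i : ℤ) + k)) = s at *
  generalize (∑ i ∈ T, ((j i : ℤ) + k) ^ 2) = q at *
  generalize (U.card : ℤ) = u at *
  generalize (Fintype.card V : ℤ) = n at *
  have h7 : 0 ≤ (s - u) * (2 * n - s - u - 1) := by
    rcases hu.eq_or_lt with e | e
    · rw [e]
      simp
    · exact mul_nonneg (by omega) (by omega)
  (clear * - h1 h2 h4 h7; linarith only [h1, h4, h2, h7])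

/-- A vertex of degree exactly `(n - 1) / 2` in two of the graphs. -/
def Split (H : ι → SimpleGraph V) (v : V) (α β : ι) : Prop :=
  α ≠ β ∧ 2 * dg (H α) univ v + 1 = Fintype.card V ∧ 2 * dg (H β) univ v + 1 = Fintype.card V

omit [DecidableEq ι] [DecidableEq V] in
theorem Split.symm {v : V} {α β : ι} (h : Split H v α β) : Split H v β α :=
  ⟨h.1.symm, h.2.2, h.2.1⟩

omit [DecidableEq ι] in
theorem Bad.split_of_low (h : Bad H l) {α β : ι} (hi : α ≠ β) {v : V} (h1 : v ∈ low (H α))
    (h2 : v ∈ low (H β)) : Split H v α β := by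
  rw [mem_low] at h1 h2
  have := h.dg_add hi v
  exact ⟨hi, by omega, by omega⟩

omit [DecidableEq ι] in
theorem Bad.split_nonadj (h : Bad H l) {α β : ι} {v : V} (hs : Split H v α β) (u : V) :
    ¬ (H α).Adj v u ∨ ¬ (H β).Adj v u := by
  by_contra hcon
  push Not at hcon
  have h1 := h.dg_add hs.1 v
  have h2 : 0 < (nb (H α) univ v ∩ nb (H β) univ v).card :=
    card_pos.2 ⟨u, by simp [hcon.1, hcon.2]⟩
  have h3 := hs.2.1
  have h4 := hs.2.2
  omega

omit [DecidableEq ι] [Fintype V] in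
theorem Bad.colour_eq (h : Bad H l) {α β : ι} {u v : V} (huv : u ≠ v) (h1 : ¬ (H α).Adj u v)
    (h2 : ¬ (H β).Adj u v) : α = β := by
  by_contra hne
  exact (h.cover α β hne u v huv).elim h1 h2

omit [DecidableEq ι] in
theorem Bad.split_univ (h : Bad H l) {α β γ : ι} {v : V} (hs : Split H v α β) (h1 : γ ≠ α)
    (h2 : γ ≠ β) (y : V) (hy : y ≠ v) : (H γ).Adj v y := by
  by_contra hcon
  rcases h.split_nonadj hs y with e | e
  · exact h1 (h.colour_eq hy.symm hcon e)
  · exact h2 (h.colour_eq hy.symm hcon e)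

omit [DecidableEq ι] in
theorem Bad.split_other (h : Bad H l) {α β γ : ι} {v u : V} (hs : Split H v β γ) (huv : u ≠ v)
    (hn : ¬ (H α).Adj v u) : ∃ δ, Split H v α δ := by
  by_cases h1 : α = β
  · exact ⟨γ, h1 ▸ hs⟩
  by_cases h2 : α = γ
  · exact ⟨β, h2 ▸ hs.symm⟩
  exact absurd (h.split_univ hs h1 h2 u huv) hn

open Classical in
/-- All split vertices. -/
noncomputable def spl (H : ι → SimpleGraph V) : Finset V := univ.filter fun v => ∃ α β, Split H v α β

omit [DecidableEq ι] [DecidableEq V] in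
theorem mem_spl {v : V} : v ∈ spl H ↔ ∃ α β, Split H v α β := by simp [spl]

omit [DecidableEq ι] in
theorem Bad.no_three (h : Bad H l) (hl : l < Fintype.card V) {α β1 β2 β3 : ι} {u v w : V}
    (hu : Split H u α β1) (hv : Split H v α β2) (hw : Split H w α β3) (huv : u ≠ v) (huw : u ≠ w)
    (hvw : v ≠ w) (nuv : ¬ (H α).Adj u v) (nuw : ¬ (H α).Adj u w) : (H α).Adj v w := by
  by_contra nvw
  exact Pool.Agent.Work.MP_df328f_co.no_three (h.nolong α) (h.sat α) hl hu.2.1 hv.2.1 hw.2.1
    huv huw hvw nuv nuw nvw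

omit [DecidableEq ι] in
theorem Bad.spl_card (h : Bad H l) (hl : l < Fintype.card V) : (spl H).card ≤ 5 := by
  classical
  rcases (spl H).eq_empty_or_nonempty with e | ⟨z, hz⟩
  · simp [e]
  have key : ∀ α β, Split H z α β →
      (((spl H).erase z).filter fun y => ¬ (H α).Adj z y).card ≤ 2 := by
    intro α β hs
    by_contra hcon
    obtain ⟨a, ha, b, hb, c, hc, hab, hac, hbc⟩ := two_lt_card.1 (not_le.1 hcon)
    simp only [mem_filter, mem_erase, mem_spl] at ha hb hc
    obtain ⟨⟨haz, _, _, sa⟩, na⟩ := ha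
    obtain ⟨⟨hbz, _, _, sb⟩, nb'⟩ := hb
    obtain ⟨⟨hcz, _, _, sc⟩, nc⟩ := hc
    obtain ⟨γa, sa⟩ := h.split_other sa haz.symm fun e => na e.symm
    obtain ⟨γb, sb⟩ := h.split_other sb hbz.symm fun e => nb' e.symm
    obtain ⟨γc, sc⟩ := h.split_other sc hcz.symm fun e => nc e.symm
    have ab := h.no_three hl hs sa sb haz.symm hbz.symm hab na nb'
    have ac := h.no_three hl hs sa sc haz.symm hcz.symm hac na nc
    have bc := h.no_three hl hs sb sc hbz.symm hcz.symm hbc nb' nc
    have n1 : ¬ (H γa).Adj a b := (h.split_nonadj sa b).resolve_left (not_not.2 ab)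
    have n2 : ¬ (H γa).Adj a c := (h.split_nonadj sa c).resolve_left (not_not.2 ac)
    have n3 : ¬ (H γb).Adj b a := (h.split_nonadj sb a).resolve_left (not_not.2 ab.symm)
    have n4 : ¬ (H γb).Adj b c := (h.split_nonadj sb c).resolve_left (not_not.2 bc)
    have n5 : ¬ (H γc).Adj c a := (h.split_nonadj sc a).resolve_left (not_not.2 ac.symm)
    have e1 : γb = γa := h.colour_eq hab (fun e => n3 e.symm) n1
    have e2 : γc = γa := h.colour_eq hac (fun e => n5 e.symm) n2
    subst e1
    subst e2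
    exact n4 (h.no_three hl sa.symm sb.symm sc.symm hab hac hbc n1 n2)
  obtain ⟨α, β, hs⟩ := mem_spl.1 hz
  have h1 := key α β hs
  have h2 := key β α hs.symm
  have h3 : (spl H).erase z ⊆ (((spl H).erase z).filter fun y => ¬ (H α).Adj z y) ∪
      (((spl H).erase z).filter fun y => ¬ (H β).Adj z y) := by
    intro y hy
    simp only [mem_union, mem_filter]
    exact (h.split_nonadj hs y).imp (fun e => ⟨hy, e⟩) (fun e => ⟨hy, e⟩)
  have h4 := (card_le_card h3).trans (card_union_le _ _)
  have h5 := card_erase_add_one hz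
  omega

omit [DecidableEq ι] in
theorem Bad.sum_low [Fintype ι] (h : Bad H l) (hn : 2 ≤ Fintype.card V) :
    ∑ i, (low (H i)).card ≤ Fintype.card V + (spl H).card := by
  classical
  have h1 : ∑ i, (low (H i)).card = ∑ v : V, (univ.filter fun i => v ∈ low (H i)).card := by
    simp only [card_filter]
    rw [sum_comm]
    refine sum_congr rfl fun i _ => ?_
    rw [← card_filter]
    congr 1
    ext v
    simp
  have h2 : ∀ v : V, (univ.filter fun i => v ∈ low (H i)).card ≤ 1 + if v ∈ spl H then 1 else 0 := by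
    intro v
    by_cases hv : v ∈ spl H
    · rw [if_pos hv]
      by_contra hcon
      obtain ⟨a, ha, b, hb, c, hc, hab, hac, hbc⟩ := two_lt_card.1 (not_le.1 hcon)
      simp only [mem_filter, mem_univ, true_and] at ha hb hc
      have hs := h.split_of_low hab ha hb
      have : (univ.erase v).card ≤ dg (H c) univ v :=
        card_le_dg fun y hy => ⟨mem_univ _, h.split_univ hs hac.symm hbc.symm y (mem_erase.1 hy).1⟩
      have h4 := card_erase_add_one (mem_univ v)
      rw [card_univ] at h4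
      rw [mem_low] at hc
      omega
    · rw [if_neg hv]
      by_contra hcon
      obtain ⟨a, ha, b, hb, hab⟩ := one_lt_card.1 (not_le.1 hcon)
      simp only [mem_filter, mem_univ, true_and] at ha hb
      exact hv (mem_spl.2 ⟨a, b, h.split_of_low hab ha hb⟩)
  rw [h1]
  refine (sum_le_sum fun v _ => h2 v).trans ?_
  rw [sum_add_distrib, ← card_filter]
  simp

/-- Either the sets given by the structure theorem fit into the vertex set, or all colours are wide. -/
theorem Bad.fit_or_wide [Fintype ι] (h : Bad H l) {k : ℕ} (hn : Fintype.card V = l + k) (j : ι → ℕ)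
    (S : ι → Finset V) (hS : ∀ i, Str (H i) l (j i) (S i)) :
    ∑ i, (j i + k) ≤ Fintype.card V ∨
      ((spl H).Nonempty ∧ ∀ i, Fintype.card V ≤ (low (H i)).card + (l - 1) / 2) := by
  classical
  set M : ι → Finset V := fun i => if j i + k ≤ (hvy (H i)).card then hvy (H i) else low (H i)
    with hM
  have hsub : ∀ i, hvy (H i) ⊆ low (H i) := fun i v hv => by
    rw [mem_hvy] at hv
    rw [mem_low]
    omega
  have hM1 : ∀ i, M i ⊆ low (H i) := fun i => by
    simp only [hM]
    split_ifs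
    · exact hsub i
    · exact subset_rfl
  have hM2 : ∀ i, j i + k ≤ (M i).card := fun i => by
    simp only [hM]
    split_ifs with e
    · exact e
    · have := (hS i).low_card (h.nolong i) (h.sat i)
      omega
  have hwide : ∀ i, ¬ j i + k ≤ (hvy (H i)).card →
      Fintype.card V ≤ (low (H i)).card + (l - 1) / 2 := fun i e => by
    have := (hS i).hvy_or_wide (h.nolong i) (h.sat i)
    omega
  have hdis : ∀ i i', i ≠ i' → ∀ v ∈ hvy (H i), v ∉ low (H i') := fun i i' hi v hv hv' => by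
    rw [mem_hvy] at hv
    rw [mem_low] at hv'
    have := h.dg_add hi v
    omega
  by_cases hd : ∀ i i', i ≠ i' → Disjoint (M i) (M i')
  · left
    have h1 : (univ.biUnion M).card = ∑ i, (M i).card := card_biUnion fun i _ i' _ hi => hd i i' hi
    have h2 := card_le_univ (univ.biUnion M)
    exact (sum_le_sum fun i _ => hM2 i).trans (h1 ▸ h2)
  right
  push Not at hd
  obtain ⟨α, β, hαβ, hd⟩ := hd
  obtain ⟨z, hzα, hzβ⟩ := not_disjoint_iff.1 hd
  have wα : ¬ j α + k ≤ (hvy (H α)).card := fun e => by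
    simp only [hM, if_pos e] at hzα
    exact hdis α β hαβ z hzα (hM1 β hzβ)
  have wβ : ¬ j β + k ≤ (hvy (H β)).card := fun e => by
    simp only [hM, if_pos e] at hzβ
    exact hdis β α hαβ.symm z hzβ (hM1 α hzα)
  refine ⟨⟨z, mem_spl.2 ⟨α, β, h.split_of_low hαβ (hM1 α hzα) (hM1 β hzβ)⟩⟩, fun δ => hwide δ ?_⟩
  intro e
  have h1 : δ ≠ α := fun e' => wα (e' ▸ e)
  have h2 : δ ≠ β := fun e' => wβ (e' ▸ e)
  have h3 := (hS δ).univ_card (by omega) (low (H α) ∩ low (H β)) fun u hu y hy =>
    h.split_univ (h.split_of_low hαβ (mem_inter.1 hu).1 (mem_inter.1 hu).2) h1 h2 y hy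
  have h4 := card_union_add_card_inter (low (H α)) (low (H β))
  have h5 : Disjoint (hvy (H δ)) (low (H α) ∪ low (H β)) := by
    rw [disjoint_left]
    intro v hv hv'
    exact (mem_union.1 hv').elim (hdis δ α h1 v hv) (hdis δ β h2 v hv)
  have h6 := card_le_univ (hvy (H δ) ∪ (low (H α) ∪ low (H β)))
  rw [card_union_of_disjoint h5] at h6
  have h7 := hwide α wα
  have h8 := hwide β wβ
  have h9 := (hS δ).j_le
  omega

/-- The upper bound for long cycles with at least three colours. -/
theorem thr_of_nolong [Fintype ι] {k : ℕ}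
    (hc : ∀ i i', i ≠ i' → ∀ u v, u ≠ v → (H i).Adj u v ∨ (H i').Adj u v)
    (hN : ∀ i, NoLong (H i) l) (hn : Fintype.card V = l + k) (hl : 3 ≤ l) (ht : 3 ≤ Fintype.card ι)
    (h0 : Fintype.card ι = 3 → 4 ≤ l) : Thr (Fintype.card ι) k l := by
  obtain ⟨H', h⟩ := exists_bad hc hN hl
  have : Nontrivial ι := Fintype.one_lt_card_iff_nontrivial.1 (by omega)
  choose j S hS using h.exists_str hl
  rcases h.fit_or_wide hn j S hS with hfit | ⟨-, hw⟩
  · exact arith j k l (fun i => (hS i).j_pos) (fun i => (hS i).j_le)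
      (fun T => h.count hn j S hS T ((sum_le_sum_of_subset (subset_univ T)).trans hfit)) ht h0
  · have h1 := h.sum_low (by omega)
    have h2 := sum_le_sum fun i (_ : i ∈ univ) => hw i
    rw [sum_add_distrib, sum_const, sum_const, card_univ, smul_eq_mul, smul_eq_mul] at h2
    have h3 := card_le_univ (spl H')
    have h4 : 2 * ((l - 1) / 2) + 1 ≤ l := by omega
    rcases ht.eq_or_lt with e | e
    · have h5 := h0 e.symm
      rw [← e] at h2 ⊢
      rcases Nat.eq_zero_or_pos k with rfl | hk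
      · exact ⟨fun _ => by omega, fun e => absurd e (by omega), fun e => absurd e (by omega)⟩
      · have := h.spl_card (by omega)
        omega
    · exfalso
      obtain ⟨r, hr⟩ : ∃ r, Fintype.card ι = 4 + r := ⟨Fintype.card ι - 4, by omega⟩
      rw [hr] at h2
      have h5 : r * ((l - 1) / 2) ≤ r * Fintype.card V := Nat.mul_le_mul_left r (by omega)
      linarith only [hn, h1, h3, h4, h2, h5]

end Pool.Agent.Work.MP_df328f_co
end

-- merged part: Pool.Agent.Work.MP_df328f_co.Two
section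
/-! Two colours: the classical diagonal Ramsey numbers of cycles (upper bounds). -/

namespace Pool.Agent.Work.MP_df328f_co

open Finset

variable {V : Type} [DecidableEq V] {R B : SimpleGraph V} {m : ℕ}

theorem HP.of_list {H : SimpleGraph V} (a : V) (l : List V) (hn : (a :: l).Nodup)
    (hc : List.IsChain H.Adj (a :: l)) :
    HP H a ((a :: l).getLast (by simp)) (a :: l).toFinset := by
  induction l generalizing a with
  | nil => simpa using HP.single a
  | cons b l ih =>
    rw [List.nodup_cons] at hn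
    rw [List.isChain_cons_cons] at hc
    have := HP.cons hc.1 (by simpa using hn.1) (ih b hn.2 hc.2)
    simpa using this

theorem hasCyc_of_list {H : SimpleGraph V} (a : V) (l : List V) (hn : (a :: l).Nodup)
    (hc : List.IsChain H.Adj (a :: l)) (h : H.Adj ((a :: l).getLast (by simp)) a) :
    HasCyc H (l.length + 1) :=
  ⟨_, _, _, HP.of_list a l hn hc, h, by rw [List.toFinset_card_of_nodup hn]; simp⟩

theorem step_odd (hc : ∀ u v, u ≠ v → R.Adj u v ∨ B.Adj u v) (hm : 7 ≤ m) (hm2 : m % 2 = 1)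
    (h : HasCyc R m) : HasCyc R (m - 1) ∨ HasCyc B (m - 1) := by
  by_contra hno
  rw [not_or] at hno
  obtain ⟨y, hy⟩ := h.exists_icyc
  have e : m - 2 + 1 = m - 1 := by omega
  have b2 : ∀ k, B.Adj (y k) (y (k + 2)) := fun k =>
    (hc _ _ (hy.ne _ _ (by omega) (by omega))).resolve_left fun h =>
      hno.1 (e ▸ hy.skip (by omega) (by omega) h)
  have r4 : ∀ k, R.Adj (y k) (y (k + 4)) := fun k =>
    (hc _ _ (hy.ne _ _ (by omega) (by omega))).resolve_right fun h =>
      hno.2 (e ▸ (hy.double_odd hm2 b2 k).skip (k := 0) (d := 2) (by omega) (by omega) (by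
        simpa [add_comm] using h))
  have b3 : B.Adj (y 0) (y (0 + 3)) :=
    (hc _ _ (hy.ne _ _ (by omega) (by omega))).resolve_left fun h =>
      hno.1 (hy.rule (by omega) (by omega) h (r4 1))
  have b5 : B.Adj (y (1 + 1)) (y (1 + 4 + 2)) :=
    (hc _ _ (hy.ne _ _ (by omega) (by omega))).resolve_left fun h =>
      hno.1 (hy.rule (by omega) (by omega) (r4 1) h)
  refine hno.2 ((hy.double_odd hm2 b2 0).rule (i := 0) (d := m / 2 + 2) (by omega) (by omega) ?_ ?_)
  · show B.Adj (y (2 * 0 + 0)) (y (2 * (0 + (m / 2 + 2)) + 0))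
    rw [show 2 * (0 + (m / 2 + 2)) + 0 = 3 + m by omega, hy.per]
    exact b3
  · show B.Adj (y (2 * (0 + 1) + 0)) (y (2 * (0 + (m / 2 + 2) + 2) + 0))
    rw [show 2 * (0 + (m / 2 + 2) + 2) + 0 = 7 + m by omega, hy.per]
    exact b5

theorem step_even (hc : ∀ u v, u ≠ v → R.Adj u v ∨ B.Adj u v) (hm : 6 ≤ m) (hm2 : m % 2 = 0)
    (h : HasCyc R m) : HasCyc R (m - 1) ∨ HasCyc B (m - 1) ∨ HasCyc R (m - 2) := by
  by_contra hno
  simp only [not_or] at hno
  obtain ⟨y, hy⟩ := h.exists_icyc
  have e : m - 2 + 1 = m - 1 := by omega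
  have e' : m - 3 + 1 = m - 2 := by omega
  have b2 : ∀ k, B.Adj (y k) (y (k + 2)) := fun k =>
    (hc _ _ (hy.ne _ _ (by omega) (by omega))).resolve_left fun h =>
      hno.1 (e ▸ hy.skip (by omega) (by omega) h)
  have b3 : ∀ k, B.Adj (y k) (y (k + 3)) := fun k =>
    (hc _ _ (hy.ne _ _ (by omega) (by omega))).resolve_left fun h =>
      hno.2.2 (e' ▸ hy.skip (by omega) (by omega) h)
  obtain ⟨q, rfl⟩ : ∃ q, m = 2 * q := ⟨m / 2, by omega⟩
  obtain ⟨s, p, cs, hs⟩ := (hy.double_even b2 0).hp 1 (r := q - 1) (by omega)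
  obtain ⟨t, p', ct, ht⟩ := (hy.double_even b2 1).hp 1 (r := q - 2) (by omega)
  have := hasCyc_join p p' (by
    rw [disjoint_left]
    intro v hv hv'
    obtain ⟨k, -, -, rfl⟩ := hs v hv
    obtain ⟨k', -, -, e⟩ := ht _ hv'
    exact hy.ne_of_parity (by omega) (by omega) e) (by
      rw [show 2 * (1 + (q - 1)) + 0 = 0 + 2 * q by omega, hy.per]
      exact b3 0) (by
      have := b3 (2 * (1 + (q - 2)) + 1)
      rwa [show 2 * (1 + (q - 2)) + 1 + 3 = 2 + 2 * q by omega, hy.per] at this)
  rw [cs, ct, show q - 1 + 1 + (q - 2 + 1) = 2 * q - 1 by omega] at this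
  exact hno.2.1 this

theorem exact_even (hc : ∀ u v, u ≠ v → R.Adj u v ∨ B.Adj u v) {l : ℕ} (hl : 6 ≤ l) (hl2 : l % 2 = 0)
    (hm : l ≤ m) (h : HasCyc R m ∨ HasCyc B m) : HasCyc R l ∨ HasCyc B l := by
  induction m using Nat.strong_induction_on with
  | _ m ih =>
    have hc' : ∀ u v, u ≠ v → B.Adj u v ∨ R.Adj u v := fun u v huv => (hc u v huv).symm
    rcases hm.eq_or_lt with rfl | hlt
    · exact h
    rcases Nat.mod_two_eq_zero_or_one m with hm2 | hm2
    · rcases h with h | h
      · rcases step_even hc (by omega) hm2 h with h | h | h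
        · exact ih (m - 1) (by omega) (by omega) (Or.inl h)
        · exact ih (m - 1) (by omega) (by omega) (Or.inr h)
        · exact ih (m - 2) (by omega) (by omega) (Or.inl h)
      · rcases step_even hc' (by omega) hm2 h with h | h | h
        · exact ih (m - 1) (by omega) (by omega) (Or.inr h)
        · exact ih (m - 1) (by omega) (by omega) (Or.inl h)
        · exact ih (m - 2) (by omega) (by omega) (Or.inr h)
    · rcases h with h | h
      · exact ih (m - 1) (by omega) (by omega) (step_odd hc (by omega) hm2 h)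
      · exact ih (m - 1) (by omega) (by omega) (step_odd hc' (by omega) hm2 h).symm

variable [Fintype V]

omit [DecidableEq V] [Fintype V] in
theorem dg_double (G : SimpleGraph V) (P Q : Finset V) :
    ∑ v ∈ P, dg G Q v = ∑ w ∈ Q, dg G P w := by
  classical
  simp only [dg, nb, card_filter]
  rw [sum_comm]
  refine sum_congr rfl fun w _ => sum_congr rfl fun v _ => ?_
  simp only [G.adj_comm]

theorem special_eight {H : Fin 2 → SimpleGraph V} (h : Bad H 6) (hn : Fintype.card V = 8)
    (S : Fin 2 → Finset V) (hS : ∀ i, Str (H i) 6 2 (S i)) : False := by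
  have hsp : spl H = ∅ := by
    rw [eq_empty_iff_forall_notMem]
    intro v hv
    obtain ⟨α, β, hs⟩ := mem_spl.1 hv
    have := hs.2.1
    omega
  have h1 := h.sum_low (by omega)
  rw [hsp, Fin.sum_univ_two, card_empty] at h1
  have h2 := (hS 0).low_card (h.nolong 0) (h.sat 0)
  have h3 := (hS 1).low_card (h.nolong 1) (h.sat 1)
  have hd : Disjoint (low (H 0)) (low (H 1)) := by
    rw [disjoint_left]
    intro v hv hv'
    have : v ∈ spl H := mem_spl.2 ⟨0, 1, h.split_of_low (by decide) hv hv'⟩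
    rw [hsp] at this
    simp at this
  have c0 := card_add_card_compl (low (H 0))
  have c1 := card_add_card_compl (low (H 1))
  have e0 : low (H 1) = (low (H 0))ᶜ :=
    eq_of_subset_of_card_le (subset_compl_iff_disjoint_left.2 hd) (by omega)
  have e1 : low (H 0) = (low (H 1))ᶜ := by rw [e0, compl_compl]
  have hSi : ∀ i, (low (H i))ᶜ.card = 4 → ∀ v ∈ low (H i), dg (lite (H i)) (low (H i))ᶜ v ≤ 2 := by
    intro i hi v hv
    have a1 := (hS i).clq _ (clq_high (h.nolong i) (h.sat i)) (by omega)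
    have a2 := (hS i).card_le
    have a3 := eq_of_subset_of_card_le a1 (by omega)
    have a4 : v ∉ S i := by rw [← a3]; simpa using hv
    obtain ⟨w, hw, hwS, hd⟩ := (hS i).dis (insert v (S i)) (ssubset_insert a4)
    have : w = v := by simpa [hwS] using hw
    rw [a3]
    exact (dg_mono (subset_insert _ _) v).trans (this ▸ hd)
  have hQ := clq_high (h.nolong 0) (h.sat 0)
  have d0 := hSi 0 (by omega)
  have d1 := hSi 1 (by omega)
  rw [← e0] at hQ d0
  rw [← e1] at d1
  have cP : (low (H 0)).card = 4 := by omega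
  have cQ : (low (H 1)).card = 4 := by omega
  generalize low (H 0) = P at *
  generalize low (H 1) = Q at *
  have d2 : ∀ w ∈ Q, 2 ≤ dg (lite (H 0)) P w := by
    intro w hw
    have a1 : P ⊆ nb (lite (H 0)) P w ∪ nb (lite (H 1)) P w := by
      intro v hv
      simp only [mem_union, mem_nb, hv, true_and]
      exact h.lite_cover (by decide) fun e => disjoint_left.1 hd hv (e ▸ hw)
    have a2 := (card_le_card a1).trans (card_union_le _ _)
    have a3 := d1 w hw
    unfold dg at *
    omega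
  have d3 : ∀ v ∈ P, dg (lite (H 0)) Q v = 2 := by
    intro v hv
    by_contra hne
    have a1 := dg_double (lite (H 0)) P Q
    have a2 := sum_le_sum d2
    have a3 := sum_lt_sum d0 ⟨v, hv, lt_of_le_of_ne (d0 v hv) hne⟩
    simp only [sum_const, smul_eq_mul] at a2 a3
    omega
  obtain ⟨x, hx⟩ : P.Nonempty := card_pos.1 (by omega)
  obtain ⟨a, b, hab, hxab⟩ := card_eq_two.1 (d3 x hx)
  have ha : a ∈ nb (lite (H 0)) Q x := by rw [hxab]; simp
  have hb : b ∈ nb (lite (H 0)) Q x := by rw [hxab]; simp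
  rw [mem_nb] at ha hb
  obtain ⟨c, d, hcd, hcd'⟩ := card_eq_two.1 (show (Q \ {a, b}).card = 2 by
    rw [card_sdiff_of_subset (by intro v hv; simp only [mem_insert, mem_singleton] at hv; rcases hv with rfl | rfl; exacts [ha.1, hb.1]), card_pair hab]
    omega)
  have hc : c ∈ Q \ {a, b} := by rw [hcd']; simp
  have hdd : d ∈ Q \ {a, b} := by rw [hcd']; simp
  simp only [mem_sdiff, mem_insert, mem_singleton, not_or] at hc hdd
  obtain ⟨y, hy⟩ : (nb (lite (H 0)) P c).Nonempty := card_pos.1 (by have := d2 c hc.1; unfold dg at this; omega)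
  rw [mem_nb] at hy
  have hyx : y ≠ x := by
    rintro rfl
    have : c ∈ nb (lite (H 0)) Q y := mem_nb.2 ⟨hc.1, hy.2.symm⟩
    rw [hxab] at this
    simp only [mem_insert, mem_singleton] at this
    tauto
  obtain ⟨e, he, hec⟩ := exists_mem_ne (s := nb (lite (H 0)) Q y) (by have := d3 y hy.1; unfold dg at this; omega) c
  rw [mem_nb] at he
  have nPQ : ∀ v ∈ P, ∀ w ∈ Q, v ≠ w := fun v hv w hw e => disjoint_left.1 hd hv (e ▸ hw)
  have xa := ha.2.1
  have xb := hb.2.1
  have cy := hy.2.1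
  have ye := he.2.1
  have n1 := nPQ x hx a ha.1
  have n2 := nPQ x hx b hb.1
  have n3 := nPQ x hx c hc.1
  have n4 := nPQ x hx d hdd.1
  have n5 := nPQ y hy.1 a ha.1
  have n6 := nPQ y hy.1 b hb.1
  have n7 := nPQ y hy.1 c hc.1
  have n8 := nPQ y hy.1 d hdd.1
  have n9 := hc.2.1
  have n10 := hc.2.2
  have n11 := hdd.2.1
  have n12 := hdd.2.2
  have he4 : e = a ∨ e = b ∨ e = d := by
    by_contra hcon
    simp only [not_or] at hcon
    have : e ∈ Q \ {a, b} := by simp [he.1, hcon.1, hcon.2.1]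
    rw [hcd'] at this
    simp only [mem_insert, mem_singleton] at this
    tauto
  have fin : ¬ HasCyc (H 0) 6 := fun hh => absurd ((h.nolong 0).lt_of_hasCyc hh) (by omega)
  rcases he4 with rfl | rfl | rfl
  · refine fin (hasCyc_of_list b [x, e, y, c, d] (by simp; (clear * - ha hab hb hc hcd hdd he hec hx hy hyx n1 n10 n11 n12 n3 n4 n7 n8 nPQ; grind)) ?_ (hQ d hdd.1 b hb.1 n12))
    simp only [List.isChain_cons_cons, List.isChain_singleton, and_true]
    exact ⟨xb.symm, xa, ye.symm, cy.symm, hQ c hc.1 d hdd.1 hcd⟩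
  · refine fin (hasCyc_of_list a [x, e, y, c, d] (by simp; (clear * - ha hab hb hc hcd hdd he hec hx hy hyx n11 n12 n2 n3 n4 n7 n8 n9 nPQ; grind)) ?_ (hQ d hdd.1 a ha.1 n11))
    simp only [List.isChain_cons_cons, List.isChain_singleton, and_true]
    exact ⟨xa.symm, xb, ye.symm, cy.symm, hQ c hc.1 d hdd.1 hcd⟩
  · refine fin (hasCyc_of_list a [x, b, c, y, e] (by simp; (clear * - ha hab hb hc hcd hdd he hx hy hyx n10 n11 n12 n2 n3 n4 n8 n9 nPQ; grind)) ?_ (hQ e hdd.1 a ha.1 n11))
    simp only [List.isChain_cons_cons, List.isChain_singleton, and_true]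
    exact ⟨xa.symm, xb, hQ b hb.1 c hc.1 (Ne.symm n10), cy, ye⟩

theorem special_eleven {H : Fin 2 → SimpleGraph V} (h : Bad H 8) (hn : Fintype.card V = 11)
    (hZ : (spl H).card = 5) (hB : (low (H 0))ᶜ.card = 3) : False := by
  have hs : ∀ z ∈ spl H, Split H z 0 1 := by
    intro z hz
    obtain ⟨α, β, hs⟩ := mem_spl.1 hz
    fin_cases α <;> fin_cases β
    · exact absurd rfl hs.1
    · exact hs
    · exact hs.symm
    · exact absurd rfl hs.1
  have pair : ∀ T ⊆ spl H, 3 ≤ T.card → ∃ u ∈ T, ∃ v ∈ T, (H 0).Adj u v := by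
    intro T hT hc
    obtain ⟨a, ha, b, hb, c, hc, hab, hac, hbc⟩ := two_lt_card.1 hc
    by_cases h1 : (H 0).Adj a b
    · exact ⟨a, ha, b, hb, h1⟩
    by_cases h2 : (H 0).Adj a c
    · exact ⟨a, ha, c, hc, h2⟩
    exact ⟨b, hb, c, hc, h.no_three (by omega) (hs a (hT ha)) (hs b (hT hb)) (hs c (hT hc))
      hab hac hbc h1 h2⟩
  obtain ⟨z1, h1, z2, h2, a12⟩ := pair _ subset_rfl (by omega)
  have c1 := card_erase_add_one h1
  have h2' : z2 ∈ (spl H).erase z1 := mem_erase.2 ⟨a12.ne.symm, h2⟩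
  have c2 := card_erase_add_one h2'
  obtain ⟨z3, h3, z4, h4, a34⟩ := pair (((spl H).erase z1).erase z2)
    ((erase_subset _ _).trans (erase_subset _ _)) (by omega)
  have c3 := card_erase_add_one h3
  have h4' : z4 ∈ (((spl H).erase z1).erase z2).erase z3 := mem_erase.2 ⟨a34.ne.symm, h4⟩
  have c4 := card_erase_add_one h4'
  obtain ⟨z5, h5⟩ : (((((spl H).erase z1).erase z2).erase z3).erase z4).Nonempty :=
    card_pos.1 (by omega)
  simp only [mem_erase] at h3 h4 h5
  obtain ⟨b1, b2, b3, n12, n13, n23, hb⟩ := card_eq_three.1 hB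
  have ad : ∀ z ∈ spl H, ∀ b ∈ ({b1, b2, b3} : Finset V), (H 0).Adj z b := fun z hz b hb' =>
    adj_high (h.nolong 0) (h.sat 0) (hs z hz).2.1 (hb ▸ hb')
  have k1 := fun z hz => ad z hz b1 (by simp)
  have k2 := fun z hz => ad z hz b2 (by simp)
  have k3 := fun z hz => ad z hz b3 (by simp)
  have m1 := (k1 z1 h1).ne
  have m2 := (k2 z1 h1).ne
  have m3 := (k3 z1 h1).ne
  have m4 := (k1 z2 h2).ne
  have m5 := (k2 z2 h2).ne
  have m6 := (k3 z2 h2).ne
  have m7 := (k1 z3 h3.2.2).ne
  have m8 := (k2 z3 h3.2.2).ne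
  have m9 := (k3 z3 h3.2.2).ne
  have m10 := (k1 z4 h4.2.2).ne
  have m11 := (k2 z4 h4.2.2).ne
  have m12 := (k3 z4 h4.2.2).ne
  have m13 := (k1 z5 h5.2.2.2.2).ne
  have m14 := (k2 z5 h5.2.2.2.2).ne
  have m15 := (k3 z5 h5.2.2.2.2).ne
  have m16 := a12.ne
  have m17 := a34.ne
  have := (h.nolong 0).lt_of_hasCyc (hasCyc_of_list z1 [z2, b1, z3, z4, b2, z5, b3]
    (by simp only [List.nodup_cons, List.mem_cons, List.not_mem_nil, not_or, List.nodup_nil]; (clear * - h3 h4 h5 m1 m10 m11 m12 m13 m14 m15 m16 m17 m2 m3 m4 m5 m6 m7 m8 m9 n12 n13 n23; grind))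
    (by
      simp only [List.isChain_cons_cons, List.isChain_singleton, and_true]
      exact ⟨a12, k1 z2 h2, (k1 z3 h3.2.2).symm, a34, k2 z4 h4.2.2, (k2 z5 h5.2.2.2.2).symm,
        k3 z5 h5.2.2.2.2⟩) (k3 z1 h1).symm)
  simp at this

theorem long_two {H : Fin 2 → SimpleGraph V} {k : ℕ}
    (hc : ∀ i i', i ≠ i' → ∀ u v, u ≠ v → (H i).Adj u v ∨ (H i').Adj u v)
    (hN : ∀ i, NoLong (H i) (2 * k + 2)) (hn : Fintype.card V = 2 * k + 2 + k) (hk : 2 ≤ k) :
    False := by
  obtain ⟨H', h⟩ := exists_bad hc hN (by omega)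
  choose j S hS using h.exists_str (by omega)
  rcases h.fit_or_wide hn j S hS with hfit | ⟨⟨z, hz⟩, hw⟩
  · have h1 := h.count hn j S hS univ hfit
    simp only [rr, sg, Fin.sum_univ_two] at h1 hfit
    have a1 := (hS 0).j_pos
    have a2 := (hS 1).j_pos
    have a3 := (hS 0).j_le
    have a4 := (hS 1).j_le
    push_cast at h1
    have b1 : (0 : ℤ) ≤ k - j 0 := by omega
    have b2 : (0 : ℤ) ≤ k - j 1 := by omega
    have b3 : (0 : ℤ) ≤ (k - j 0) * (j 0 - 1) := mul_nonneg b1 (by omega)
    have b4 : (0 : ℤ) ≤ (k - j 1) * (j 1 - 1) := mul_nonneg b2 (by omega)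
    have b5 := mul_nonneg b1 b2
    have b6 : (k : ℤ) - j 0 + (k - j 1) ≤ 0 := by (clear * - b3 b4 b5 h1; linarith only [h1, b3, b4, b5])
    have e0 : j 0 = 2 := by omega
    have e1 : j 1 = 2 := by omega
    have e2 : k = 2 := by omega
    subst e2
    refine special_eight h hn S fun i => ?_
    have := hS i
    have e3 : j i = 2 := by
      fin_cases i
      · exact e0
      · exact e1
    rwa [e3] at this
  · have h1 := h.sum_low (by omega)
    have h2 := h.spl_card (by omega)
    rw [Fin.sum_univ_two] at h1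
    have h3 := hw 0
    have h4 := hw 1
    obtain ⟨α, β, hs⟩ := mem_spl.1 hz
    have h5 := hs.2.1
    have h6 := card_add_card_compl (low (H' 0))
    have e2 : k = 3 := by omega
    subst e2
    exact special_eleven h hn (by omega) (by omega)

theorem odd_finish (hc : ∀ u v, u ≠ v → R.Adj u v ∨ B.Adj u v) {q : ℕ} (hq : 3 ≤ q)
    (hn : Fintype.card V + 3 = 4 * q) {X Y : Finset V} (hd : Disjoint X Y) (cX : X.card = q)
    (cY : Y.card = q) (hX : Clq B X) (hY : Clq B Y) {c b1 b2 : V} (hcX : c ∈ X) (hb1 : b1 ∈ Y)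
    (hb2 : b2 ∈ Y) (hb : b1 ≠ b2) (r1 : R.Adj c b1) (r2 : R.Adj c b2)
    (hXY : ∀ a ∈ X, a ≠ c → ∀ b ∈ Y, R.Adj a b) : HasCyc R (2 * q - 1) ∨ HasCyc B (2 * q - 1) := by
  classical
  by_contra hno
  rw [not_or] at hno
  have e : 2 * (q - 1) + 1 = 2 * q - 1 := by omega
  have cW := card_add_card_compl (X ∪ Y)
  rw [card_union_of_disjoint hd] at cW
  have cF := card_filter_add_card_filter_not (s := (X ∪ Y)ᶜ) (fun w => ∀ b ∈ Y, B.Adj b w)
  have plus : ∀ Z W : Finset V, Z ⊆ X ∪ Y → W ⊆ (X ∪ Y)ᶜ → Z.card = q → Clq B Z →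
      (∀ z ∈ Z, ∀ w ∈ W, B.Adj z w) → W.card < q - 1 := by
    intro Z W hZ hW cZ hZc hZW
    by_contra hcon
    obtain ⟨u, hu, v, hv, huv⟩ := one_lt_card.1 (show 1 < Z.card by omega)
    refine hno.2 (e ▸ hasCyc_bip_plus Z W ?_ hZW (by omega) (by omega) (by omega) hu hv
      (hZc u hu v hv huv))
    rw [disjoint_left]
    exact fun z hz hz' => mem_compl.1 (hW hz') (hZ hz)
  have p1 := plus Y ((X ∪ Y)ᶜ.filter fun w => ∀ b ∈ Y, B.Adj b w) subset_union_right
    (filter_subset _ _) cY hY fun z hz w hw => (mem_filter.1 hw).2 z hz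
  have c1 := card_erase_add_one hcX
  have p2 := plus X ((X ∪ Y)ᶜ.filter fun w => ¬ ∀ b ∈ Y, B.Adj b w) subset_union_left
    (filter_subset _ _) cX hX (by
      intro a ha w hw
      obtain ⟨hw1, hw2⟩ := mem_filter.1 hw
      push Not at hw2
      obtain ⟨b, hbY, hbw⟩ := hw2
      rw [mem_compl, mem_union, not_or] at hw1
      have rb : R.Adj b w := (hc b w fun e => hw1.2 (e ▸ hbY)).resolve_right hbw
      refine (hc a w fun e => hw1.1 (e ▸ ha)).resolve_left fun ra => hno.1 ?_
      by_cases hac : a = c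
      · subst hac
        obtain ⟨b', hb'Y, hb'b, rb'⟩ : ∃ b' ∈ Y, b' ≠ b ∧ R.Adj a b' := by
          by_cases h1 : b1 = b
          · exact ⟨b2, hb2, fun e => hb (h1.trans e.symm), r2⟩
          · exact ⟨b1, hb1, h1, r1⟩
        obtain ⟨X', hX', cX'⟩ := exists_subset_card_eq (s := X.erase a) (n := q - 2) (by omega)
        have c2 := card_erase_add_one hb'Y
        obtain ⟨Y', hY1, hY', cY'⟩ := exists_subsuperset_card_eq (s := {b}) (t := Y.erase b')
          (n := q - 2) (by simpa using ⟨hb'b.symm, hbY⟩) (by simp; omega) (by omega)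
        obtain ⟨a0, ha0⟩ : X'.Nonempty := card_pos.1 (by omega)
        have sX : ∀ v ∈ X', v ≠ a ∧ v ∈ X := fun v hv => mem_erase.1 (hX' hv)
        have sY : ∀ v ∈ Y', v ≠ b' ∧ v ∈ Y := fun v hv => mem_erase.1 (hY' hv)
        have hd' : Disjoint X' Y' :=
          hd.mono (fun v hv => (sX v hv).2) (fun v hv => (sY v hv).2)
        have P1 := HP.of_bip X' Y' hd' (fun x hx y hy => hXY x (sX x hx).2 (sX x hx).1 y (sY y hy).2)
          (by omega) ha0 (hY1 (mem_singleton_self b))
        have n1 : b' ∉ X' ∪ Y' := by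
          rw [mem_union, not_or]
          exact ⟨fun e => disjoint_left.1 hd (sX _ e).2 hb'Y, fun e => (sY _ e).1 rfl⟩
        have n2 : a ∉ insert b' (X' ∪ Y') := by
          rw [mem_insert, mem_union, not_or, not_or]
          exact ⟨rb'.ne, fun e => (sX _ e).1 rfl, fun e => disjoint_left.1 hd ha (sY _ e).2⟩
        have n3 : w ∉ insert a (insert b' (X' ∪ Y')) := by
          rw [mem_insert, mem_insert, mem_union, not_or, not_or, not_or]
          exact ⟨ra.ne.symm, fun e => hw1.2 (e ▸ hb'Y), fun e => hw1.1 (sX _ e).2,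
            fun e => hw1.2 (sY _ e).2⟩
        have P2 := (HP.cons rb' n2 (HP.cons (hXY a0 (sX _ ha0).2 (sX _ ha0).1 b' hb'Y).symm n1 P1)).snoc
          rb n3
        refine ⟨_, _, _, P2, ra.symm, ?_⟩
        rw [card_insert_of_notMem n3, card_insert_of_notMem n2, card_insert_of_notMem n1,
          card_union_of_disjoint hd']
        omega
      · obtain ⟨Y', hY1, hY', cY'⟩ := exists_subsuperset_card_eq (s := {b}) (t := Y)
          (n := q - 1) (by simpa using hbY) (by simp; omega) (by omega)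
        have hd' : Disjoint (X.erase c) Y' := hd.mono (erase_subset _ _) hY'
        have P1 := HP.of_bip (X.erase c) Y' hd'
          (fun x hx y hy => hXY x (mem_erase.1 hx).2 (mem_erase.1 hx).1 y (hY' hy))
          (by omega) (mem_erase.2 ⟨hac, ha⟩) (hY1 (mem_singleton_self b))
        have n3 : w ∉ X.erase c ∪ Y' := by
          rw [mem_union, not_or]
          exact ⟨fun e => hw1.1 (mem_of_mem_erase e), fun e => hw1.2 (hY' e)⟩
        refine ⟨_, _, _, P1.snoc rb n3, ra.symm, ?_⟩
        rw [card_insert_of_notMem n3, card_union_of_disjoint hd']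
        omega)
  omega

theorem step_to_odd (hc : ∀ u v, u ≠ v → R.Adj u v ∨ B.Adj u v) {q : ℕ} (hq : 3 ≤ q)
    (hn : Fintype.card V + 3 = 4 * q) (h : HasCyc R (2 * q)) :
    HasCyc R (2 * q - 1) ∨ HasCyc B (2 * q - 1) := by
  by_contra hno
  have hno' := hno
  rw [not_or] at hno
  obtain ⟨y, hy⟩ := h.exists_icyc
  have hq0 : 0 < q := by omega
  have e : 2 * q - 2 + 1 = 2 * q - 1 := by omega
  have b2 : ∀ k, B.Adj (y k) (y (k + 2)) := fun k =>
    (hc _ _ (hy.ne _ _ (by omega) (by omega))).resolve_left fun h =>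
      hno.1 (e ▸ hy.skip (by omega) (by omega) h)
  have brule : ∀ i j, (i + j) % 2 = 1 → B.Adj (y j) (y i) → B.Adj (y (j + 2)) (y (i + 4)) → False := by
    intro i j hij h1 h2
    refine hno.2 ((hy.double_even b2 j).two (hy.double_even b2 i) (by omega)
      (fun a' b' => hy.ne_of_parity hq0 (by omega)) (by simpa using h1) ?_)
    simpa [add_comm] using h2
  have inside : ∀ s d, d % 2 = 0 → d + 4 ≤ 2 * q → ¬ R.Adj (y (s + 1)) (y (s + d + 3)) := by
    intro s d hd2 hd hR
    refine brule (s + (d + 1)) s (by omega) ?_ ?_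
    · refine (hc _ _ (hy.ne _ _ (by omega) (by omega))).resolve_left fun h => hno.1 ?_
      exact hy.rule (by omega) (by omega) h (by rwa [show s + (d + 1) + 2 = s + d + 3 by omega])
    · refine (hc _ _ (hy.ne _ _ (by omega) (by omega))).resolve_left fun h => hno.1 ?_
      refine hy.rule (i := s + 1) (d := d + 2) (by omega) (by omega)
        (by rwa [show s + 1 + (d + 2) = s + d + 3 by omega]) ?_
      rwa [show s + 1 + (d + 2) + 2 = s + (d + 1) + 4 by omega]
  have hB : ∀ c, Clq B (cls y q c) := by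
    intro c
    have key : ∀ a b, a < b → b < q → B.Adj (y (2 * a + c)) (y (2 * b + c)) := by
      intro a b hab hb
      refine (hc _ _ (hy.ne _ _ (by omega) (by omega))).resolve_left fun h => ?_
      refine inside (2 * a + c + 2 * q - 1) (2 * (b - a) - 2) (by omega) (by omega) ?_
      rwa [show 2 * a + c + 2 * q - 1 + 1 = 2 * a + c + 2 * q by omega,
        show 2 * a + c + 2 * q - 1 + (2 * (b - a) - 2) + 3 = 2 * b + c + 2 * q by omega,
        hy.per, hy.per]
    intro u hu v hv huv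
    obtain ⟨a, ha, rfl⟩ := (mem_cls hq0).1 hu
    obtain ⟨b, hb, rfl⟩ := (mem_cls hq0).1 hv
    rcases lt_trichotomy a b with h1 | h1 | h1
    · exact key a b h1 hb
    · exact absurd (by rw [h1]) huv
    · exact (key b a h1 ha).symm
  have hd : Disjoint (cls y q 0) (cls y q 1) := hy.disj_cls hq0 0
  have cE := hy.card_cls (by omega) 0
  have cO := hy.card_cls (by omega) 1
  have nodis : ∀ a ∈ cls y q 0, ∀ a' ∈ cls y q 0, ∀ b ∈ cls y q 1, ∀ b' ∈ cls y q 1,
      B.Adj a b → B.Adj a' b' → a = a' ∨ b = b' := by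
    intro a ha a' ha' b hb b' hb' h1 h2
    by_contra hcon
    rw [not_or] at hcon
    have := hasCyc_cliques hd (hB 0) (hB 1) ha ha' hb hb' hcon.1 hcon.2 h1 h2 (r := q) (r' := q - 1)
      (by omega) (by omega) (by omega) (by omega)
    rw [show q + (q - 1) = 2 * q - 1 by omega] at this
    exact hno.2 this
  have nEO : ∀ a ∈ cls y q 0, ∀ b ∈ cls y q 1, a ≠ b := fun a ha b hb e =>
    disjoint_left.1 hd ha (e ▸ hb)
  have mE : ∀ k, k % 2 = 0 → k ≤ 2 * q → y k ∈ cls y q 0 := by
    intro k h1 h2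
    rcases h2.eq_or_lt with rfl | h2
    · exact (mem_cls hq0).2 ⟨0, hq0, by simpa using (hy.per 0).symm⟩
    · exact (mem_cls hq0).2 ⟨k / 2, by omega, by congr 1; omega⟩
  have mO : ∀ k, k % 2 = 1 → k < 4 * q → y k ∈ cls y q 1 := by
    intro k h1 h2
    by_cases h3 : k < 2 * q
    · exact (mem_cls hq0).2 ⟨k / 2, by omega, by congr 1; omega⟩
    · refine (mem_cls hq0).2 ⟨(k - 2 * q) / 2, by omega, ?_⟩
      rw [← hy.per]
      congr 1
      omega
  have finE : ∀ c ∈ cls y q 0, (∀ a ∈ cls y q 0, a ≠ c → ∀ b ∈ cls y q 1, ¬ B.Adj a b) → False := by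
    intro c hcE hall
    obtain ⟨k, hk, rfl⟩ := (mem_cls hq0).1 hcE
    refine hno' (odd_finish hc hq hn hd cE cO (hB 0) (hB 1) hcE
      (mO (2 * k + 0 + 1) (by omega) (by omega)) (mO (2 * k + 2 * q - 1) (by omega) (by omega))
      (hy.ne _ _ (by omega) (by omega)) (hy.adj _) ?_
      fun a ha hac b hb => (hc a b (nEO a ha b hb)).resolve_right (hall a ha hac b hb))
    have := hy.adj (2 * k + 2 * q - 1)
    rw [show 2 * k + 2 * q - 1 + 1 = 2 * k + 0 + 2 * q by omega, hy.per] at this
    exact this.symm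
  have finO : ∀ c ∈ cls y q 1, (∀ b ∈ cls y q 1, b ≠ c → ∀ a ∈ cls y q 0, ¬ B.Adj a b) → False := by
    intro c hcO hall
    obtain ⟨k, hk, rfl⟩ := (mem_cls hq0).1 hcO
    exact hno' (odd_finish hc hq hn hd.symm cO cE (hB 1) (hB 0) hcO
      (mE (2 * k) (by omega) (by omega)) (mE (2 * k + 1 + 1) (by omega) (by omega))
      (hy.ne _ _ (by omega) (by omega)) (hy.adj _).symm (hy.adj _)
      fun b hb hbc a ha => ((hc a b (nEO a ha b hb)).resolve_right (hall b hb hbc a ha)).symm)
  by_cases hex : ∃ a ∈ cls y q 0, ∃ b ∈ cls y q 1, B.Adj a b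
  · obtain ⟨a, ha, b, hb, hab⟩ := hex
    refine finE a ha fun a' ha' haa b' hb' hab' => ?_
    have e1 : b' = b := (nodis a' ha' a ha b' hb' b hb hab' hab).resolve_left haa
    subst e1
    refine finO b' hb fun b'' hb'' hbb a'' ha'' h'' => ?_
    have e2 := (nodis a'' ha'' a ha b'' hb'' b' hb h'' hab).resolve_right hbb
    have e3 := (nodis a'' ha'' a' ha' b'' hb'' b' hb h'' hab').resolve_right hbb
    exact haa (e3.symm.trans e2)
  · push Not at hex
    exact finE _ (mE 0 rfl (by omega)) fun a ha _ b hb => hex a ha b hb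

end Pool.Agent.Work.MP_df328f_co
end

-- merged part: Pool.Agent.Work.MP_df328f_co.Bridge
section
/-! Translation between walks and vertex-set paths, and the lower-bound constructions. -/

namespace Pool.Agent.Work.MP_df328f_co

open Finset

variable {V : Type} {ι : Type}

/-- The graph of the edges whose colour is not `i`. -/
def avoid (c : Sym2 V → ι) (i : ι) : SimpleGraph V where
  Adj u v := u ≠ v ∧ c s(u, v) ≠ i
  symm := ⟨fun u v h => ⟨h.1.symm, by rw [Sym2.eq_swap]; exact h.2⟩⟩
  loopless := ⟨fun _ h => h.1 rfl⟩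

theorem avoid_cover (c : Sym2 V → ι) (i i' : ι) (hi : i ≠ i') (u v : V) (huv : u ≠ v) :
    (avoid c i).Adj u v ∨ (avoid c i').Adj u v := by
  by_cases h : c s(u, v) = i
  · exact Or.inr ⟨huv, h ▸ hi⟩
  · exact Or.inl ⟨huv, h⟩

def Arr (t l n : ℕ) : Prop := ∀ c : Sym2 (Fin n) → Fin t, ∃ i, HasCyc (avoid c i) l

variable [DecidableEq V]

theorem hp_of_walk (c : Sym2 V → ι) (i : ι) {a b : V} (p : (⊤ : SimpleGraph V).Walk a b)
    (hp : p.IsPath) (he : ∀ e ∈ p.edges, c e ≠ i) : HP (avoid c i) a b p.support.toFinset := by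
  induction p with
  | nil => simpa using HP.single _
  | @cons u v w h q ih =>
    rw [SimpleGraph.Walk.cons_isPath_iff] at hp
    simp only [SimpleGraph.Walk.edges_cons, List.mem_cons, forall_eq_or_imp] at he
    have := HP.cons (H := avoid c i) ⟨h.ne, he.1⟩ (by simpa using hp.2) (ih hp.1 he.2)
    simpa using this

theorem walk_of_hp (c : Sym2 V → ι) (i : ι) {a b : V} {s : Finset V} (h : HP (avoid c i) a b s) :
    ∃ p : (⊤ : SimpleGraph V).Walk a b, p.IsPath ∧ p.length + 1 = s.card ∧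
      p.support.toFinset = s ∧ ∀ e ∈ p.edges, c e ≠ i := by
  induction h with
  | single a => exact ⟨SimpleGraph.Walk.nil, by simp, by simp, by simp, by simp⟩
  | @cons a b d s h1 h2 _ ih =>
    obtain ⟨p, p1, p2, p3, p4⟩ := ih
    refine ⟨SimpleGraph.Walk.cons h1.1 p, ?_, ?_, ?_, ?_⟩
    · rw [SimpleGraph.Walk.cons_isPath_iff]
      exact ⟨p1, fun e => h2 (p3 ▸ List.mem_toFinset.2 e)⟩
    · rw [card_insert_of_notMem h2, SimpleGraph.Walk.length_cons, p2]
    · simp [p3]
    · simp only [SimpleGraph.Walk.edges_cons, List.mem_cons, forall_eq_or_imp]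
      exact ⟨h1.2, p4⟩

theorem arrows_iff {t l n : ℕ} (ht : 1 ≤ t) (hl : 3 ≤ l) : Arrows t l n ↔ Arr t l n := by
  constructor
  · intro h c
    obtain ⟨v, p, hp, hlen, hc⟩ := h c
    obtain ⟨i, hi⟩ : ∃ i, i ∉ (p.edges.map c).toFinset := by
      by_contra hall
      push Not at hall
      rw [eq_univ_of_forall hall, card_univ, Fintype.card_fin] at hc
      omega
    have he : ∀ e ∈ p.edges, c e ≠ i := fun e he h =>
      hi (List.mem_toFinset.2 (List.mem_map.2 ⟨e, he, h⟩))
    cases p with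
    | nil => simp at hlen; omega
    | cons h q =>
      rw [SimpleGraph.Walk.cons_isCycle_iff] at hp
      simp only [SimpleGraph.Walk.edges_cons, List.mem_cons, forall_eq_or_imp] at he
      refine ⟨i, _, _, _, hp_of_walk c i q hp.1 he.2, ⟨h.ne, he.1⟩, ?_⟩
      rw [List.toFinset_card_of_nodup hp.1.support_nodup, SimpleGraph.Walk.length_support]
      simpa using hlen
  · intro h c
    obtain ⟨i, a, b, s, hp, hba, hs⟩ := h c
    obtain ⟨p, p1, p2, -, p4⟩ := walk_of_hp c i hp
    refine ⟨b, SimpleGraph.Walk.cons hba.1 p, ?_, ?_, ?_⟩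
    · rw [SimpleGraph.Walk.cons_isCycle_iff]
      refine ⟨p1, fun e => ?_⟩
      rw [Sym2.eq_swap] at e
      have := p1.length_eq_one_of_mem_edges e
      omega
    · rw [SimpleGraph.Walk.length_cons]
      omega
    · have : ((SimpleGraph.Walk.cons hba.1 p : (⊤ : SimpleGraph (Fin n)).Walk b b).edges.map c).toFinset
          ⊆ univ.erase i := by
        intro x hx
        obtain ⟨e, he, rfl⟩ := List.mem_map.1 (List.mem_toFinset.1 hx)
        simp only [SimpleGraph.Walk.edges_cons, List.mem_cons] at he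
        rcases he with rfl | he
        · exact mem_erase.2 ⟨hba.2, mem_univ _⟩
        · exact mem_erase.2 ⟨p4 e he, mem_univ _⟩
      have h2 := card_le_card this
      rwa [card_erase_of_mem (mem_univ i), card_univ, Fintype.card_fin] at h2

theorem HP.map {W : Type} [DecidableEq W] {G : SimpleGraph W} {H : SimpleGraph V} (f : W ↪ V)
    (hf : ∀ a b, G.Adj a b → H.Adj (f a) (f b)) {a b : W} {s : Finset W} (h : HP G a b s) :
    HP H (f a) (f b) (s.map f) := by
  induction h with
  | single a => simpa using HP.single (f a)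
  | cons h1 h2 _ ih =>
    rw [map_insert]
    exact HP.cons (hf _ _ h1) (by simpa using h2) ih

theorem Arr.mono {t l n n' : ℕ} (hn : n ≤ n') (h : Arr t l n) : Arr t l n' := by
  intro c
  obtain ⟨i, a, b, s, hp, hba, hs⟩ := h fun e => c (e.map (Fin.castLEEmb hn))
  have hf : ∀ a b, (avoid (fun e => c (e.map (Fin.castLEEmb hn))) i).Adj a b →
      (avoid c i).Adj (Fin.castLEEmb hn a) (Fin.castLEEmb hn b) := fun a b hab =>
    ⟨fun e => hab.1 ((Fin.castLEEmb hn).injective e), hab.2⟩
  exact ⟨i, _, _, _, hp.map _ hf, hf _ _ hba, by rw [card_map, hs]⟩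

theorem isLeast_of {t l N : ℕ} (ht : 1 ≤ t) (hl : 3 ≤ l) (h1 : Arr t l (N + 1)) (h2 : ¬ Arr t l N) :
    IsLeast {n | Arrows t l n} (N + 1) := by
  refine ⟨(arrows_iff ht hl).2 h1, fun n hn => ?_⟩
  by_contra hcon
  exact h2 (((arrows_iff ht hl).1 hn).mono (by omega))

variable [Fintype V] {H : SimpleGraph V} {l k : ℕ}

theorem not_hasCyc_pendant (hn : Fintype.card V = l + k) (hl : 3 ≤ l) (A : Finset V)
    (hA : k + 1 ≤ A.card) (h : ∀ v ∈ A, ∀ y y', H.Adj v y → H.Adj v y' → y = y') : ¬ HasCyc H l := by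
  rintro ⟨a, b, s, p, hba, hs⟩
  have h1 := card_union_add_card_inter s A
  have h2 := card_le_univ (s ∪ A)
  obtain ⟨v, hv⟩ : (s ∩ A).Nonempty := card_pos.1 (by omega)
  rw [mem_inter] at hv
  obtain ⟨d, p', hd⟩ := p.rotate hba hv.1
  obtain ⟨c, hc, p''⟩ := p'.uncons hd.ne.symm
  have h3 := card_erase_add_one hv.1
  exact p''.ne_of_card (by omega) (h v hv.2 c d hc hd.symm)

omit [Fintype V] in
theorem HP.count {S A : Finset V} (hd : Disjoint S A) (hN : ∀ v ∈ A, ∀ y, H.Adj v y → y ∈ S)
    {a b : V} {s : Finset V} (p : HP H a b s) (hb : b ∉ A) :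
    (s ∩ A).card ≤ (s ∩ S).card ∧ (a ∈ S → (s ∩ A).card + 1 ≤ (s ∩ S).card) ∧
      (a ∉ A → (s ∩ A).card = 0 ∨ (s ∩ A).card + 1 ≤ (s ∩ S).card) := by
  induction p with
  | single a =>
    rw [singleton_inter_of_notMem hb]
    refine ⟨by simp, fun h => by rw [singleton_inter_of_mem h]; simp, fun _ => Or.inl rfl⟩
  | @cons a a' b s h1 h2 _ ih =>
    obtain ⟨i1, i2, i3⟩ := ih hb
    by_cases hA : a ∈ A
    · have hS : a ∉ S := fun e => disjoint_left.1 hd e hA
      have := i2 (hN a hA a' h1)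
      rw [insert_inter_of_mem hA, insert_inter_of_notMem hS,
        card_insert_of_notMem (fun e => h2 (mem_inter.1 e).1)]
      exact ⟨this, fun e => absurd e hS, fun e => absurd hA e⟩
    · rw [insert_inter_of_notMem hA]
      by_cases hS : a ∈ S
      · rw [insert_inter_of_mem hS, card_insert_of_notMem (fun e => h2 (mem_inter.1 e).1)]
        omega
      · rw [insert_inter_of_notMem hS]
        exact ⟨i1, fun e => absurd e hS, fun _ => i3 fun e => hS (hN a' e a h1.symm)⟩

theorem not_hasCyc_cut (hn : Fintype.card V = l + k) {S A : Finset V} (hd : Disjoint S A)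
    (hN : ∀ v ∈ A, ∀ y, H.Adj v y → y ∈ S) (hA : S.card + k ≤ A.card) (hS : 1 ≤ S.card)
    (hl : 2 * S.card < l) : ¬ HasCyc H l := by
  rintro ⟨a, b, s, p, hba, hs⟩
  have h0 : (s ∩ S).card ≤ S.card := card_le_card inter_subset_right
  have h1 := card_union_add_card_inter s A
  have h2 := card_le_univ (s ∪ A)
  by_cases hr : ∃ r ∈ s, r ∉ S ∧ r ∉ A
  · obtain ⟨r, hr, hrS, hrA⟩ := hr
    obtain ⟨d, p', hd'⟩ := p.rotate hba hr
    have := (p'.count hd hN fun e => hrS (hN d e r hd')).2.2 hrA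
    omega
  · push Not at hr
    obtain ⟨v, hv⟩ : (s ∩ A).Nonempty := card_pos.1 (by omega)
    rw [mem_inter] at hv
    obtain ⟨d, p', hd'⟩ := p.rotate hba hv.1
    have h3 := (p'.count hd hN fun e => disjoint_left.1 hd (hN v hv.2 d hd'.symm) e).1
    have h4 : s ⊆ (s ∩ S) ∪ (s ∩ A) := by
      intro x hx
      simp only [mem_union, mem_inter, hx, true_and]
      by_cases e : x ∈ S
      · exact Or.inl e
      · exact Or.inr (hr x hx e)
    have h5 := (card_le_card h4).trans (card_union_le _ _)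
    omega

/-- A symmetric function of two vertices given by its value on the sorted pair. -/
def symCol {n : ℕ} (g : ℕ → ℕ → ι) : Sym2 (Fin n) → ι :=
  Sym2.lift ⟨fun u v => g (min u.1 v.1) (max u.1 v.1), fun u v => by simp only [min_comm, max_comm]⟩

theorem card_filter_val {n : ℕ} (A : Finset ℕ) (hA : ∀ v ∈ A, v < n) :
    ((univ : Finset (Fin n)).filter fun v => v.1 ∈ A).card = A.card := by
  refine card_bij (fun v _ => v.1) (fun v hv => (mem_filter.1 hv).2) (fun a _ b _ e => Fin.ext e) ?_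
  intro v hv
  exact ⟨⟨v, hA v hv⟩, by simpa using hv, rfl⟩

/-- The nested construction, on top of a base colouring that takes care of the first `b` colours. -/
theorem lower {t b c k l : ℕ} (base : ℕ → ℕ → ℕ) (ht : 1 ≤ t) (hb : b ≤ t) (hk : k < c) (hl : 3 ≤ l)
    (hc : c ≤ l + 2 * k)
    (hbase : ∀ i < b, ∃ A : Finset ℕ, A.card = k + 1 ∧ ∀ v ∈ A, v + k < c ∧
      ∃ w, ∀ y, y ≠ v → y ≠ w → base (min v y) (max v y) = i)
    (hlt : b < t → 2 * (c * 2 ^ (t - 1 - b)) < l + 2 * k) : ¬ Arr t l (l + k) := by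
  classical
  intro h
  set col : Sym2 (Fin (l + k)) → Fin t := symCol fun u v => ⟨min (if u + k < c then base u v else
    b + Nat.findGreatest (fun r => c * 2 ^ r ≤ u + k) (t - 1 - b)) (t - 1), by omega⟩ with hcol
  obtain ⟨i, hi⟩ := h col
  have hit := i.2
  by_cases hib : i.1 < b
  · obtain ⟨A, cA, hA⟩ := hbase i.1 hib
    refine not_hasCyc_pendant (k := k) (by simp) hl (univ.filter fun v => v.1 ∈ A)
      (by rw [card_filter_val A fun v hv => by have := (hA v hv).1; omega]; omega) ?_ hi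
    intro v hv
    obtain ⟨h1, w, hw⟩ := hA v.1 (mem_filter.1 hv).2
    have key : ∀ y : Fin (l + k), (avoid col i).Adj v y → y.1 = w := fun y hy => by
      by_contra hne
      refine hy.2 (Fin.ext ?_)
      have h2 := hw y.1 (fun e => hy.1 (Fin.ext e.symm)) hne
      simp only [hcol, symCol, Sym2.lift_mk]
      rw [if_pos (by omega), h2]
      omega
    exact fun y y' hy hy' => Fin.ext ((key y hy).trans (key y' hy').symm)
  · obtain ⟨r, hr⟩ : ∃ r, i.1 = b + r := ⟨i.1 - b, by omega⟩
    have h1 := hlt (by omega)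
    have h2 : c * 2 ^ r ≤ c * 2 ^ (t - 1 - b) :=
      Nat.mul_le_mul_left c (Nat.pow_le_pow_right (by norm_num) (by omega))
    have h3 : c ≤ c * 2 ^ r := Nat.le_mul_of_pos_right c (by positivity)
    have h4 : ∀ u, c * 2 ^ r ≤ u + k → u + k < 2 * (c * 2 ^ r) →
        Nat.findGreatest (fun r => c * 2 ^ r ≤ u + k) (t - 1 - b) = r := by
      intro u u1 u2
      rw [Nat.findGreatest_eq_iff]
      refine ⟨by omega, fun _ => u1, fun r' hr' _ => ?_⟩
      have : c * 2 ^ (r + 1) ≤ c * 2 ^ r' :=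
        Nat.mul_le_mul_left c (Nat.pow_le_pow_right (by norm_num) hr')
      rw [pow_succ, ← mul_assoc] at this
      omega
    generalize c * 2 ^ r = σ at h2 h3 h4
    refine not_hasCyc_cut (k := k) (by simp) (S := univ.filter fun v => v.1 ∈ range (σ - k))
      (A := univ.filter fun v => v.1 ∈ Ico (σ - k) (2 * σ - k)) ?_ ?_ ?_ ?_ ?_ hi
    · rw [disjoint_left]
      intro v hv hv'
      simp only [mem_filter, mem_univ, true_and, mem_range, mem_Ico] at hv hv'
      omega
    · intro v hv y hy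
      simp only [mem_filter, mem_univ, true_and, mem_range, mem_Ico] at hv ⊢
      by_contra hne
      refine hy.2 (Fin.ext ?_)
      simp only [hcol, symCol, Sym2.lift_mk]
      rw [if_neg (by omega), h4 _ (by omega) (by omega)]
      omega
    · rw [card_filter_val _ fun v hv => by rw [mem_range] at hv; omega,
        card_filter_val _ fun v hv => by rw [mem_Ico] at hv; omega, card_range, Nat.card_Ico]
      omega
    · rw [card_filter_val _ fun v hv => by rw [mem_range] at hv; omega, card_range]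
      omega
    · rw [card_filter_val _ fun v hv => by rw [mem_range] at hv; omega, card_range]
      omega

theorem lower_one {t k l : ℕ} (ht : 2 ≤ t) (hl : 3 ≤ l)
    (h : (2 * k + 1) * 2 ^ (t - 1) + 1 ≤ l + 2 * k) : ¬ Arr t l (l + k) := by
  refine lower (b := 1) (c := 2 * k + 1) (fun _ _ => 0) (by omega) (by omega) (by omega) hl (by omega)
    ?_ fun _ => ?_
  · intro i hi
    exact ⟨range (k + 1), by simp, fun v hv => ⟨by rw [mem_range] at hv; omega, 0, fun _ _ _ => by omega⟩⟩
  · obtain ⟨r, rfl⟩ : ∃ r, t = r + 2 := ⟨t - 2, by omega⟩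
    rw [show r + 2 - 1 = r + 1 by omega, pow_succ, ← mul_assoc] at h
    rw [show r + 2 - 1 - 1 = r by omega]
    omega

theorem lower_two {t l : ℕ} (ht : 3 ≤ t) (h : 5 * 2 ^ (t - 2) ≤ l + 1) : ¬ Arr t l (l + 1) := by
  obtain ⟨r, rfl⟩ : ∃ r, t = r + 3 := ⟨t - 3, by omega⟩
  rw [show r + 3 - 2 = r + 1 by omega, pow_succ] at h
  have h1 : 1 ≤ 2 ^ r := Nat.one_le_two_pow
  refine lower (b := 2) (c := 5) (fun u v => if u ≤ 1 then (if v = u + 2 then 1 else 0) else 1)
    (by omega) (by omega) (by omega) (by omega) (by omega) ?_ fun _ => ?_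
  · intro i hi
    interval_cases i
    · refine ⟨{0, 1}, rfl, fun v hv => ?_⟩
      simp only [mem_insert, mem_singleton] at hv
      refine ⟨by omega, v + 2, fun y h1 h2 => ?_⟩
      split_ifs <;> omega
    · refine ⟨{2, 3}, rfl, fun v hv => ?_⟩
      simp only [mem_insert, mem_singleton] at hv
      refine ⟨by omega, 3 - v, fun y h1 h2 => ?_⟩
      split_ifs <;> omega
  · rw [show r + 3 - 1 - 2 = r by omega]
    omega

theorem lower_three {t l : ℕ} (ht : 3 ≤ t) (h : 3 * 2 ^ (t - 3) + 1 ≤ l) : ¬ Arr t l (l + 0) := by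
  have h1 : 1 ≤ 2 ^ (t - 3) := Nat.one_le_two_pow
  refine lower (b := 3) (c := 3) (fun u v => if v = u + 1 ∧ v ≤ 2 then v else u)
    (by omega) (by omega) (by omega) (by omega) (by omega) ?_ fun ht' => ?_
  · intro i hi
    refine ⟨{i}, rfl, fun v hv => ?_⟩
    simp only [mem_singleton] at hv
    refine ⟨by omega, (v + 1) % 3, fun y h1 h2 => ?_⟩
    split_ifs <;> omega
  · obtain ⟨r, rfl⟩ : ∃ r, t = r + 4 := ⟨t - 4, by omega⟩
    rw [show r + 4 - 3 = r + 1 by omega, pow_succ] at h
    rw [show r + 4 - 1 - 3 = r by omega]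
    omega

theorem lower_thr {t k l : ℕ} (ht : 3 ≤ t) (hl : 3 ≤ l) (h : Thr t k l) : ¬ Arr t l (l + k) := by
  rcases k with _ | _ | k
  · exact lower_three ht (h.1 rfl)
  · exact lower_two ht (h.2.1 rfl)
  · exact lower_one (by omega) hl (h.2.2 (by omega))

theorem lower_small {t l n : ℕ} (ht : 1 ≤ t) (hn : n < l) : ¬ Arr t l n := by
  intro h
  obtain ⟨i, a, b, s, -, -, hs⟩ := h fun _ => ⟨0, ht⟩
  have := card_le_univ s
  rw [Fintype.card_fin] at this
  omega

theorem lower_odd {l : ℕ} (hl : 3 ≤ l) (hl2 : l % 2 = 1) : ¬ Arr 2 l (2 * l - 2) := by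
  intro h
  obtain ⟨i, a, b, s, p, hba, hs⟩ := h (symCol fun u v => if u < l - 1 ∧ l - 1 ≤ v then 1 else 0)
  fin_cases i
  · have adj : ∀ u v : Fin (2 * l - 2), (avoid (symCol fun u v =>
        if u < l - 1 ∧ l - 1 ≤ v then (1 : Fin 2) else 0) 0).Adj u v →
        (u.1 < l - 1 ↔ ¬ v.1 < l - 1) := by
      intro u v huv
      have := huv.2
      simp only [symCol, Sym2.lift_mk] at this
      split_ifs at this with e
      · omega
      · exact absurd rfl this
    have key : ∀ a b s, HP (avoid (symCol fun u v =>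
        if u < l - 1 ∧ l - 1 ≤ v then (1 : Fin 2) else 0) 0) a b s →
        ((a.1 < l - 1 ↔ (b : Fin (2 * l - 2)).1 < l - 1) ↔ s.card % 2 = 1) := by
      intro a b s p
      induction p with
      | single a => simp
      | cons h1 h2 _ ih =>
        have := adj _ _ h1
        rw [card_insert_of_notMem h2]
        omega
    have h1 := key a b s p
    have h2 := adj b a hba
    omega
  · have adj : ∀ u v : Fin (2 * l - 2), (avoid (symCol fun u v =>
        if u < l - 1 ∧ l - 1 ≤ v then (1 : Fin 2) else 0) 1).Adj u v →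
        (u.1 < l - 1 ↔ v.1 < l - 1) := by
      intro u v huv
      have := huv.2
      simp only [symCol, Sym2.lift_mk] at this
      split_ifs at this with e
      · exact absurd rfl this
      · omega
    have key : ∀ a b s, HP (avoid (symCol fun u v =>
        if u < l - 1 ∧ l - 1 ≤ v then (1 : Fin 2) else 0) 1) a b s →
        ∀ v ∈ s, (v.1 < l - 1 ↔ (a : Fin (2 * l - 2)).1 < l - 1) := by
      intro a b s p
      induction p with
      | single a => simp
      | cons h1 h2 _ ih =>
        intro v hv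
        have := adj _ _ h1
        rcases mem_insert.1 hv with rfl | hv
        · rfl
        · have := ih v hv
          omega
    have h1 := key a b s p
    by_cases ha : a.1 < l - 1
    · have : s ⊆ univ.filter fun v => v.1 ∈ range (l - 1) := fun v hv => by
        simpa using (h1 v hv).2 ha
      have h2 := card_le_card this
      rw [card_filter_val _ fun v hv => by rw [mem_range] at hv; omega, card_range] at h2
      omega
    · have : s ⊆ univ.filter fun v => v.1 ∈ Ico (l - 1) (2 * l - 2) := fun v hv => by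
        have := h1 v hv
        have h3 := v.2
        simp only [mem_filter, mem_univ, true_and, mem_Ico]
        omega
      have h2 := card_le_card this
      rw [card_filter_val _ fun v hv => by rw [mem_Ico] at hv; omega, Nat.card_Ico] at h2
      omega

end Pool.Agent.Work.MP_df328f_co
end
end
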