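import Pool.Agent.Work.MP_df328f_co.Small

/-! The value of `f (t, l)`. -/

namespace Pool.Agent.Work.MP_df328f_co

open Finset

theorem exists_long {V ι : Type} [DecidableEq V] [Fintype V] {H : ι → SimpleGraph V} {l : ℕ}
    (h : ¬ ∀ i, NoLong (H i) l) : ∃ i m, l ≤ m ∧ m ≤ Fintype.card V ∧ HasCyc (H i) m := by
  simp only [NoLong, not_forall, not_lt] at h
  obtain ⟨i, a, b, s, p, hba, hs⟩ := h
  exact ⟨i, s.card, hs, card_le_univ s, a, b, s, p, hba, rfl⟩

theorem upper_thr {t k l : ℕ} (ht : 3 ≤ t) (hl : 3 ≤ l) (h0 : t = 3 → 4 ≤ l) (h3 : l = 3 → k = 0)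
    (h : ¬ Thr t k l) : Arr t l (l + k) := by
  intro c
  obtain ⟨i, m, h1, h2, hm⟩ := exists_long (H := avoid c) (l := l) fun hN => h (by
    simpa using thr_of_nolong (k := k) (avoid_cover c) hN (by simp) hl (by simpa using ht)
      (by simpa using h0))
  rw [Fintype.card_fin] at h2
  induction m, h1 using Nat.le_induction generalizing i with
  | base => exact ⟨i, hm⟩
  | succ m hlm ih =>
    obtain ⟨i', h'⟩ := step_three (avoid_cover c) (by simpa using ht) (by omega) hm
    exact ih i' (by omega) h'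

theorem cover_two {V : Type} (c : Sym2 V → Fin 2) (u v : V) (huv : u ≠ v) :
    (avoid c 0).Adj u v ∨ (avoid c 1).Adj u v := avoid_cover c 0 1 (by decide) u v huv

theorem upper_even {k : ℕ} (hk : 2 ≤ k) : Arr 2 (2 * k + 2) (3 * k + 2) := by
  intro c
  obtain ⟨i, m, h1, -, hm⟩ := exists_long (H := avoid c) (l := 2 * k + 2) fun hN =>
    long_two (avoid_cover c) hN (by simp; omega) hk
  have h2 : HasCyc (avoid c 0) m ∨ HasCyc (avoid c 1) m := by
    fin_cases i
    · exact Or.inl hm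
    · exact Or.inr hm
  rcases exact_even (cover_two c) (by omega) (by omega) h1 h2 with h | h
  · exact ⟨0, h⟩
  · exact ⟨1, h⟩

theorem upper_odd {q : ℕ} (hq : 3 ≤ q) : Arr 2 (2 * q - 1) (4 * q - 3) := by
  intro c
  obtain ⟨i, hi⟩ := (upper_even (k := q - 1) (by omega)).mono (n' := 4 * q - 3) (by omega) c
  rw [show 2 * (q - 1) + 2 = 2 * q by omega] at hi
  fin_cases i
  · rcases step_to_odd (cover_two c) hq (by simp; omega) hi with h | h
    · exact ⟨0, h⟩
    · exact ⟨1, h⟩
  · rcases step_to_odd (fun u v huv => (cover_two c u v huv).symm) hq (by simp; omega) hi with h | h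
    · exact ⟨1, h⟩
    · exact ⟨0, h⟩

theorem main_two {l : ℕ} (hl : 3 ≤ l) : IsLeast {n | Arrows 2 l n} (value 2 l) := by
  simp only [value, if_true]
  split_ifs with h1 h2
  · have : l = 3 ∨ l = 4 := by omega
    rcases this with rfl | rfl
    · exact isLeast_of (by omega) hl arr_2_3_6 not_arr_2_3_5
    · exact isLeast_of (by omega) hl arr_2_4_6 not_arr_2_4_5
  · rw [show 2 * l - 1 = 2 * l - 2 + 1 by omega]
    refine isLeast_of (by omega) hl ?_ (lower_odd hl h2)
    have := upper_odd (q := (l + 1) / 2) (by omega)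
    rwa [show 2 * ((l + 1) / 2) - 1 = l by omega,
      show 4 * ((l + 1) / 2) - 3 = 2 * l - 2 + 1 by omega] at this
  · rw [show 3 * l / 2 - 1 = l + (l / 2 - 2) + 1 by omega]
    refine isLeast_of (by omega) hl ?_ (lower_one le_rfl hl (by omega))
    have := upper_even (k := l / 2 - 1) (by omega)
    rwa [show 2 * (l / 2 - 1) + 2 = l by omega,
      show 3 * (l / 2 - 1) + 2 = l + (l / 2 - 2) + 1 by omega] at this

theorem main_ge {t l : ℕ} (ht : 3 ≤ t) (hl : 3 ≤ l) : IsLeast {n | Arrows t l n} (value t l) := by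
  simp only [value, if_neg (show ¬ t = 2 by omega)]
  obtain ⟨r, rfl⟩ : ∃ r, t = r + 3 := ⟨t - 3, by omega⟩
  have e1 : 2 ^ (r + 3 - 3) = 2 ^ r := by rw [Nat.add_sub_cancel]
  have e2 : 2 ^ (r + 3 - 2) = 2 * 2 ^ r := by rw [show r + 3 - 2 = r + 1 by omega, pow_succ]; ring
  have e3 : 2 ^ (r + 3 - 1) = 4 * 2 ^ r := by rw [show r + 3 - 1 = r + 2 by omega, pow_add]; ring
  have e4 : 2 ^ (r + 3) = 8 * 2 ^ r := by rw [pow_add]; ring
  have hP : 1 ≤ 2 ^ r := Nat.one_le_two_pow
  have hr : r + 3 ≠ 3 → 2 ≤ 2 ^ r := fun h => by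
    obtain ⟨r', rfl⟩ : ∃ r', r = r' + 1 := ⟨r - 1, by omega⟩
    have : 1 ≤ 2 ^ r' := Nat.one_le_two_pow
    rw [pow_succ]
    omega
  split_ifs with h1 h2 h3 h4
  · obtain ⟨h1, rfl⟩ := h1
    rw [h1]
    exact isLeast_of (by omega) hl arr_3_3_5 not_arr_3_3_4
  · have := isLeast_of (t := r + 3) (N := l - 1) (by omega) hl (by
      rw [show l - 1 + 1 = l + 0 by omega]
      refine upper_thr ht hl (by omega) (by omega) fun h => ?_
      have := h.1 rfl
      omega) (lower_small (by omega) (by omega))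
    rwa [show l - 1 + 1 = l by omega] at this
  · refine isLeast_of (N := l + 0) (by omega) hl ?_ (lower_thr ht hl
      ⟨fun _ => by omega, fun e => by omega, fun e => by omega⟩)
    refine upper_thr (k := 1) ht hl (by omega) (by omega) fun h => ?_
    have := h.2.1 rfl
    omega
  · refine isLeast_of (N := l + 1) (by omega) hl ?_ (lower_thr ht hl
      ⟨fun e => by omega, fun _ => by omega, fun e => by omega⟩)
    refine upper_thr (k := 2) ht hl (by omega) (by omega) fun h => ?_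
    have := h.2.2 le_rfl
    omega
  · rw [e1] at h2
    rw [e2] at h3
    rw [e3] at h4
    rw [e3, e4]
    have hD : 0 < 8 * 2 ^ r - 2 := by omega
    have d1 := Nat.div_mul_le_self (l + 4 * 2 ^ r - 3) (8 * 2 ^ r - 2)
    have d2 := Nat.lt_mul_div_succ (l + 4 * 2 ^ r - 3) hD
    have d3 : 3 ≤ (l + 4 * 2 ^ r - 3) / (8 * 2 ^ r - 2) := by
      rw [Nat.le_div_iff_mul_le hD]
      omega
    generalize (l + 4 * 2 ^ r - 3) / (8 * 2 ^ r - 2) = K at d1 d2 d3
    obtain ⟨k, rfl⟩ : ∃ k, K = k + 1 := ⟨K - 1, by omega⟩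
    have f1 : (2 : ℕ) ≤ 8 * 2 ^ r := by omega
    have f2 : 3 ≤ l + 4 * 2 ^ r := by omega
    zify [f1, f2] at d1 d2
    refine isLeast_of (N := l + k) (by omega) hl ?_ (lower_thr ht hl
      ⟨fun e => by omega, fun e => by omega, fun _ => ?_⟩)
    · refine upper_thr (k := k + 1) ht hl (by omega) (by omega) fun h => ?_
      have := h.2.2 (by omega)
      rw [e3] at this
      zify at this
      nlinarith
    · rw [e3]
      zify
      nlinarith

theorem main (t l : ℕ) (ht : 2 ≤ t) (hl : 3 ≤ l) : IsLeast {n | Arrows t l n} (value t l) := by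
  rcases ht.eq_or_lt with rfl | ht
  · exact main_two hl
  · exact main_ge ht hl

end Pool.Agent.Work.MP_df328f_co
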