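import Pool.Agent.Work.MP_df328f_co.Bridge

/-! The small exceptional cases. -/

namespace Pool.Agent.Work.MP_df328f_co

open Finset

theorem not_arr_three {t n : ℕ} (c : Sym2 (Fin n) → Fin t)
    (h : ∀ (i : Fin t) (a b d : Fin n), a ≠ b → b ≠ d → d ≠ a →
      c s(a, b) = i ∨ c s(b, d) = i ∨ c s(d, a) = i) : ¬ Arr t 3 n := by
  intro hA
  obtain ⟨i, hi⟩ := hA c
  obtain ⟨y, hy⟩ := hi.exists_icyc
  have h1 := hy.adj 0
  have h2 := hy.adj 1
  have h3 := hy.adj 2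
  rw [show 2 + 1 = 0 + 3 from rfl, hy.per] at h3
  rcases h i _ _ _ h1.1 h2.1 h3.1 with e | e | e
  exacts [h1.2 e, h2.2 e, h3.2 e]

theorem not_arr_four {t n : ℕ} (c : Sym2 (Fin n) → Fin t)
    (h : ∀ (i : Fin t) (a b d e : Fin n), a ≠ b → b ≠ d → d ≠ e → e ≠ a → a ≠ d → b ≠ e →
      c s(a, b) = i ∨ c s(b, d) = i ∨ c s(d, e) = i ∨ c s(e, a) = i) : ¬ Arr t 4 n := by
  intro hA
  obtain ⟨i, hi⟩ := hA c
  obtain ⟨y, hy⟩ := hi.exists_icyc
  have h1 := hy.adj 0
  have h2 := hy.adj 1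
  have h3 := hy.adj 2
  have h4 := hy.adj 3
  rw [show 3 + 1 = 0 + 4 from rfl, hy.per] at h4
  rcases h i _ _ _ _ h1.1 h2.1 h3.1 h4.1 (hy.ne 0 2 (by omega) (by omega))
    (hy.ne 1 3 (by omega) (by omega)) with e | e | e | e
  exacts [h1.2 e, h2.2 e, h3.2 e, h4.2 e]

theorem not_arr_2_3_5 : ¬ Arr 2 3 5 :=
  not_arr_three (symCol fun u v => if v - u = 1 ∨ v - u = 4 then 0 else 1) (by
    simp only [symCol, Sym2.lift_mk]
    decide)

set_option synthInstance.maxSize 2048 in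
theorem not_arr_2_4_5 : ¬ Arr 2 4 5 :=
  not_arr_four (symCol fun u v => if v - u = 1 ∨ v - u = 4 then 0 else 1) (by
    simp only [symCol, Sym2.lift_mk]
    decide +kernel)

theorem not_arr_3_3_4 : ¬ Arr 3 3 4 :=
  not_arr_three (symCol fun u v => if u + v = 3 then 0 else if v - u = 1 then 1 else 2) (by
    simp only [symCol, Sym2.lift_mk]
    decide)

theorem arr_3_3_5 : Arr 3 3 5 := by
  intro c
  obtain ⟨a, b, hab, e⟩ := Fintype.exists_ne_map_eq_of_card_lt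
    (fun a : Fin 4 => c s(0, a.succ)) (by simp)
  obtain ⟨i, h1, h2⟩ : ∃ i : Fin 3, c s(0, a.succ) ≠ i ∧ c s(a.succ, b.succ) ≠ i := by
    generalize c s(0, a.succ) = α
    generalize c s(a.succ, b.succ) = β
    revert α β
    decide
  have n1 := (Fin.succ_ne_zero a).symm
  have n2 := (Fin.succ_ne_zero b).symm
  have n3 : a.succ ≠ b.succ := fun h => hab (Fin.succ_injective _ h)
  refine ⟨i, hasCyc_of_list 0 [a.succ, b.succ] (by simp [n1, n2, hab]) ?_ ?_⟩
  · simp only [List.isChain_cons_cons, List.isChain_singleton, and_true]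
    exact ⟨⟨n1, h1⟩, ⟨n3, h2⟩⟩
  · have : (avoid c i).Adj 0 b.succ := ⟨n2, e ▸ h1⟩
    exact this.symm

def idx (u v : Fin 6) : ℕ := max u.1 v.1 * (max u.1 v.1 - 1) / 2 + min u.1 v.1

def prs : List (Fin 6 × Fin 6) :=
  [(0, 1), (0, 2), (1, 2), (0, 3), (1, 3), (2, 3), (0, 4), (1, 4), (2, 4), (3, 4), (0, 5), (1, 5),
    (2, 5), (3, 5), (4, 5)]

def tri : List (List (List ℕ)) :=
  [[],
   [],
   [[0, 2, 1]],
   [],
   [[0, 4, 3]],
   [[1, 5, 3], [2, 5, 4]],
   [],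
   [[0, 7, 6]],
   [[1, 8, 6], [2, 8, 7]],
   [[3, 9, 6], [4, 9, 7], [5, 9, 8]],
   [],
   [[0, 11, 10]],
   [[1, 12, 10], [2, 12, 11]],
   [[3, 13, 10], [4, 13, 11], [5, 13, 12]],
   [[6, 14, 10], [7, 14, 11], [8, 14, 12], [9, 14, 13]]]

def quad : List (List (List ℕ)) :=
  [[],
   [],
   [],
   [],
   [[1, 2, 4, 3]],
   [[0, 2, 5, 3], [0, 4, 5, 1]],
   [],
   [[1, 2, 7, 6], [3, 4, 7, 6]],
   [[0, 2, 8, 6], [0, 7, 8, 1], [3, 5, 8, 6], [4, 5, 8, 7]],
   [[0, 4, 9, 6], [0, 7, 9, 3], [1, 5, 9, 6], [1, 8, 9, 3], [2, 5, 9, 7], [2, 8, 9, 4]],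
   [],
   [[1, 2, 11, 10], [3, 4, 11, 10], [6, 7, 11, 10]],
   [[0, 2, 12, 10], [0, 11, 12, 1], [3, 5, 12, 10], [6, 8, 12, 10], [4, 5, 12, 11], [7, 8, 12, 11]],
   [[0, 4, 13, 10], [0, 11, 13, 3], [1, 5, 13, 10], [1, 12, 13, 3], [6, 9, 13, 10], [2, 5, 13, 11], [2, 12, 13, 4], [7, 9, 13, 11], [8, 9, 13, 12]],
   [[0, 7, 14, 10], [0, 11, 14, 6], [1, 8, 14, 10], [1, 12, 14, 6], [3, 9, 14, 10], [3, 13, 14, 6], [2, 8, 14, 11], [2, 12, 14, 7], [4, 9, 14, 11], [4, 13, 14, 7], [5, 9, 14, 12], [5, 13, 14, 8]]]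

def mono (g : ℕ → Bool) (c : List ℕ) : Bool := c.all (fun i => g i) || c.all (fun i => !g i)

def upd (g : ℕ → Bool) (j : ℕ) (b : Bool) : ℕ → Bool := fun i => if i = j then b else g i

/-- A backtracking search over all colourings. -/
def srch : List (List (List ℕ)) → ℕ → (ℕ → Bool) → Bool
  | [], _, _ => false
  | L :: rest, j, g =>
    (L.any (fun c => c.all (fun i => i ≤ j) && mono (upd g j true) c) ||
        srch rest (j + 1) (upd g j true)) &&
      (L.any (fun c => c.all (fun i => i ≤ j) && mono (upd g j false) c) ||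
        srch rest (j + 1) (upd g j false))

theorem mono_congr {f g : ℕ → Bool} {c : List ℕ} (h : ∀ i ∈ c, f i = g i) (hm : mono g c = true) :
    mono f c = true := by
  simp only [mono, Bool.or_eq_true, List.all_eq_true] at hm ⊢
  exact hm.imp (fun e i hi => h i hi ▸ e i hi) (fun e i hi => h i hi ▸ e i hi)

theorem srch_spec (f : ℕ → Bool) (Ls : List (List (List ℕ))) (j : ℕ) (g : ℕ → Bool)
    (h : srch Ls j g = true) (hg : ∀ i < j, f i = g i) : ∃ L ∈ Ls, ∃ c ∈ L, mono f c = true := by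
  induction Ls generalizing j g with
  | nil => simp [srch] at h
  | cons L rest ih =>
    have h1 : (L.any (fun c => c.all (fun i => i ≤ j) && mono (upd g j (f j)) c) ||
        srch rest (j + 1) (upd g j (f j))) = true := by
      simp only [srch, Bool.and_eq_true] at h
      cases f j
      · exact h.2
      · exact h.1
    have h2 : ∀ i < j + 1, f i = upd g j (f j) i := by
      intro i hi
      unfold upd
      split_ifs with e
      · rw [e]
      · exact hg i (by omega)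
    rw [Bool.or_eq_true] at h1
    rcases h1 with h1 | h1
    · obtain ⟨c, hc, h3⟩ := List.any_eq_true.1 h1
      rw [Bool.and_eq_true, List.all_eq_true] at h3
      exact ⟨L, by simp, c, hc, mono_congr (fun i hi => h2 i (by have := h3.1 i hi; simp at this; omega))
        h3.2⟩
    · obtain ⟨L', hL', r⟩ := ih _ _ h1 h2
      exact ⟨L', List.mem_cons_of_mem _ hL', r⟩

theorem check_tri : srch tri 0 (fun _ => false) = true := by
  decide +kernel

theorem check_quad : srch quad 0 (fun _ => false) = true := by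
  decide +kernel

/-- The table of a 2-colouring of `K_6`. -/
def tab (c : Sym2 (Fin 6) → Fin 2) (i : ℕ) : Bool :=
  decide (c s((prs.getD i (0, 0)).1, (prs.getD i (0, 0)).2) = 0)

theorem tab_eq (c : Sym2 (Fin 6) → Fin 2) (u v : Fin 6) (huv : u ≠ v) :
    tab c (idx u v) = decide (c s(u, v) = 0) := by
  have h : ∀ u v : Fin 6, u ≠ v →
      prs.getD (idx u v) (0, 0) = (u, v) ∨ prs.getD (idx u v) (0, 0) = (v, u) := by
    decide +kernel
  unfold tab
  rcases h u v huv with e | e <;> rw [e]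
  rw [Sym2.eq_swap]

theorem mono_tab (c : Sym2 (Fin 6) → Fin 2) (l : List ℕ) (h : mono (tab c) l = true) :
    ∃ i, ∀ u v, u ≠ v → idx u v ∈ l → (avoid c i).Adj u v := by
  simp only [mono, Bool.or_eq_true, List.all_eq_true] at h
  rcases h with h | h
  · refine ⟨1, fun u v huv hm => ⟨huv, ?_⟩⟩
    have := h _ hm
    rw [tab_eq c u v huv, decide_eq_true_eq] at this
    rw [this]
    decide
  · refine ⟨0, fun u v huv hm => ⟨huv, ?_⟩⟩
    have := h _ hm
    rw [tab_eq c u v huv] at this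
    simpa using this

theorem arr_2_3_6 : Arr 2 3 6 := by
  intro c
  obtain ⟨L, hL, p, hp, h⟩ := srch_spec (tab c) _ _ _ check_tri (by simp)
  have hne : ∀ L ∈ tri, ∀ p ∈ L, ∃ a b d : Fin 6, a ≠ b ∧ b ≠ d ∧ d ≠ a ∧
      p = [idx a b, idx b d, idx d a] := by
    decide +kernel
  obtain ⟨a, b, d, n1, n2, n3, rfl⟩ := hne _ hL _ hp
  obtain ⟨i, hi⟩ := mono_tab c _ h
  refine ⟨i, hasCyc_of_list a [b, d] (by simp [n1, n2, n3.symm]) ?_ (hi _ _ n3 (by simp))⟩
  simp only [List.isChain_cons_cons, List.isChain_singleton, and_true]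
  exact ⟨hi _ _ n1 (by simp), hi _ _ n2 (by simp)⟩

set_option synthInstance.maxSize 2048 in
theorem arr_2_4_6 : Arr 2 4 6 := by
  intro c
  obtain ⟨L, hL, p, hp, h⟩ := srch_spec (tab c) _ _ _ check_quad (by simp)
  have hne : ∀ L ∈ quad, ∀ p ∈ L, ∃ a b d e : Fin 6, a ≠ b ∧ b ≠ d ∧ d ≠ e ∧ e ≠ a ∧ a ≠ d ∧ b ≠ e ∧
      p = [idx a b, idx b d, idx d e, idx e a] := by
    decide +kernel
  obtain ⟨a, b, d, e, n1, n2, n3, n4, n5, n6, rfl⟩ := hne _ hL _ hp
  obtain ⟨i, hi⟩ := mono_tab c _ h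
  refine ⟨i, hasCyc_of_list a [b, d, e] (by simp [n1, n2, n3, n4.symm, n5, n6]) ?_
    (hi _ _ n4 (by simp))⟩
  simp only [List.isChain_cons_cons, List.isChain_singleton, and_true]
  exact ⟨hi _ _ n1 (by simp), hi _ _ n2 (by simp), hi _ _ n3 (by simp)⟩

end Pool.Agent.Work.MP_df328f_co
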